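import Pool.Agent.Helper10.Sub.AppDefs

/-!
# Transfer of conditions on common zeros from an algebraically closed field to all extensions
-/

set_option autoImplicit false

namespace Pool.Agent.Helper89.Sub

open Pool.Agent.Helper10.Sub MvPolynomial

/-- A finitely generated `k`-subalgebra of a field containing a given finite set and the inverse of a
given nonzero element maps to `Ω`. -/
theorem exists_hom {k : Type} [Field k] {Ω : Type} [Field Ω] [IsAlgClosed Ω] [Algebra k Ω]
    {L : Type} [Field L] [Algebra k L] (s : Finset L) :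
    ∃ S : Subalgebra k L, (↑s : Set L) ⊆ S ∧ Nonempty (S →ₐ[k] Ω) := by
  classical
  refine ⟨Algebra.adjoin k (↑s : Set L), Algebra.subset_adjoin, ?_⟩
  set S := Algebra.adjoin k (↑s : Set L) with hS
  have hft : Algebra.FiniteType k S :=
    (Subalgebra.fg_iff_finiteType S).mp ⟨s, rfl⟩
  obtain ⟨m, hm⟩ := Ideal.exists_maximal S
  let _ : Field (S ⧸ m) := Ideal.Quotient.field m
  have : Algebra.FiniteType k (S ⧸ m) :=
    Algebra.FiniteType.of_surjective (Ideal.Quotient.mkₐ k m) (Ideal.Quotient.mkₐ_surjective k m)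
  have : Module.Finite k (S ⧸ m) := finite_of_finite_type_of_isJacobsonRing k (S ⧸ m)
  have : Algebra.IsAlgebraic k (S ⧸ m) := Algebra.IsAlgebraic.of_finite k (S ⧸ m)
  have : Module.IsTorsionFree k (S ⧸ m) := inferInstance
  let ψ : (S ⧸ m) →ₐ[k] Ω := IsAlgClosed.lift
  exact ⟨ψ.comp (Ideal.Quotient.mkₐ k m)⟩

theorem aeval_coe {k : Type} [Field k] {L : Type} [Field L] [Algebra k L]
    {κ : Type} (S : Subalgebra k L) (A : κ → S) (f : MvPolynomial κ k) :
    aeval (fun i => (A i : L)) f = ((aeval A f : S) : L) := by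
  have := MvPolynomial.comp_aeval_apply (f := A) S.val f
  simpa using this.symm

theorem aeval_map' {k : Type} [Field k] {L : Type} [Field L] [Algebra k L]
    {Ω : Type} [Field Ω] [Algebra k Ω]
    {κ : Type} (S : Subalgebra k L) (φ : S →ₐ[k] Ω) (A : κ → S) (f : MvPolynomial κ k) :
    aeval (fun i => φ (A i)) f = φ (aeval A f) := by
  have := MvPolynomial.comp_aeval_apply (f := A) φ f
  simpa using this.symm

/-- TRANSFER -/
theorem transfer {k : Type} [Field k] {Ω : Type} [Field Ω] [IsAlgClosed Ω] [Algebra k Ω]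
    {κ : Type} [Fintype κ] (J : Set (MvPolynomial κ k))
    (h : ∀ A : κ → Ω, A ≠ 0 → OnV J A → Jac J A) {L : Type} [Field L] [Algebra k L]
    (A : κ → L) (hA : A ≠ 0) (hJ : OnV J A) : Jac J A := by
  classical
  intro v hv
  by_contra hcon
  obtain ⟨i, hi⟩ : ∃ i, A i ≠ 0 := by
    by_contra hne
    push Not at hne
    exact hA (funext hne)
  obtain ⟨j, hj⟩ : ∃ j, A i * v j - A j * v i ≠ 0 := by
    by_contra hne
    push Not at hne
    refine hcon ⟨v i / A i, ?_⟩
    funext j
    have := hne j
    rw [Pi.smul_apply, smul_eq_mul]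
    field_simp
    linear_combination this
  obtain ⟨S, hsub, ⟨φ⟩⟩ := exists_hom (k := k) (Ω := Ω)
    ((Finset.univ.image A ∪ Finset.univ.image v) ∪ {(A i * v j - A j * v i)⁻¹})
  have hAm : ∀ l, A l ∈ S := fun l => hsub (by simp)
  have hvm : ∀ l, v l ∈ S := fun l => hsub (by simp)
  have hmm : (A i * v j - A j * v i)⁻¹ ∈ S := hsub (by simp)
  let A' : κ → S := fun l => ⟨A l, hAm l⟩
  let v' : κ → S := fun l => ⟨v l, hvm l⟩
  let w' : S := ⟨(A i * v j - A j * v i)⁻¹, hmm⟩
  have hw : (A' i * v' j - A' j * v' i) * w' = 1 := by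
    apply Subtype.ext
    simp only [A', v', w', MulMemClass.mk_mul_mk, AddSubgroupClass.coe_sub, MulMemClass.coe_mul,
      OneMemClass.coe_one]
    exact mul_inv_cancel₀ hj
  have hminor : φ (A' i) * φ (v' j) - φ (A' j) * φ (v' i) ≠ 0 := by
    intro h0
    have := congrArg φ hw
    rw [map_mul, map_sub, map_mul, map_mul, map_one, h0, zero_mul] at this
    exact zero_ne_one this
  have hne : (fun l => φ (A' l)) ≠ 0 := by
    intro h0
    have h1 : φ (A' i) = 0 := congrFun h0 i
    have h2 : φ (A' j) = 0 := congrFun h0 j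
    exact hminor (by rw [h1, h2]; ring)
  have hon : OnV J (fun l => φ (A' l)) := by
    intro f hf
    rw [aeval_map']
    have h1 : ((aeval A' f : S) : L) = 0 := by
      rw [← aeval_coe]
      exact hJ f hf
    have h2 : (aeval A' f : S) = 0 := Subtype.ext (by simpa using h1)
    rw [h2, map_zero]
  obtain ⟨c, hc⟩ := h _ hne hon (fun l => φ (v' l)) (by
    intro f hf
    have h1 := hv f hf
    unfold dif at h1 ⊢
    have h2 : ∑ l, aeval A' (pderiv l f) * v' l = 0 := by
      apply Subtype.ext
      have : ((∑ l, aeval A' (pderiv l f) * v' l : S) : L) = ∑ l, aeval A (pderiv l f) * v l := by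
        rw [AddSubmonoidClass.coe_finsetSum]
        refine Finset.sum_congr rfl fun l _ => ?_
        rw [MulMemClass.coe_mul, ← aeval_coe]
      rw [this, h1]
      rfl
    have h3 := congrArg φ h2
    rw [map_sum, map_zero] at h3
    rw [← h3]
    refine Finset.sum_congr rfl fun l _ => ?_
    rw [map_mul, aeval_map'])
  have e1 : φ (v' j) = c * φ (A' j) := congrFun hc j
  have e2 : φ (v' i) = c * φ (A' i) := congrFun hc i
  apply hminor
  rw [e1, e2]
  ring

/-- TRANSFER0 -/
theorem transfer0 {k : Type} [Field k] {Ω : Type} [Field Ω] [IsAlgClosed Ω] [Algebra k Ω]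
    {κ : Type} [Fintype κ] (J : Set (MvPolynomial κ k))
    (h : ∀ A : κ → Ω, OnV J A → A = 0) {L : Type} [Field L] [Algebra k L]
    (A : κ → L) (hJ : OnV J A) : A = 0 := by
  classical
  by_contra hA
  obtain ⟨i, hi⟩ : ∃ i, A i ≠ 0 := by
    by_contra hne
    push Not at hne
    exact hA (funext hne)
  obtain ⟨S, hsub, ⟨φ⟩⟩ := exists_hom (k := k) (Ω := Ω)
    (Finset.univ.image A ∪ {(A i)⁻¹})
  have hAm : ∀ l, A l ∈ S := fun l => hsub (by simp)
  have hmm : (A i)⁻¹ ∈ S := hsub (by simp)
  let A' : κ → S := fun l => ⟨A l, hAm l⟩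
  let w' : S := ⟨(A i)⁻¹, hmm⟩
  have hw : A' i * w' = 1 := by
    apply Subtype.ext
    simp only [A', w', MulMemClass.mk_mul_mk, OneMemClass.coe_one]
    exact mul_inv_cancel₀ hi
  have hon : OnV J (fun l => φ (A' l)) := by
    intro f hf
    rw [aeval_map']
    have h1 : ((aeval A' f : S) : L) = 0 := by
      rw [← aeval_coe]
      exact hJ f hf
    have h2 : (aeval A' f : S) = 0 := Subtype.ext (by simpa using h1)
    rw [h2, map_zero]
  have h0 := congrFun (h _ hon) i
  have h1 := congrArg φ hw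
  rw [map_mul, map_one] at h1
  simp only [Pi.zero_apply] at h0
  rw [h0, zero_mul] at h1
  exact zero_ne_one h1

end Pool.Agent.Helper89.Sub
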