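import Pool.Agent.Helper52.Inv.Defs

/-!
# The profinite statement of MP_0873fe_al from the finite statement
-/

set_option autoImplicit false

namespace Pool.Agent.Helper89.Inv

open Pool.Agent.Helper52.Inv
open scoped commutatorElement
open Filter Topology

/-- Kernels of homomorphisms to finite `p`-groups with an involution with abelian centralizer. -/
def NN (p : ℕ) (M : Subgroup (FreeGroup (Fin 2))) : Prop :=
  ∃ (P : Type) (_ : Group P) (_ : Finite P) (_ : IsPGroup p P) (φ : P ≃* P),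
    (∀ x, φ (φ x) = x) ∧ (∀ a b : P, φ a = a → φ b = b → a * b = b * a) ∧
    ∃ θ : FreeGroup (Fin 2) →* P, θ.ker = M

theorem NN_top (p : ℕ) : NN p ⊤ := by
  refine ⟨PUnit, inferInstance, inferInstance, ?_, MulEquiv.refl _, fun _ => rfl,
    fun a b _ _ => rfl, 1, ?_⟩
  · intro g
    exact ⟨0, rfl⟩
  · ext x
    simp

theorem NN_inf (p : ℕ) {M M' : Subgroup (FreeGroup (Fin 2))} (h : NN p M) (h' : NN p M') :
    NN p (M ⊓ M') := by
  obtain ⟨P, iP, fP, hP, φ, h2, hc, θ, rfl⟩ := h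
  obtain ⟨P', iP', fP', hP', φ', h2', hc', θ', rfl⟩ := h'
  refine ⟨P × P', inferInstance, inferInstance, ?_, MulEquiv.prodCongr φ φ', ?_, ?_,
    θ.prod θ', ?_⟩
  · intro g
    obtain ⟨k, hk⟩ := hP g.1
    obtain ⟨k', hk'⟩ := hP' g.2
    refine ⟨k + k', Prod.ext ?_ ?_⟩
    · rw [Prod.pow_fst, pow_add, pow_mul, hk, one_pow]; rfl
    · rw [Prod.pow_snd, pow_add, mul_comm, pow_mul, hk', one_pow]; rfl
  · intro x
    exact Prod.ext (h2 _) (h2' _)
  · intro a b ha hb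
    have ha1 : φ a.1 = a.1 := congrArg Prod.fst ha
    have ha2 : φ' a.2 = a.2 := congrArg Prod.snd ha
    have hb1 : φ b.1 = b.1 := congrArg Prod.fst hb
    have hb2 : φ' b.2 = b.2 := congrArg Prod.snd hb
    exact Prod.ext (hc _ _ ha1 hb1) (hc' _ _ ha2 hb2)
  · ext x
    simp [MonoidHom.mem_ker, Prod.ext_iff]

/-- Square roots of inverted elements: fixed points lift. -/
theorem exists_fixed (p : ℕ) (hp : p.Prime) (h2 : 2 < p)
    (G : Type) [Group G] [TopologicalSpace G] [IsTopologicalGroup G] [CompactSpace G]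
    [T2Space G] [TotallyDisconnectedSpace G]
    (hpro : ∀ U : Subgroup G, IsOpen (U : Set G) → U.Normal → ∃ k : ℕ, U.index = p ^ k)
    (φ : G ≃* G) (hφ : Continuous φ) (hinv : ∀ x, φ (φ x) = x)
    (U : Subgroup G) (hU : IsOpen (U : Set G)) (x : G) (hx : x⁻¹ * φ x ∈ U) :
    ∃ y, φ y = y ∧ x⁻¹ * y ∈ U := by
  classical
  set u := x⁻¹ * φ x with hu
  have hφu : φ u = u⁻¹ := by
    rw [hu, map_mul, map_inv, hinv]
    group
  have hodd : ∀ n : ℕ, ∃ m, p ^ n + 1 = m + m := by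
    intro n
    have : Odd (p ^ n) := (hp.odd_of_ne_two (by omega)).pow
    exact (this.add_one)
  choose m hm using hodd
  let f : ℕ → G := fun n => u ^ (m n)
  let F : Ultrafilter G := (hyperfilter ℕ).map f
  have hlim : (F : Filter G) ≤ 𝓝 F.lim := F.le_nhds_lim
  set v := F.lim with hv
  have ht : Tendsto f (hyperfilter ℕ) (𝓝 v) := hlim
  have hlt : Tendsto (fun n : ℕ => u ^ (p ^ n)) atTop (𝓝 1) := by
    rw [tendsto_def]
    intro O hO
    obtain ⟨O', hO', hopen, h1⟩ := mem_nhds_iff.mp hO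
    obtain ⟨H, hH⟩ := ProfiniteGrp.exist_openNormalSubgroup_sub_open_nhds_of_one hopen h1
    obtain ⟨k, hk⟩ := hpro H.toSubgroup H.isOpen' inferInstance
    rw [mem_atTop_sets]
    refine ⟨k, fun n hn => hO' (hH ?_)⟩
    obtain ⟨l, rfl⟩ := Nat.exists_eq_add_of_le hn
    have h3 : u ^ (p ^ k) ∈ H.toSubgroup := by
      rw [← hk]
      exact Subgroup.pow_index_mem H.toSubgroup u
    change u ^ p ^ (k + l) ∈ H.toSubgroup
    rw [pow_add, pow_mul]
    exact H.toSubgroup.pow_mem h3 _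
  have hhyp : (hyperfilter ℕ : Filter ℕ) ≤ atTop := Nat.hyperfilter_le_atTop
  have hvv : v * v = u := by
    have e1 : Tendsto (fun n => f n * f n) (hyperfilter ℕ) (𝓝 (v * v)) := ht.mul ht
    have e2 : Tendsto (fun n => f n * f n) (hyperfilter ℕ) (𝓝 (1 * u)) := by
      have : (fun n => f n * f n) = fun n => u ^ (p ^ n) * u := by
        funext n
        change u ^ m n * u ^ m n = _
        rw [← pow_add, ← hm n, pow_succ]
      rw [this]
      exact (hlt.mono_left hhyp).mul_const u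
    rw [one_mul] at e2
    exact tendsto_nhds_unique e1 e2
  have hφv : φ v = v⁻¹ := by
    have e1 : Tendsto (fun n => φ (f n)) (hyperfilter ℕ) (𝓝 (φ v)) :=
      (hφ.tendsto v).comp ht
    have e2 : Tendsto (fun n => φ (f n)) (hyperfilter ℕ) (𝓝 v⁻¹) := by
      have : (fun n => φ (f n)) = fun n => (f n)⁻¹ := by
        funext n
        change φ (u ^ m n) = (u ^ m n)⁻¹
        rw [map_pow, hφu, inv_pow]
      rw [this]
      exact ht.inv
    exact tendsto_nhds_unique e1 e2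
  have hvU : v ∈ U := by
    have hcl : IsClosed (U : Set G) := Subgroup.isClosed_of_isOpen U hU
    exact hcl.mem_of_tendsto ht (Eventually.of_forall fun n => U.pow_mem hx _)
  refine ⟨x * v, ?_, by simpa using hvU⟩
  have h4 : φ x = x * (v * v) := by
    rw [hvv, hu]; group
  rw [map_mul, hφv, h4]
  group

theorem exists_NN (p : ℕ) (hp : p.Prime) (h2 : 2 < p)
    (G : Type) [Group G] [TopologicalSpace G] [IsTopologicalGroup G] [CompactSpace G]
    [T2Space G] [TotallyDisconnectedSpace G]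
    (hpro : ∀ U : Subgroup G, IsOpen (U : Set G) → U.Normal → ∃ k : ℕ, U.index = p ^ k)
    (φ : G ≃* G) (hφ : Continuous φ) (hinv : ∀ x, φ (φ x) = x)
    (hcomm : ∀ a b : G, φ a = a → φ b = b → a * b = b * a)
    (g : Fin 2 → G) (U : Subgroup G) (hU : IsOpen (U : Set G)) (hUn : U.Normal) :
    ∃ M, NN p M ∧ M ≤ U.comap (FreeGroup.lift g) := by
  classical
  let V : Subgroup G := U ⊓ U.comap φ.toMonoidHom
  have hVopen : IsOpen (V : Set G) := by
    refine hU.inter ?_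
    exact hU.preimage hφ
  have hVn : V.Normal := by
    have : (U.comap φ.toMonoidHom).Normal := hUn.comap _
    exact Subgroup.normal_inf_normal _ _
  have hVφ : ∀ x, x ∈ V → φ x ∈ V := by
    intro x hx
    refine ⟨hx.2, ?_⟩
    change φ (φ x) ∈ U
    rw [hinv]
    exact hx.1
  have hfin : Finite (G ⧸ V) := V.quotient_finite_of_isOpen hVopen
  obtain ⟨k, hk⟩ := hpro V hVopen hVn
  have hpg : IsPGroup p (G ⧸ V) := by
    apply IsPGroup.of_card (n := k)
    rw [← Subgroup.index_eq_card, hk]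
  let ψ : G ⧸ V →* G ⧸ V := QuotientGroup.map V V φ.toMonoidHom (fun x hx => hVφ x hx)
  have hψ : ∀ x : G, ψ (QuotientGroup.mk x) = QuotientGroup.mk (φ x) := fun x => rfl
  have hψψ : ∀ x, ψ (ψ x) = x := by
    intro x
    obtain ⟨x, rfl⟩ := QuotientGroup.mk_surjective x
    rw [hψ, hψ, hinv]
  let Ψ : G ⧸ V ≃* G ⧸ V := MonoidHom.toMulEquiv ψ ψ (MonoidHom.ext hψψ) (MonoidHom.ext hψψ)
  have hlift : ∀ a : G ⧸ V, ψ a = a → ∃ y : G, φ y = y ∧ QuotientGroup.mk y = a := by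
    intro a ha
    obtain ⟨x, rfl⟩ := QuotientGroup.mk_surjective a
    rw [hψ] at ha
    have hx : x⁻¹ * φ x ∈ V := QuotientGroup.eq.mp ha.symm
    obtain ⟨y, hy, hxy⟩ := exists_fixed p hp h2 G hpro φ hφ hinv V hVopen x hx
    exact ⟨y, hy, (QuotientGroup.eq.mpr hxy).symm⟩
  refine ⟨((QuotientGroup.mk' V).comp (FreeGroup.lift g)).ker,
    ⟨G ⧸ V, inferInstance, hfin, hpg, Ψ, hψψ, ?_, _, rfl⟩, ?_⟩
  · intro a b ha hb
    obtain ⟨a', ha', rfl⟩ := hlift a ha
    obtain ⟨b', hb', rfl⟩ := hlift b hb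
    have := hcomm a' b' ha' hb'
    exact congrArg (QuotientGroup.mk : G → G ⧸ V) this
  · intro x hx
    rw [MonoidHom.mem_ker, MonoidHom.comp_apply] at hx
    have h3 : FreeGroup.lift g x ∈ V := (QuotientGroup.eq_one_iff _).mp hx
    exact h3.1

/-- The frozen statement `S00651` follows from the finite statement. -/
theorem frozen_of_finite (p : ℕ) (hp : p.Prime) (h2 : 2 < p) (hfin : FiniteStatement p) :
  ∀ (G : Type) [Group G] [TopologicalSpace G] [IsTopologicalGroup G] [CompactSpace G]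
    [T2Space G] [TotallyDisconnectedSpace G],
  (∀ U : Subgroup G, IsOpen (U : Set G) → U.Normal → ∃ k : ℕ, U.index = p ^ k) →
  ∀ φ : G ≃* G, Continuous φ → (∀ x, φ (φ x) = x) → (∃ x, φ x ≠ x) →
  (∀ a b : G, φ a = a → φ b = b → a * b = b * a) →
  ∃ (n : ℕ) (W : Subgroup (FreeGroup (Fin n)) → FreeGroup (Fin n)),
    (∀ N M : Subgroup (FreeGroup (Fin n)), N.Normal → M.Normal →
      (∃ k : ℕ, N.index = p ^ k) → (∃ k : ℕ, M.index = p ^ k) → N ≤ M →
      W N * (W M)⁻¹ ∈ M) ∧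
    (∃ N : Subgroup (FreeGroup (Fin n)), N.Normal ∧ (∃ k : ℕ, N.index = p ^ k) ∧ W N ∉ N) ∧
    (∀ (g : Fin n → G) (U : Subgroup G), IsOpen (U : Set G) → U.Normal →
      FreeGroup.lift g (W (U.comap (FreeGroup.lift g))) ∈ U) := by
  classical
  intro G _ _ _ _ _ _ hpro φ hφ hinv _ hcomm
  obtain ⟨N₀, hN₀n, hN₀i, hN₀⟩ := hfin
  have hNN : ∀ M, NN p M → ¬ M ≤ N₀ := by
    rintro M ⟨P, iP, fP, hP, φ, h2, hc, θ, rfl⟩
    exact hN₀ P hP φ h2 hc θ
  -- the ultrafilter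
  let A : {M // NN p M} → Set (FreeGroup (Fin 2)) := fun M => (M.1 : Set _) \ (N₀ : Set _)
  let 𝓕 : Filter (FreeGroup (Fin 2)) := ⨅ M : {M // NN p M}, 𝓟 (A M)
  have hdir : Directed (· ≥ ·) fun M : {M // NN p M} => 𝓟 (A M) := by
    rintro ⟨M, hM⟩ ⟨M', hM'⟩
    refine ⟨⟨M ⊓ M', NN_inf p hM hM'⟩, ?_, ?_⟩
    · apply principal_mono.mpr
      exact Set.sdiff_subset_sdiff_left (by
        intro x hx
        exact hx.1)
    · apply principal_mono.mpr
      exact Set.sdiff_subset_sdiff_left (by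
        intro x hx
        exact hx.2)
  have : Nonempty {M // NN p M} := ⟨⟨⊤, NN_top p⟩⟩
  have hne : 𝓕.NeBot := by
    apply iInf_neBot_of_directed hdir
    rintro ⟨M, hM⟩
    rw [principal_neBot_iff]
    exact Set.sdiff_nonempty.mpr (hNN M hM)
  let 𝓤 : Ultrafilter (FreeGroup (Fin 2)) := Ultrafilter.of 𝓕
  have h𝓤 : (𝓤 : Filter _) ≤ 𝓕 := Ultrafilter.of_le 𝓕
  have hmem : ∀ M, NN p M → ∀ᶠ x in (𝓤 : Filter (FreeGroup (Fin 2))), x ∈ M ∧ x ∉ N₀ := by
    intro M hM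
    have : A ⟨M, hM⟩ ∈ 𝓕 := mem_iInf_of_mem (⟨M, hM⟩ : {M // NN p M}) (mem_principal_self _)
    exact h𝓤 this
  -- existence of limit classes
  have hex : ∀ N : Subgroup (FreeGroup (Fin 2)), N.Normal → (∃ k : ℕ, N.index = p ^ k) →
      ∃ w, ∀ᶠ x in (𝓤 : Filter (FreeGroup (Fin 2))), w * x⁻¹ ∈ N := by
    intro N hN ⟨k, hk⟩
    have hi : N.index ≠ 0 := by
      rw [hk]
      exact pow_ne_zero _ hp.ne_zero
    have hfi : N.FiniteIndex := ⟨hi⟩
    have hf : Finite (FreeGroup (Fin 2) ⧸ N) := inferInstance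
    obtain ⟨c, hc⟩ : ∃ c, ∀ᶠ x in (𝓤 : Filter (FreeGroup (Fin 2))),
        (QuotientGroup.mk x : FreeGroup (Fin 2) ⧸ N) = c := by
      by_contra hcon
      push Not at hcon
      have h1 : ∀ c, ∀ᶠ x in (𝓤 : Filter (FreeGroup (Fin 2))),
          (QuotientGroup.mk x : FreeGroup (Fin 2) ⧸ N) ≠ c := by
        intro c
        exact hcon c
      have h2 := (eventually_all (l := (𝓤 : Filter (FreeGroup (Fin 2))))).mpr h1
      obtain ⟨x, hx⟩ := h2.exists
      exact hx _ rfl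
    obtain ⟨w, rfl⟩ := QuotientGroup.mk_surjective c
    refine ⟨w, hc.mono fun x hx => ?_⟩
    have h5 : w⁻¹ * x ∈ N := QuotientGroup.eq.mp hx.symm
    have h6 := hN.mem_comm h5
    have h7 := N.inv_mem h6
    simpa using h7
  let W : Subgroup (FreeGroup (Fin 2)) → FreeGroup (Fin 2) := fun N =>
    if h : ∃ w, ∀ᶠ x in (𝓤 : Filter (FreeGroup (Fin 2))), w * x⁻¹ ∈ N then h.choose else 1
  have hW : ∀ N : Subgroup (FreeGroup (Fin 2)), N.Normal → (∃ k : ℕ, N.index = p ^ k) →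
      ∀ᶠ x in (𝓤 : Filter (FreeGroup (Fin 2))), W N * x⁻¹ ∈ N := by
    intro N hN hk
    have h := hex N hN hk
    have : W N = h.choose := dif_pos h
    rw [this]
    exact h.choose_spec
  refine ⟨2, W, ?_, ⟨N₀, hN₀n, hN₀i, ?_⟩, ?_⟩
  · intro N M hN hM hNk hMk hNM
    obtain ⟨x, hx1, hx2⟩ := ((hW N hN hNk).and (hW M hM hMk)).exists
    have := M.mul_mem (hNM hx1) (M.inv_mem hx2)
    simpa using this
  · intro hcon
    obtain ⟨x, hx1, hx2⟩ := ((hW N₀ hN₀n hN₀i).and (hmem ⊤ (NN_top p))).exists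
    apply hx2.2
    have := N₀.mul_mem (N₀.inv_mem hcon) hx1
    rw [inv_mul_cancel_left] at this
    simpa using this
  · intro g U hU hUn
    obtain ⟨M, hM, hMU⟩ := exists_NN p hp h2 G hpro φ hφ hinv hcomm g U hU hUn
    have hn : (U.comap (FreeGroup.lift g)).Normal := hUn.comap _
    have hidx : ∃ k : ℕ, (U.comap (FreeGroup.lift g)).index = p ^ k := by
      obtain ⟨k, hk⟩ := hpro U hU hUn
      have hd : (U.comap (FreeGroup.lift g)).index ∣ p ^ k := by
        rw [← hk, Subgroup.index_comap]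
        exact Subgroup.relIndex_dvd_index_of_normal _ _
      obtain ⟨l, _, hl⟩ := (Nat.dvd_prime_pow hp).mp hd
      exact ⟨l, hl⟩
    obtain ⟨x, hx1, hx2⟩ := ((hW _ hn hidx).and (hmem M hM)).exists
    have h3 := (U.comap (FreeGroup.lift g)).mul_mem hx1 (hMU hx2.1)
    rw [inv_mul_cancel_right] at h3
    exact h3

end Pool.Agent.Helper89.Inv
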