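import Mathlib

set_option autoImplicit false

open Finset

namespace Pool.Agent.H89CRW

/-- Sperner's theorem for families of subsets of a finite set. -/
lemma sperner_on {ι : Type*} [DecidableEq ι] (Q : Finset ι) (𝒜 : Finset (Finset ι))
    (h𝒜 : ∀ A ∈ 𝒜, A ⊆ Q) (hanti : ∀ A ∈ 𝒜, ∀ B ∈ 𝒜, A ⊆ B → A = B) :
    𝒜.card ≤ Q.card.choose (Q.card / 2) := by
  classical
  let f : Finset ι → Finset {x // x ∈ Q} := fun A => A.subtype (· ∈ Q)
  have hf : ∀ A B : Finset ι, A ⊆ Q → (f A ⊆ f B → A ⊆ B) := by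
    intro A B hA h x hx
    have h1 : (⟨x, hA hx⟩ : {x // x ∈ Q}) ∈ f A := by
      simp only [f, Finset.mem_subtype]; exact hx
    have h2 := h h1
    simp only [f, Finset.mem_subtype] at h2
    exact h2
  have hinj : Set.InjOn f (𝒜 : Set (Finset ι)) := by
    intro A hA B hB hAB
    exact Finset.Subset.antisymm (hf A B (h𝒜 A hA) hAB.subset) (hf B A (h𝒜 B hB) hAB.superset)
  have h1 : (𝒜.image f).card = 𝒜.card := Finset.card_image_of_injOn hinj
  have h2 : IsAntichain (· ⊆ ·) (SetLike.coe (𝒜.image f)) := by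
    intro X hX Y hY hne hXY
    rw [SetLike.mem_coe, Finset.mem_image] at hX hY
    obtain ⟨A, hA, rfl⟩ := hX
    obtain ⟨B, hB, rfl⟩ := hY
    exact hne (congrArg f (hanti A hA B hB (hf A B (h𝒜 A hA) hXY)))
  have h3 := h2.sperner
  rw [h1, Fintype.card_coe] at h3
  exact h3

/-- One window of width `L`. -/
lemma lo_one {ι : Type*} [DecidableEq ι] (I Q : Finset ι) (hQ : Q ⊆ I) (w : ι → ℕ) (L : ℕ)
    (hL : ∀ r ∈ Q, L ≤ w r) (x : ℕ) :
    (I.powerset.filter (fun A => x ≤ ∑ r ∈ A, w r ∧ ∑ r ∈ A, w r < x + L)).card ≤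
      Q.card.choose (Q.card / 2) * 2 ^ (I \ Q).card := by
  set 𝓕 := I.powerset.filter (fun A => x ≤ ∑ r ∈ A, w r ∧ ∑ r ∈ A, w r < x + L) with h𝓕
  have hmem : ∀ A, A ∈ 𝓕 ↔ A ⊆ I ∧ x ≤ ∑ r ∈ A, w r ∧ ∑ r ∈ A, w r < x + L := by
    intro A; rw [h𝓕, Finset.mem_filter, Finset.mem_powerset]
  have h1 : 𝓕.card ≤ Q.card.choose (Q.card / 2) * (𝓕.image (fun A => A \ Q)).card := by
    apply Finset.card_le_mul_card_image
    intro B _
    set 𝓖 := 𝓕.filter (fun A => A \ Q = B) with h𝓖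
    have hG : ∀ A, A ∈ 𝓖 ↔ A ∈ 𝓕 ∧ A \ Q = B := by
      intro A; rw [h𝓖, Finset.mem_filter]
    have hdecomp : ∀ A ∈ 𝓖, A = (A ∩ Q) ∪ B := by
      intro A hA
      rw [← ((hG A).1 hA).2]
      ext x
      simp only [Finset.mem_union, Finset.mem_inter, Finset.mem_sdiff]
      tauto
    have hinj : Set.InjOn (fun A : Finset ι => A ∩ Q) (𝓖 : Set (Finset ι)) := by
      intro A hA A' hA' h
      rw [hdecomp A hA, hdecomp A' hA']
      exact congrArg (· ∪ B) h
    have hsum : ∀ A ∈ 𝓖, ∑ r ∈ A, w r = ∑ r ∈ A ∩ Q, w r + ∑ r ∈ B, w r := by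
      intro A hA
      rw [← ((hG A).1 hA).2]
      exact (Finset.sum_inter_add_sum_sdiff A Q w).symm
    rw [← Finset.card_image_of_injOn hinj]
    apply sperner_on Q
    · intro A hA
      rw [Finset.mem_image] at hA
      obtain ⟨A, _, rfl⟩ := hA
      exact Finset.inter_subset_right
    · intro X hX Y hY hXY
      rw [Finset.mem_image] at hX hY
      obtain ⟨A, hA, rfl⟩ := hX
      obtain ⟨A', hA', rfl⟩ := hY
      by_contra hne
      have hss : A ∩ Q ⊂ A' ∩ Q := Finset.ssubset_iff_subset_ne.2 ⟨hXY, hne⟩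
      obtain ⟨r, hr, hr'⟩ := Finset.exists_of_ssubset hss
      have h3 : ∑ r ∈ A ∩ Q, w r + w r ≤ ∑ r ∈ A' ∩ Q, w r := by
        rw [add_comm, ← Finset.sum_insert hr']
        apply Finset.sum_le_sum_of_subset
        intro y hy
        rw [Finset.mem_insert] at hy
        rcases hy with rfl | hy
        · exact hr
        · exact hXY hy
      have h4 := hL r (Finset.mem_inter.1 hr).2
      have h5 := (hmem A).1 ((hG A).1 hA).1
      have h6 := (hmem A').1 ((hG A').1 hA').1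
      have h7 := hsum A hA
      have h8 := hsum A' hA'
      omega
  refine h1.trans (Nat.mul_le_mul_left _ ?_)
  rw [← Finset.card_powerset]
  apply Finset.card_le_card
  intro B hB
  rw [Finset.mem_image] at hB
  obtain ⟨A, hA, rfl⟩ := hB
  rw [Finset.mem_powerset]
  exact Finset.sdiff_subset_sdiff ((hmem A).1 hA).1 (Finset.Subset.refl _)

/-- `k` windows. -/
lemma lo_many {ι : Type*} [DecidableEq ι] (I Q : Finset ι) (hQ : Q ⊆ I) (w : ι → ℕ) (L : ℕ)
    (hL : ∀ r ∈ Q, L ≤ w r) (k x : ℕ) :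
    (I.powerset.filter (fun A => x ≤ ∑ r ∈ A, w r ∧ ∑ r ∈ A, w r < x + k * L)).card ≤
      k * (Q.card.choose (Q.card / 2) * 2 ^ (I \ Q).card) := by
  induction k with
  | zero =>
    have : I.powerset.filter (fun A => x ≤ ∑ r ∈ A, w r ∧ ∑ r ∈ A, w r < x + 0 * L) = ∅ := by
      rw [Finset.filter_eq_empty_iff]
      intro A _ h
      omega
    rw [this]; simp
  | succ k ih =>
    have h1 := lo_one I Q hQ w L hL (x + k * L)
    have h2 : I.powerset.filter (fun A => x ≤ ∑ r ∈ A, w r ∧ ∑ r ∈ A, w r < x + (k + 1) * L) ⊆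
        I.powerset.filter (fun A => x ≤ ∑ r ∈ A, w r ∧ ∑ r ∈ A, w r < x + k * L) ∪
        I.powerset.filter (fun A => x + k * L ≤ ∑ r ∈ A, w r ∧
          ∑ r ∈ A, w r < x + k * L + L) := by
      intro A hA
      rw [Finset.mem_filter] at hA
      rw [Finset.mem_union, Finset.mem_filter, Finset.mem_filter]
      obtain ⟨hA1, hA2, hA3⟩ := hA
      rw [add_mul, one_mul] at hA3
      by_cases h : ∑ r ∈ A, w r < x + k * L
      · exact Or.inl ⟨hA1, hA2, h⟩
      · exact Or.inr ⟨hA1, by omega, by omega⟩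
    calc _ ≤ _ := Finset.card_le_card h2
      _ ≤ _ := Finset.card_union_le _ _
      _ ≤ k * (Q.card.choose (Q.card / 2) * 2 ^ (I \ Q).card) +
          Q.card.choose (Q.card / 2) * 2 ^ (I \ Q).card := by omega
      _ = _ := by ring

/-- Distinct weights: few subsets have a prescribed sum. -/
lemma distinct_count {ι : Type*} [DecidableEq ι] (I D : Finset ι) (hD : D ⊆ I) (w : ι → ℕ)
    (hinj : Set.InjOn w (D : Set ι)) (x : ℕ) :
    (I.powerset.filter (fun A => ∑ r ∈ A, w r = x)).card * D.card ≤ 2 * 2 ^ I.card := by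
  set 𝓕 := I.powerset.filter (fun A => ∑ r ∈ A, w r = x) with h𝓕
  have hmem : ∀ A, A ∈ 𝓕 ↔ A ⊆ I ∧ ∑ r ∈ A, w r = x := by
    intro A; rw [h𝓕, Finset.mem_filter, Finset.mem_powerset]
  have h1 : ∑ A ∈ 𝓕, (D \ A).card ≤ 2 ^ I.card := by
    rw [← Finset.card_sigma, ← Finset.card_powerset]
    apply Finset.card_le_card_of_injOn (fun p => insert p.2 p.1)
    · rintro ⟨A, r⟩ hp
      rw [Finset.mem_coe, Finset.mem_sigma] at hp
      rw [Finset.mem_coe, Finset.mem_powerset]
      intro y hy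
      rw [Finset.mem_insert] at hy
      rcases hy with rfl | hy
      · exact hD (Finset.mem_sdiff.1 hp.2).1
      · exact ((hmem A).1 hp.1).1 hy
    · rintro ⟨A, r⟩ hp ⟨A', r'⟩ hp' h
      rw [Finset.mem_coe, Finset.mem_sigma] at hp hp'
      simp only at h hp hp'
      have hr := Finset.mem_sdiff.1 hp.2
      have hr' := Finset.mem_sdiff.1 hp'.2
      have hs : ∑ r ∈ insert r A, w r = ∑ r ∈ insert r' A', w r := by rw [h]
      rw [Finset.sum_insert hr.2, Finset.sum_insert hr'.2, ((hmem A).1 hp.1).2,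
        ((hmem A').1 hp'.1).2] at hs
      have hrr : r = r' := hinj hr.1 hr'.1 (by omega)
      subst hrr
      have hAA : A = A' := by
        rw [← Finset.erase_insert hr.2, h, Finset.erase_insert hr'.2]
      subst hAA
      rfl
  have h2 : ∑ A ∈ 𝓕, (D ∩ A).card ≤ 2 ^ I.card := by
    rw [← Finset.card_sigma, ← Finset.card_powerset]
    apply Finset.card_le_card_of_injOn (fun p => p.1.erase p.2)
    · rintro ⟨A, r⟩ hp
      rw [Finset.mem_coe, Finset.mem_sigma] at hp
      rw [Finset.mem_coe, Finset.mem_powerset]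
      exact (Finset.erase_subset _ _).trans ((hmem A).1 hp.1).1
    · rintro ⟨A, r⟩ hp ⟨A', r'⟩ hp' h
      rw [Finset.mem_coe, Finset.mem_sigma] at hp hp'
      simp only at h hp hp'
      have hr := Finset.mem_inter.1 hp.2
      have hr' := Finset.mem_inter.1 hp'.2
      have hs : ∑ r ∈ A.erase r, w r = ∑ r ∈ A'.erase r', w r := by rw [h]
      have e1 := Finset.add_sum_erase A w hr.2
      have e2 := Finset.add_sum_erase A' w hr'.2
      rw [((hmem A).1 hp.1).2] at e1
      rw [((hmem A').1 hp'.1).2] at e2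
      have hrr : r = r' := hinj hr.1 hr'.1 (by omega)
      subst hrr
      have hAA : A = A' := by
        rw [← Finset.insert_erase hr.2, h, Finset.insert_erase hr'.2]
      subst hAA
      rfl
  have h3 : ∀ A, D.card = (D \ A).card + (D ∩ A).card := fun A =>
    (Finset.card_sdiff_add_card_inter D A).symm
  calc 𝓕.card * D.card = ∑ A ∈ 𝓕, ((D \ A).card + (D ∩ A).card) := by
        rw [Finset.sum_congr rfl (fun A _ => (h3 A).symm), Finset.sum_const, smul_eq_mul]
    _ = ∑ A ∈ 𝓕, (D \ A).card + ∑ A ∈ 𝓕, (D ∩ A).card := Finset.sum_add_distrib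
    _ ≤ 2 * 2 ^ I.card := by omega

lemma centralBinom_sq (k : ℕ) : (Nat.centralBinom k) ^ 2 * (2 * k + 1) ≤ 16 ^ k := by
  induction k with
  | zero => simp
  | succ k ih =>
    have h := Nat.succ_mul_centralBinom_succ k
    have hk : 0 < (k + 1) ^ 2 := by positivity
    apply Nat.le_of_mul_le_mul_left _ hk
    calc (k + 1) ^ 2 * ((Nat.centralBinom (k + 1)) ^ 2 * (2 * (k + 1) + 1))
        = ((k + 1) * Nat.centralBinom (k + 1)) ^ 2 * (2 * k + 3) := by ring
      _ = (2 * (2 * k + 1) * Nat.centralBinom k) ^ 2 * (2 * k + 3) := by rw [h]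
      _ = (4 * (2 * k + 1) * (2 * k + 3)) * ((Nat.centralBinom k) ^ 2 * (2 * k + 1)) := by ring
      _ ≤ (4 * (2 * k + 1) * (2 * k + 3)) * 16 ^ k := Nat.mul_le_mul_left _ ih
      _ ≤ (16 * (k + 1) ^ 2) * 16 ^ k := Nat.mul_le_mul_right _ (by nlinarith)
      _ = _ := by ring

lemma choose_half_sq (n : ℕ) : (n.choose (n / 2)) ^ 2 * (n + 1) ≤ 4 ^ n := by
  rcases Nat.even_or_odd' n with ⟨k, rfl | rfl⟩
  · have h := centralBinom_sq k
    rw [Nat.centralBinom_eq_two_mul_choose] at h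
    rw [Nat.mul_div_cancel_left k (by norm_num), pow_mul]
    norm_num
    exact h
  · have h := centralBinom_sq (k + 1)
    rw [Nat.centralBinom_eq_two_mul_choose] at h
    have h1 : (2 * k + 1) / 2 = k := by omega
    have h2 : (2 * (k + 1)).choose (k + 1) = 2 * (2 * k + 1).choose k := by
      rw [show 2 * (k + 1) = (2 * k + 1) + 1 by ring, Nat.choose_succ_succ]
      have : (2 * k + 1).choose (k + 1) = (2 * k + 1).choose k :=
        (Nat.choose_symm_half k)
      rw [Nat.succ_eq_add_one, this]; ring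
    rw [h2] at h
    rw [h1]
    have h3 : (4 : ℕ) ^ (2 * k + 1) = 4 * 16 ^ k := by
      rw [pow_succ, pow_mul]; norm_num; ring
    rw [h3]
    have h4 : (16 : ℕ) ^ (k + 1) = 16 * 16 ^ k := by ring
    rw [h4] at h
    nlinarith [Nat.zero_le ((2 * k + 1).choose k ^ 2)]

end Pool.Agent.H89CRW
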