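import Pool.Agent.Helper89.CRW9

set_option autoImplicit false

open MeasureTheory Filter ProbabilityTheory

namespace Pool.Agent.H89CRW

/-! ### Operators on functions of a lattice point of the plane -/

/-- one run of length `l`, killed when it meets the origin -/
noncomputable def kstep (l : ℕ) (f : ℤ → ℤ → ℝ) (x y : ℤ) : ℝ :=
  ((if y = 0 ∧ x < 0 ∧ 0 ≤ x + l then 0 else f (x + l) y) +
    (if y = 0 ∧ 0 < x ∧ x - l ≤ 0 then 0 else f (x - l) y) +
    (if x = 0 ∧ y < 0 ∧ 0 ≤ y + l then 0 else f x (y + l)) +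
    (if x = 0 ∧ 0 < y ∧ y - l ≤ 0 then 0 else f x (y - l))) / 4

/-- one run of length `l` -/
noncomputable def astep (l : ℕ) (f : ℤ → ℤ → ℝ) (x y : ℤ) : ℝ :=
  (f (x + l) y + f (x - l) y + f x (y + l) + f x (y - l)) / 4

noncomputable def kil (ls : List ℕ) (f : ℤ → ℤ → ℝ) : ℤ → ℤ → ℝ := ls.foldr kstep f

noncomputable def avl (ls : List ℕ) (f : ℤ → ℤ → ℝ) : ℤ → ℤ → ℝ := ls.foldr astep f

lemma kil_cons (l : ℕ) (ls : List ℕ) (f : ℤ → ℤ → ℝ) : kil (l :: ls) f = kstep l (kil ls f) := rfl
lemma avl_cons (l : ℕ) (ls : List ℕ) (f : ℤ → ℤ → ℝ) : avl (l :: ls) f = astep l (avl ls f) := rfl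
lemma kil_append (l1 l2 : List ℕ) (f : ℤ → ℤ → ℝ) : kil (l1 ++ l2) f = kil l1 (kil l2 f) := by
  unfold kil; rw [List.foldr_append]
lemma avl_append (l1 l2 : List ℕ) (f : ℤ → ℤ → ℝ) : avl (l1 ++ l2) f = avl l1 (avl l2 f) := by
  unfold avl; rw [List.foldr_append]

lemma kstep_mono (l : ℕ) {f g : ℤ → ℤ → ℝ} (h : ∀ x y, f x y ≤ g x y) (x y : ℤ) :
    kstep l f x y ≤ kstep l g x y := by
  unfold kstep
  have h1 := h (x + l) y
  have h2 := h (x - l) y
  have h3 := h x (y + l)
  have h4 := h x (y - l)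
  split_ifs <;> linarith

lemma kil_mono (ls : List ℕ) {f g : ℤ → ℤ → ℝ} (h : ∀ x y, f x y ≤ g x y) (x y : ℤ) :
    kil ls f x y ≤ kil ls g x y := by
  induction ls generalizing x y with
  | nil => exact h x y
  | cons l ls ih => exact kstep_mono l ih x y

lemma kstep_nonneg (l : ℕ) {f : ℤ → ℤ → ℝ} (h : ∀ x y, 0 ≤ f x y) (x y : ℤ) :
    0 ≤ kstep l f x y := by
  unfold kstep
  have h1 := h (x + l) y
  have h2 := h (x - l) y
  have h3 := h x (y + l)
  have h4 := h x (y - l)
  split_ifs <;> linarith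

lemma kil_nonneg (ls : List ℕ) {f : ℤ → ℤ → ℝ} (h : ∀ x y, 0 ≤ f x y) (x y : ℤ) :
    0 ≤ kil ls f x y := by
  induction ls generalizing x y with
  | nil => exact h x y
  | cons l ls ih => exact kstep_nonneg l ih x y

lemma kstep_le_astep (l : ℕ) {f : ℤ → ℤ → ℝ} (h : ∀ x y, 0 ≤ f x y) (x y : ℤ) :
    kstep l f x y ≤ astep l f x y := by
  unfold kstep astep
  have h1 := h (x + l) y
  have h2 := h (x - l) y
  have h3 := h x (y + l)
  have h4 := h x (y - l)
  split_ifs <;> linarith

lemma astep_mono (l : ℕ) {f g : ℤ → ℤ → ℝ} (h : ∀ x y, f x y ≤ g x y) (x y : ℤ) :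
    astep l f x y ≤ astep l g x y := by
  unfold astep
  have h1 := h (x + l) y
  have h2 := h (x - l) y
  have h3 := h x (y + l)
  have h4 := h x (y - l)
  linarith

lemma avl_mono (ls : List ℕ) {f g : ℤ → ℤ → ℝ} (h : ∀ x y, f x y ≤ g x y) (x y : ℤ) :
    avl ls f x y ≤ avl ls g x y := by
  induction ls generalizing x y with
  | nil => exact h x y
  | cons l ls ih => exact astep_mono l ih x y

lemma kil_le_avl (ls : List ℕ) {f : ℤ → ℤ → ℝ} (h : ∀ x y, 0 ≤ f x y) (x y : ℤ) :
    kil ls f x y ≤ avl ls f x y := by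
  induction ls generalizing x y with
  | nil => exact le_rfl
  | cons l ls ih =>
    rw [kil_cons, avl_cons]
    exact (kstep_le_astep l (fun a b => kil_nonneg ls h a b) x y).trans (astep_mono l ih x y)

lemma kstep_lin (l : ℕ) (a b : ℝ) (f g : ℤ → ℤ → ℝ) (x y : ℤ) :
    kstep l (fun x y => a * f x y + b * g x y) x y = a * kstep l f x y + b * kstep l g x y := by
  unfold kstep
  split_ifs <;> ring

lemma kil_lin (ls : List ℕ) (a b : ℝ) (f g : ℤ → ℤ → ℝ) (x y : ℤ) :
    kil ls (fun x y => a * f x y + b * g x y) x y = a * kil ls f x y + b * kil ls g x y := by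
  induction ls generalizing x y with
  | nil => rfl
  | cons l ls ih =>
    rw [kil_cons, kil_cons, kil_cons, ← kstep_lin]
    have : kil ls (fun x y => a * f x y + b * g x y) =
        fun x y => a * kil ls f x y + b * kil ls g x y := by
      funext x y; exact ih x y
    rw [this]

lemma astep_lin (l : ℕ) (a b : ℝ) (f g : ℤ → ℤ → ℝ) (x y : ℤ) :
    astep l (fun x y => a * f x y + b * g x y) x y = a * astep l f x y + b * astep l g x y := by
  unfold astep
  ring

lemma avl_lin (ls : List ℕ) (a b : ℝ) (f g : ℤ → ℤ → ℝ) (x y : ℤ) :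
    avl ls (fun x y => a * f x y + b * g x y) x y = a * avl ls f x y + b * avl ls g x y := by
  induction ls generalizing x y with
  | nil => rfl
  | cons l ls ih =>
    rw [avl_cons, avl_cons, avl_cons, ← astep_lin]
    have : avl ls (fun x y => a * f x y + b * g x y) =
        fun x y => a * avl ls f x y + b * avl ls g x y := by
      funext x y; exact ih x y
    rw [this]

lemma avl_one (ls : List ℕ) (x y : ℤ) : avl ls (fun _ _ => 1) x y = 1 := by
  induction ls generalizing x y with
  | nil => rfl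
  | cons l ls ih =>
    rw [avl_cons]
    unfold astep
    rw [ih, ih, ih, ih]; norm_num

lemma kil_one_le (ls : List ℕ) (x y : ℤ) : kil ls (fun _ _ => 1) x y ≤ 1 :=
  (kil_le_avl ls (fun _ _ => zero_le_one) x y).trans (avl_one ls x y).le

/-- second moment -/
lemma avl_sq (ls : List ℕ) (x y : ℤ) :
    avl ls (fun x y => (x : ℝ) ^ 2 + (y : ℝ) ^ 2) x y =
      (x : ℝ) ^ 2 + (y : ℝ) ^ 2 + (ls.map (fun l : ℕ => (l : ℝ) ^ 2)).sum := by
  induction ls generalizing x y with
  | nil => simp [avl]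
  | cons l ls ih =>
    rw [avl_cons]
    unfold astep
    rw [ih, ih, ih, ih, List.map_cons, List.sum_cons]
    push_cast
    ring

/-- localised monotonicity -/
lemma avl_mono_box (ls : List ℕ) {f g : ℤ → ℤ → ℝ} (x y : ℤ)
    (h : ∀ x' y', |x' - x| ≤ (ls.sum : ℤ) → |y' - y| ≤ (ls.sum : ℤ) → f x' y' ≤ g x' y') :
    avl ls f x y ≤ avl ls g x y := by
  induction ls generalizing x y with
  | nil => exact h x y (by simp) (by simp)
  | cons l ls ih =>
    rw [avl_cons, avl_cons]
    unfold astep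
    have hl : (0 : ℤ) ≤ l := Int.natCast_nonneg l
    have hs : ((l :: ls).sum : ℤ) = l + ls.sum := by push_cast [List.sum_cons]; ring
    have h1 := ih (x + l) y (fun x' y' hx hy => h x' y'
      (by rw [hs]; rw [abs_le] at hx ⊢; constructor <;> linarith [hx.1, hx.2])
      (by rw [hs]; rw [abs_le] at hy ⊢; constructor <;> linarith [hy.1, hy.2]))
    have h2 := ih (x - l) y (fun x' y' hx hy => h x' y'
      (by rw [hs]; rw [abs_le] at hx ⊢; constructor <;> linarith [hx.1, hx.2])
      (by rw [hs]; rw [abs_le] at hy ⊢; constructor <;> linarith [hy.1, hy.2]))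
    have h3 := ih x (y + l) (fun x' y' hx hy => h x' y'
      (by rw [hs]; rw [abs_le] at hx ⊢; constructor <;> linarith [hx.1, hx.2])
      (by rw [hs]; rw [abs_le] at hy ⊢; constructor <;> linarith [hy.1, hy.2]))
    have h4 := ih x (y - l) (fun x' y' hx hy => h x' y'
      (by rw [hs]; rw [abs_le] at hx ⊢; constructor <;> linarith [hx.1, hx.2])
      (by rw [hs]; rw [abs_le] at hy ⊢; constructor <;> linarith [hy.1, hy.2]))
    linarith

/-! ### The walk along a list of run lengths -/

/-- the resampling pattern of a list of run lengths -/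
def pat : List ℕ → ℕ → Bool
  | [], _ => true
  | l :: ls, n => if n = 0 then true else if n < l then false else pat ls (n - l)

lemma pat_zero (ls : List ℕ) : pat ls 0 = true := by
  cases ls <;> simp [pat]

lemma pat_cons_add (l : ℕ) (ls : List ℕ) (hl : 1 ≤ l) (n : ℕ) :
    pat (l :: ls) (l + n) = pat ls n := by
  have h1 : l + n ≠ 0 := by omega
  have h2 : ¬ (l + n < l) := by omega
  have h3 : l + n - l = n := by omega
  simp only [pat, h1, h2, h3, if_false]

lemma pat_cons_lt (l : ℕ) (ls : List ℕ) (n : ℕ) (h0 : 0 < n) (h : n < l) :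
    pat (l :: ls) n = false := by
  have h1 : n ≠ 0 := by omega
  simp only [pat, h1, h, if_false, if_true]

/-- the resamplings follow the list of run lengths -/
def Follows (p : ℕ → ℝ) (u : ℕ → unitInterval) (ls : List ℕ) : Prop :=
  ∀ n, 0 < n → n ≤ ls.sum → (((u n : unitInterval) : ℝ) ≤ p n ↔ pat ls n = true)

lemma follows_tail {p : ℕ → ℝ} {u : ℕ → unitInterval} {l : ℕ} {ls : List ℕ} (hl : 1 ≤ l)
    (h : Follows p u (l :: ls)) : Follows (fun n => p (l + n)) (fun n => u (l + n)) ls := by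
  intro n hn hn'
  have := h (l + n) (by omega) (by rw [List.sum_cons]; omega)
  rw [pat_cons_add l ls hl] at this
  exact this

lemma step_shift {d : ℕ} (p : ℕ → ℝ) (u : ℕ → unitInterval) (v : ℕ → Dir d) (s : ℕ)
    (hs : s = 0 ∨ ((u s : unitInterval) : ℝ) ≤ p s) (n : ℕ) :
    step p u v (s + n) = step (fun m => p (s + m)) (fun m => u (s + m)) (fun m => v (s + m)) n := by
  classical
  induction n with
  | zero =>
    show step p u v s = v (s + 0)
    rw [add_zero]
    rcases hs with hs | hs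
    · subst hs; rfl
    · cases s with
      | zero => rfl
      | succ s =>
        show (if _ then _ else _) = _
        rw [if_pos hs]
  | succ n ih =>
    show (if ((u (s + n + 1) : unitInterval) : ℝ) ≤ p (s + n + 1) then v (s + n + 1)
      else step p u v (s + n)) = (if ((u (s + (n + 1)) : unitInterval) : ℝ) ≤ p (s + (n + 1)) then
        v (s + (n + 1)) else step (fun m => p (s + m)) (fun m => u (s + m)) (fun m => v (s + m)) n)
    rw [ih, add_assoc]

lemma pos_shift {d : ℕ} (p : ℕ → ℝ) (u : ℕ → unitInterval) (v : ℕ → Dir d) (s : ℕ)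
    (hs : s = 0 ∨ ((u s : unitInterval) : ℝ) ≤ p s) (n : ℕ) (j : Fin d) :
    pos p u v (s + n) j = pos p u v s j +
      pos (fun m => p (s + m)) (fun m => u (s + m)) (fun m => v (s + m)) n j := by
  unfold pos
  rw [Finset.sum_range_add]
  congr 1
  apply Finset.sum_congr rfl
  intro t _
  rw [step_shift p u v s hs]

lemma step_straight {d : ℕ} (p : ℕ → ℝ) (u : ℕ → unitInterval) (v : ℕ → Dir d) (l : ℕ)
    (h : ∀ n, 0 < n → n < l → ¬ ((u n : unitInterval) : ℝ) ≤ p n) (n : ℕ) (hn : n < l) :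
    step p u v n = v 0 := by
  classical
  induction n with
  | zero => rfl
  | succ n ih =>
    show (if ((u (n + 1) : unitInterval) : ℝ) ≤ p (n + 1) then v (n + 1) else step p u v n) = v 0
    rw [if_neg (h (n + 1) (by omega) hn)]
    exact ih (by omega)

lemma pos_straight {d : ℕ} (p : ℕ → ℝ) (u : ℕ → unitInterval) (v : ℕ → Dir d) (l : ℕ)
    (h : ∀ n, 0 < n → n < l → ¬ ((u n : unitInterval) : ℝ) ≤ p n) (n : ℕ) (hn : n ≤ l)
    (j : Fin d) : pos p u v n j = (n : ℤ) * vec (v 0) j := by
  unfold pos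
  rw [Finset.sum_congr rfl (g := fun _ => vec (v 0) j)]
  · rw [Finset.sum_const, Finset.card_range, nsmul_eq_mul]
  · intro t ht
    rw [Finset.mem_range] at ht
    rw [step_straight p u v l h t (by omega)]

/-- first run of a list -/
lemma pos_first {d : ℕ} {p : ℕ → ℝ} {u : ℕ → unitInterval} {l : ℕ} {ls : List ℕ} (hl : 1 ≤ l)
    (h : Follows p u (l :: ls)) (v : ℕ → Dir d) (j : Fin d) :
    (∀ n, n ≤ l → pos p u v n j = (n : ℤ) * vec (v 0) j) ∧
    (∀ n, pos p u v (l + n) j = (l : ℤ) * vec (v 0) j +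
      pos (fun m => p (l + m)) (fun m => u (l + m)) (fun m => v (l + m)) n j) := by
  have h1 : ∀ n, 0 < n → n < l → ¬ ((u n : unitInterval) : ℝ) ≤ p n := by
    intro n h0 hn hle
    have := (h n h0 (by rw [List.sum_cons]; omega)).1 hle
    rw [pat_cons_lt l ls n h0 hn] at this
    exact Bool.false_ne_true this
  have h2 : ((u l : unitInterval) : ℝ) ≤ p l := by
    rw [h l (by omega) (by rw [List.sum_cons]; omega)]
    have := pat_cons_add l ls hl 0
    rw [add_zero] at this
    rw [this, pat_zero]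
  refine ⟨fun n hn => pos_straight p u v l h1 n hn j, fun n => ?_⟩
  rw [pos_shift p u v l (Or.inr h2) n j, pos_straight p u v l h1 l le_rfl j]

end Pool.Agent.H89CRW
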