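import Pool.Agent.Helper89.CRW10

set_option autoImplicit false

open MeasureTheory Filter ProbabilityTheory

namespace Pool.Agent.H89CRW

lemma sum_ofReal (g : Dir 2 → ℝ) (hg : ∀ e, 0 ≤ g e) :
    ∑ e : Dir 2, ((2 * 2 : ℕ) : ENNReal)⁻¹ * ENNReal.ofReal (g e) =
      ENNReal.ofReal ((g (0, true) + g (0, false) + g (1, true) + g (1, false)) / 4) := by
  have h4 : ((2 * 2 : ℕ) : ENNReal)⁻¹ = ENNReal.ofReal (1 / 4) := by
    rw [one_div, ENNReal.ofReal_inv_of_pos (by norm_num)]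
    congr 1
    norm_num
  rw [h4]
  have h1 : ∀ e : Dir 2, ENNReal.ofReal (1 / 4) * ENNReal.ofReal (g e) =
      ENNReal.ofReal (1 / 4 * g e) := fun e => (ENNReal.ofReal_mul (by norm_num)).symm
  rw [Finset.sum_congr rfl (fun e _ => h1 e), ← ENNReal.ofReal_sum_of_nonneg
    (fun e _ => mul_nonneg (by norm_num) (hg e))]
  congr 1
  rw [Fintype.sum_prod_type, Fin.sum_univ_two, Fintype.sum_bool, Fintype.sum_bool]
  ring

/-- the event that the walk started from `(x, y)` avoids the origin during `(a, b]` -/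
def NH (p : ℕ → ℝ) (u : ℕ → unitInterval) (x y : ℤ) (a b : ℕ) : Set (ℕ → Dir 2) :=
  {v | ∀ n, a < n → n ≤ b → ¬ (x + pos p u v n 0 = 0 ∧ y + pos p u v n 1 = 0)}

/-- the killing condition -/
def hitc (l : ℕ) (x y : ℤ) (e : Dir 2) : Prop :=
  (e = (0, true) ∧ y = 0 ∧ x < 0 ∧ 0 ≤ x + l) ∨ (e = (0, false) ∧ y = 0 ∧ 0 < x ∧ x - l ≤ 0) ∨
  (e = (1, true) ∧ x = 0 ∧ y < 0 ∧ 0 ≤ y + l) ∨ (e = (1, false) ∧ x = 0 ∧ 0 < y ∧ y - l ≤ 0)

lemma vec00 : vec ((0, true) : Dir 2) 0 = 1 := rfl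
lemma vec01 : vec ((0, true) : Dir 2) 1 = 0 := rfl
lemma vec10 : vec ((0, false) : Dir 2) 0 = -1 := rfl
lemma vec11 : vec ((0, false) : Dir 2) 1 = 0 := rfl
lemma vec20 : vec ((1, true) : Dir 2) 0 = 0 := rfl
lemma vec21 : vec ((1, true) : Dir 2) 1 = 1 := rfl
lemma vec30 : vec ((1, false) : Dir 2) 0 = 0 := rfl
lemma vec31 : vec ((1, false) : Dir 2) 1 = -1 := rfl

lemma hitc_spec (l : ℕ) (x y : ℤ) (e : Dir 2) (h : hitc l x y e) :
    ∃ n : ℕ, 0 < n ∧ n ≤ l ∧ x + (n : ℤ) * vec e 0 = 0 ∧ y + (n : ℤ) * vec e 1 = 0 := by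
  rcases h with ⟨rfl, h1, h2, h3⟩ | ⟨rfl, h1, h2, h3⟩ | ⟨rfl, h1, h2, h3⟩ | ⟨rfl, h1, h2, h3⟩
  · refine ⟨x.natAbs, by omega, by omega, ?_, ?_⟩
    · rw [vec00]; omega
    · rw [vec01]; omega
  · refine ⟨x.natAbs, by omega, by omega, ?_, ?_⟩
    · rw [vec10]; omega
    · rw [vec11]; omega
  · refine ⟨y.natAbs, by omega, by omega, ?_, ?_⟩
    · rw [vec20]; omega
    · rw [vec21]; omega
  · refine ⟨y.natAbs, by omega, by omega, ?_, ?_⟩
    · rw [vec30]; omega
    · rw [vec31]; omega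

theorem measure_kil (ls : List ℕ) : ∀ (_ : ∀ l ∈ ls, 1 ≤ l) (p : ℕ → ℝ) (u : ℕ → unitInterval)
    (_ : Follows p u ls) (x y : ℤ),
    iid 2 (NH p u x y 0 ls.sum) ≤ ENNReal.ofReal (kil ls (fun _ _ => 1) x y) := by
  classical
  induction ls with
  | nil =>
    intro _ p u _ x y
    have : kil [] (fun _ _ => 1) x y = 1 := rfl
    rw [this, ENNReal.ofReal_one]
    exact prob_le_one
  | cons l ls ih =>
    intro hall p u hf x y
    have hl : 1 ≤ l := hall l (by simp)
    have hall' : ∀ l ∈ ls, 1 ≤ l := fun l' h => hall l' (by simp [h])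
    have hpos := fun v : ℕ → Dir 2 => pos_first hl hf v
    set p' := fun m => p (l + m) with hp'
    set u' := fun m => u (l + m) with hu'
    have hf' : Follows p' u' ls := follows_tail hl hf
    set B : Dir 2 → Set (ℕ → Dir 2) := fun e => if hitc l x y e then ∅ else
      NH p' u' (x + l * vec e 0) (y + l * vec e 1) 0 ls.sum with hB
    set g : Dir 2 → ℝ := fun e => if hitc l x y e then 0 else
      kil ls (fun _ _ => 1) (x + l * vec e 0) (y + l * vec e 1) with hg
    have hg0 : ∀ e, 0 ≤ g e := by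
      intro e
      simp only [hg]
      split_ifs
      · exact le_rfl
      · exact kil_nonneg ls (fun _ _ => zero_le_one) _ _
    have hBg : ∀ e, iid 2 (B e) ≤ ENNReal.ofReal (g e) := by
      intro e
      simp only [hB, hg]
      split_ifs
      · simp
      · exact ih hall' p' u' hf' _ _
    have hA : ∀ v ∈ NH p u x y 0 (l :: ls).sum, (fun n => v (l + n)) ∈ B (v 0) := by
      intro v hv
      simp only [hB]
      split_ifs with hc
      · exfalso
        obtain ⟨n, hn0, hnl, h1, h2⟩ := hitc_spec l x y (v 0) hc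
        refine hv n hn0 (by rw [List.sum_cons]; omega) ⟨?_, ?_⟩
        · rw [(hpos v 0).1 n hnl]; exact h1
        · rw [(hpos v 1).1 n hnl]; exact h2
      · intro n hn hn' hcon
        refine hv (l + n) (by omega) (by rw [List.sum_cons]; omega) ⟨?_, ?_⟩
        · rw [(hpos v 0).2 n, ← add_assoc]; exact hcon.1
        · rw [(hpos v 1).2 n, ← add_assoc]; exact hcon.2
    refine (one_run 2 l hl _ B hA).trans ?_
    refine (Finset.sum_le_sum (fun e _ => mul_le_mul' le_rfl (hBg e))).trans ?_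
    rw [sum_ofReal g hg0]
    apply le_of_eq
    congr 1
    rw [kil_cons]
    unfold kstep
    congr 1
    have c0 : hitc l x y (0, true) ↔ (y = 0 ∧ x < 0 ∧ 0 ≤ x + l) := by simp [hitc]
    have c1 : hitc l x y (0, false) ↔ (y = 0 ∧ 0 < x ∧ x - l ≤ 0) := by simp [hitc]
    have c2 : hitc l x y (1, true) ↔ (x = 0 ∧ y < 0 ∧ 0 ≤ y + l) := by simp [hitc]
    have c3 : hitc l x y (1, false) ↔ (x = 0 ∧ 0 < y ∧ y - l ≤ 0) := by simp [hitc]
    simp only [hg, c0, c1, c2, c3, vec00, vec01, vec10, vec11, vec20, vec21, vec30, vec31]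
    simp only [mul_one, mul_zero, add_zero, mul_neg, ← sub_eq_add_neg]

theorem measure_avl (l2 : List ℕ) (h2 : ∀ l ∈ l2, 1 ≤ l) (l1 : List ℕ) : ∀ (_ : ∀ l ∈ l1, 1 ≤ l)
    (p : ℕ → ℝ) (u : ℕ → unitInterval) (_ : Follows p u (l1 ++ l2)) (x y : ℤ),
    iid 2 (NH p u x y l1.sum (l1 ++ l2).sum) ≤
      ENNReal.ofReal (avl l1 (kil l2 (fun _ _ => 1)) x y) := by
  classical
  have havl0 : ∀ (l1 : List ℕ) x y, 0 ≤ avl l1 (kil l2 (fun _ _ => 1)) x y := by
    intro l1
    induction l1 with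
    | nil => intro x y; exact kil_nonneg l2 (fun _ _ => zero_le_one) _ _
    | cons l ls ih =>
      intro x y
      rw [avl_cons]; unfold astep
      have h1 := ih (x + l) y
      have h2 := ih (x - l) y
      have h3 := ih x (y + l)
      have h4 := ih x (y - l)
      linarith
  induction l1 with
  | nil =>
    intro _ p u hf x y
    exact measure_kil l2 h2 p u hf x y
  | cons l ls ih =>
    intro hall p u hf x y
    have hl : 1 ≤ l := hall l (by simp)
    have hall' : ∀ l ∈ ls, 1 ≤ l := fun l' h => hall l' (by simp [h])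
    rw [List.cons_append] at hf
    have hpos := fun v : ℕ → Dir 2 => pos_first hl hf v
    set p' := fun m => p (l + m) with hp'
    set u' := fun m => u (l + m) with hu'
    have hf' : Follows p' u' (ls ++ l2) := follows_tail hl hf
    set B : Dir 2 → Set (ℕ → Dir 2) := fun e =>
      NH p' u' (x + l * vec e 0) (y + l * vec e 1) ls.sum (ls ++ l2).sum with hB
    set g : Dir 2 → ℝ := fun e =>
      avl ls (kil l2 (fun _ _ => 1)) (x + l * vec e 0) (y + l * vec e 1) with hg
    have hBg : ∀ e, iid 2 (B e) ≤ ENNReal.ofReal (g e) := by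
      intro e
      exact ih hall' p' u' hf' _ _
    have hA : ∀ v ∈ NH p u x y (l :: ls).sum ((l :: ls) ++ l2).sum,
        (fun n => v (l + n)) ∈ B (v 0) := by
      intro v hv n hn hn' hcon
      refine hv (l + n) (by rw [List.sum_cons]; omega)
        (by rw [List.cons_append, List.sum_cons]; omega) ⟨?_, ?_⟩
      · rw [(hpos v 0).2 n, ← add_assoc]; exact hcon.1
      · rw [(hpos v 1).2 n, ← add_assoc]; exact hcon.2
    refine (one_run 2 l hl _ B hA).trans ?_
    refine (Finset.sum_le_sum (fun e _ => mul_le_mul' le_rfl (hBg e))).trans ?_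
    rw [sum_ofReal g (fun e => havl0 ls _ _)]
    apply le_of_eq
    congr 1
    rw [avl_cons]
    unfold astep
    simp only [hg, vec00, vec01, vec10, vec11, vec20, vec21, vec30, vec31]
    simp only [mul_one, mul_zero, add_zero, mul_neg, ← sub_eq_add_neg]

end Pool.Agent.H89CRW
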