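import Pool.Agent.Helper89.CRW11

set_option autoImplicit false

namespace Pool.Agent.H89CRW

/-- simple random walk on the integers: probability of being at `u` after `m` steps -/
noncomputable def bw : ℕ → ℤ → ℝ
  | 0, u => if u = 0 then 1 else 0
  | m + 1, u => (bw m (u - 1) + bw m (u + 1)) / 2

lemma bw_nonneg (m : ℕ) (u : ℤ) : 0 ≤ bw m u := by
  induction m generalizing u with
  | zero => unfold bw; split_ifs <;> norm_num
  | succ m ih =>
    unfold bw
    have h1 := ih (u - 1)
    have h2 := ih (u + 1)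
    linarith

lemma bw_of_lt (m : ℕ) (u : ℤ) (h : (m : ℤ) < |u|) : bw m u = 0 := by
  induction m generalizing u with
  | zero =>
    unfold bw
    rw [if_neg]
    rintro rfl
    simp at h
  | succ m ih =>
    unfold bw
    rw [ih (u - 1), ih (u + 1)]
    · norm_num
    · rcases abs_cases u with h1 | h1 <;> rcases abs_cases (u + 1) with h2 | h2 <;>
        push_cast at h <;> omega
    · rcases abs_cases u with h1 | h1 <;> rcases abs_cases (u - 1) with h2 | h2 <;>
        push_cast at h <;> omega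

lemma bw_odd (m : ℕ) (u : ℤ) (h : (m + u) % 2 = 1) : bw m u = 0 := by
  induction m generalizing u with
  | zero =>
    unfold bw
    rw [if_neg]
    rintro rfl
    simp at h
  | succ m ih =>
    unfold bw
    rw [ih (u - 1) (by push_cast at h; omega), ih (u + 1) (by push_cast at h; omega)]
    norm_num

lemma bw_choose (m i : ℕ) : bw m (2 * i - m) = (m.choose i : ℝ) / 2 ^ m := by
  induction m generalizing i with
  | zero =>
    unfold bw
    rcases Nat.eq_zero_or_pos i with h | h
    · subst h; simp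
    · rw [if_neg (by push_cast; omega), Nat.choose_eq_zero_of_lt h]; simp
  | succ m ih =>
    unfold bw
    have e2 : (2 * (i : ℤ) - ((m + 1 : ℕ) : ℤ) + 1) = 2 * i - m := by push_cast; ring
    rw [e2, ih i]
    rcases Nat.eq_zero_or_pos i with h | h
    · subst h
      rw [bw_of_lt m _ (by
        have : (2 * ((0 : ℕ) : ℤ) - ((m + 1 : ℕ) : ℤ) - 1) = -((m : ℤ) + 2) := by push_cast; ring
        rw [this, abs_neg, abs_of_nonneg (by positivity)]; omega)]
      rw [Nat.choose_zero_right, Nat.choose_zero_right, pow_succ]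
      push_cast
      field_simp
      ring
    · obtain ⟨j, rfl⟩ := Nat.exists_eq_succ_of_ne_zero h.ne'
      have e1 : (2 * ((j.succ : ℕ) : ℤ) - ((m + 1 : ℕ) : ℤ) - 1) = 2 * j - m := by
        push_cast; ring
      rw [e1, ih j, Nat.choose_succ_succ, pow_succ]
      push_cast
      field_simp

lemma bw_le (m : ℕ) (u : ℤ) : bw m u ≤ 1 / Real.sqrt (m + 1) := by
  by_cases h1 : (m : ℤ) < |u|
  · rw [bw_of_lt m u h1]; positivity
  · by_cases h2 : (m + u) % 2 = 1
    · rw [bw_odd m u h2]; positivity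
    · obtain ⟨i, hi⟩ : ∃ i : ℕ, u = 2 * i - m := by
        refine ⟨((m + u) / 2).toNat, ?_⟩
        rcases abs_cases u with h3 | h3 <;> omega
      rw [hi, bw_choose]
      refine le_trans ?_ (real_choose m)
      gcongr
      exact Nat.choose_le_middle _ _

/-- lower bound on central binomial coefficients -/
lemma centralBinom_sq_ge (k : ℕ) (hk : 1 ≤ k) : 16 ^ k ≤ (Nat.centralBinom k) ^ 2 * (4 * k) := by
  induction k, hk using Nat.le_induction with
  | base => decide
  | succ k hk ih =>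
    have h := Nat.succ_mul_centralBinom_succ k
    have hk' : 0 < k * (k + 1) ^ 2 := by positivity
    apply Nat.le_of_mul_le_mul_left _ hk'
    calc k * (k + 1) ^ 2 * 16 ^ (k + 1) = (4 * (k * (k + 1))) * (4 * (k + 1)) * 16 ^ k := by ring
      _ ≤ ((2 * k + 1) ^ 2) * (4 * (k + 1)) * 16 ^ k := by
          apply Nat.mul_le_mul_right
          apply Nat.mul_le_mul_right
          nlinarith
      _ ≤ ((2 * k + 1) ^ 2) * (4 * (k + 1)) * ((Nat.centralBinom k) ^ 2 * (4 * k)) :=
          Nat.mul_le_mul_left _ ih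
      _ = k * ((2 * (2 * k + 1) * Nat.centralBinom k) ^ 2 * (4 * (k + 1))) := by ring
      _ = k * (((k + 1) * Nat.centralBinom (k + 1)) ^ 2 * (4 * (k + 1))) := by rw [h]
      _ = _ := by ring

lemma centralBinom_ge (k : ℕ) (hk : 1 ≤ k) :
    1 / (2 * Real.sqrt k) ≤ (Nat.centralBinom k : ℝ) / 2 ^ (2 * k) := by
  have h := centralBinom_sq_ge k hk
  have h' : ((16 : ℝ)) ^ k ≤ (Nat.centralBinom k : ℝ) ^ 2 * (4 * k) := by exact_mod_cast h
  have hk0 : (0 : ℝ) < k := by exact_mod_cast hk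
  have hs : 0 < Real.sqrt k := Real.sqrt_pos.2 hk0
  rw [div_le_div_iff₀ (by positivity) (by positivity), one_mul]
  apply le_of_sq_le_sq _ (by positivity)
  calc ((2 : ℝ) ^ (2 * k)) ^ 2 = 16 ^ k := by
        rw [← pow_mul, show 2 * k * 2 = 4 * k by ring, pow_mul]; norm_num
    _ ≤ _ := h'
    _ = ((Nat.centralBinom k : ℝ) * (2 * Real.sqrt k)) ^ 2 := by
        rw [mul_pow, mul_pow, Real.sq_sqrt hk0.le]; ring

lemma choose_ratio (k : ℕ) (hk : 1 ≤ k) (i : ℕ) (hi : i ≤ k) :
    (Nat.centralBinom k : ℝ) * (1 - (i : ℝ) ^ 2 / k) ≤ ((2 * k).choose (k + i) : ℝ) := by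
  have hk0 : (0 : ℝ) < k := by exact_mod_cast hk
  induction i with
  | zero => rw [Nat.centralBinom_eq_two_mul_choose]; simp
  | succ i ih =>
    have ih' := ih (by omega)
    have h1 : ((2 * k).choose (k + i + 1) : ℝ) * (k + i + 1) = ((2 * k).choose (k + i) : ℝ) * (k - i) := by
      have := Nat.choose_succ_right_eq (2 * k) (k + i)
      have h2 : 2 * k - (k + i) = k - i := by omega
      rw [h2] at this
      have h3 : (((2 * k).choose (k + i + 1) * (k + i + 1) : ℕ) : ℝ) =
          (((2 * k).choose (k + i) * (k - i) : ℕ) : ℝ) := by exact_mod_cast this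
      rw [Nat.cast_mul, Nat.cast_mul, Nat.cast_sub (by omega)] at h3
      push_cast at h3
      exact h3
    have h4 : ((2 * k).choose (k + i) : ℝ) ≤ (Nat.centralBinom k : ℝ) := by
      exact_mod_cast Nat.choose_le_centralBinom _ _
    have hd : (0 : ℝ) < k + i + 1 := by positivity
    have h5 : ((2 * k).choose (k + i + 1) : ℝ) =
        ((2 * k).choose (k + i) : ℝ) - ((2 * k).choose (k + i) : ℝ) * ((2 * i + 1) / (k + i + 1)) := by
      field_simp
      rw [h1]; ring
    have h6 : ((2 * k).choose (k + i) : ℝ) * ((2 * i + 1) / (k + i + 1)) ≤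
        (Nat.centralBinom k : ℝ) * ((2 * i + 1) / k) := by
      gcongr
      linarith [show (0 : ℝ) ≤ i from Nat.cast_nonneg i]
    rw [show k + (i + 1) = k + i + 1 by ring, h5]
    push_cast
    have h7 : (Nat.centralBinom k : ℝ) * (1 - ((i : ℝ) + 1) ^ 2 / k) =
        (Nat.centralBinom k : ℝ) * (1 - (i : ℝ) ^ 2 / k) -
        (Nat.centralBinom k : ℝ) * ((2 * i + 1) / k) := by
      field_simp; ring
    rw [h7]
    linarith

lemma bw_ge (k : ℕ) (hk : 1 ≤ k) (i : ℤ) (hi : 2 * i ^ 2 ≤ k) :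
    1 / (4 * Real.sqrt k) ≤ bw (2 * k) (2 * i) := by
  have hk0 : (0 : ℝ) < k := by exact_mod_cast hk
  have key : ∀ j : ℕ, 2 * j ^ 2 ≤ k → 1 / (4 * Real.sqrt k) ≤ ((2 * k).choose (k + j) : ℝ) / 2 ^ (2 * k) := by
    intro j hj
    have hjk : j ≤ k := by nlinarith
    have h1 := choose_ratio k hk j hjk
    have h2 : (1 : ℝ) / 2 ≤ 1 - (j : ℝ) ^ 2 / k := by
      have h3 : 2 * (j : ℝ) ^ 2 ≤ k := by exact_mod_cast hj
      have : (j : ℝ) ^ 2 / k ≤ 1 / 2 := by
        rw [div_le_iff₀ hk0]; linarith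
      linarith
    have h4 := centralBinom_ge k hk
    calc 1 / (4 * Real.sqrt k) = (1 / (2 * Real.sqrt k)) * (1 / 2) := by
          have hs : 0 < Real.sqrt k := Real.sqrt_pos.2 hk0
          field_simp; norm_num
      _ ≤ ((Nat.centralBinom k : ℝ) / 2 ^ (2 * k)) * (1 - (j : ℝ) ^ 2 / k) := by gcongr
      _ = (Nat.centralBinom k : ℝ) * (1 - (j : ℝ) ^ 2 / k) / 2 ^ (2 * k) := by ring
      _ ≤ _ := by gcongr
  rcases Int.natAbs_eq i with h | h
  · have h1 : (2 * i : ℤ) = 2 * ((k + i.natAbs : ℕ) : ℤ) - ((2 * k : ℕ) : ℤ) := by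
      omega
    rw [h1, bw_choose]
    apply key
    have : ((2 * i.natAbs ^ 2 : ℕ) : ℤ) ≤ k := by
      push_cast; rw [sq_abs]; exact hi
    exact_mod_cast this
  · have hj : 2 * i.natAbs ^ 2 ≤ k := by
      have : ((2 * i.natAbs ^ 2 : ℕ) : ℤ) ≤ k := by
        push_cast; rw [sq_abs]; exact hi
      exact_mod_cast this
    have hjk : i.natAbs ≤ k := by nlinarith
    have h1 : (2 * i : ℤ) = 2 * ((k - i.natAbs : ℕ) : ℤ) - ((2 * k : ℕ) : ℤ) := by
      omega
    rw [h1, bw_choose]
    have h2 : (2 * k).choose (k - i.natAbs) = (2 * k).choose (k + i.natAbs) := by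
      apply Nat.choose_symm_of_eq_add; omega
    rw [h2]
    exact key _ hj

/-- two-dimensional simple random walk: probability of being at `(x, y)` after `m` steps -/
noncomputable def pp (m : ℕ) (x y : ℤ) : ℝ := bw m (x + y) * bw m (x - y)

lemma pp_zero (x y : ℤ) : pp 0 x y = if x = 0 ∧ y = 0 then 1 else 0 := by
  unfold pp bw
  by_cases h : x = 0 ∧ y = 0
  · rw [if_pos h, if_pos (by omega), if_pos (by omega)]; norm_num
  · rw [if_neg h]
    by_cases h1 : x + y = 0
    · rw [if_neg (show ¬ (x - y = 0) by omega), mul_zero]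
    · rw [if_neg h1, zero_mul]

lemma pp_succ (m : ℕ) (x y : ℤ) :
    pp (m + 1) x y = (pp m (x - 1) y + pp m (x + 1) y + pp m x (y - 1) + pp m x (y + 1)) / 4 := by
  unfold pp
  have e1 : bw (m + 1) (x + y) = (bw m (x + y - 1) + bw m (x + y + 1)) / 2 := rfl
  have e2 : bw (m + 1) (x - y) = (bw m (x - y - 1) + bw m (x - y + 1)) / 2 := rfl
  rw [e1, e2]
  have a1 : x - 1 + y = x + y - 1 := by ring
  have a2 : x - 1 - y = x - y - 1 := by ring
  have a3 : x + 1 + y = x + y + 1 := by ring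
  have a4 : x + 1 - y = x - y + 1 := by ring
  have a5 : x + (y - 1) = x + y - 1 := by ring
  have a6 : x - (y - 1) = x - y + 1 := by ring
  have a7 : x + (y + 1) = x + y + 1 := by ring
  have a8 : x - (y + 1) = x - y - 1 := by ring
  rw [a1, a2, a3, a4, a5, a6, a7, a8]
  ring

lemma pp_nonneg (m : ℕ) (x y : ℤ) : 0 ≤ pp m x y := mul_nonneg (bw_nonneg _ _) (bw_nonneg _ _)

/-- expected number of visits -/
noncomputable def NN (n : ℕ) (x y : ℤ) : ℝ := ∑ m ∈ Finset.range (n + 1), pp m x y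

lemma NN_succ (n : ℕ) (x y : ℤ) :
    NN (n + 1) x y = (if x = 0 ∧ y = 0 then 1 else 0) +
      (NN n (x - 1) y + NN n (x + 1) y + NN n x (y - 1) + NN n x (y + 1)) / 4 := by
  unfold NN
  rw [Finset.sum_range_succ', pp_zero, add_comm]
  congr 1
  rw [Finset.sum_congr rfl (fun m _ => pp_succ m x y), ← Finset.sum_div, Finset.sum_add_distrib,
    Finset.sum_add_distrib, Finset.sum_add_distrib]

lemma NN_nonneg (n : ℕ) (x y : ℤ) : 0 ≤ NN n x y :=
  Finset.sum_nonneg fun _ _ => pp_nonneg _ _ _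

lemma NN_mono (n : ℕ) (x y : ℤ) : NN n x y ≤ NN (n + 1) x y := by
  unfold NN
  rw [Finset.sum_range_succ _ (n + 1)]
  linarith [pp_nonneg (n + 1) x y]

lemma NN_zero_le (n : ℕ) : NN n 0 0 ≤ 1 + Real.log (n + 1) := by
  have h1 : NN n 0 0 ≤ ∑ m ∈ Finset.range (n + 1), ((m : ℝ) + 1)⁻¹ := by
    unfold NN
    apply Finset.sum_le_sum
    intro m _
    unfold pp
    have h := bw_le m 0
    have h0 := bw_nonneg m 0
    simp only [add_zero, sub_zero]
    calc bw m 0 * bw m 0 ≤ (1 / Real.sqrt (m + 1)) * (1 / Real.sqrt (m + 1)) := by gcongr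
      _ = ((m : ℝ) + 1)⁻¹ := by
        rw [div_mul_div_comm, one_mul, Real.mul_self_sqrt (by positivity), one_div]
  refine h1.trans ?_
  have h2 := harmonic_le_one_add_log (n + 1)
  have h3 : ((harmonic (n + 1) : ℚ) : ℝ) = ∑ m ∈ Finset.range (n + 1), ((m : ℝ) + 1)⁻¹ := by
    unfold harmonic
    push_cast
    rfl
  rw [h3] at h2
  push_cast at h2
  exact h2

/-- probability of reaching the target within `n` steps -/
noncomputable def hh : ℕ → ℤ → ℤ → ℝ
  | 0, x, y => if x = 0 ∧ y = 0 then 1 else 0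
  | n + 1, x, y => if x = 0 ∧ y = 0 then 1 else
      (hh n (x - 1) y + hh n (x + 1) y + hh n x (y - 1) + hh n x (y + 1)) / 4

lemma hh_nonneg (n : ℕ) (x y : ℤ) : 0 ≤ hh n x y := by
  induction n generalizing x y with
  | zero => unfold hh; split_ifs <;> norm_num
  | succ n ih =>
    unfold hh
    have h1 := ih (x - 1) y
    have h2 := ih (x + 1) y
    have h3 := ih x (y - 1)
    have h4 := ih x (y + 1)
    split_ifs
    · norm_num
    · linarith

lemma hh_mono (n : ℕ) (x y : ℤ) : hh n x y ≤ hh (n + 1) x y := by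
  induction n generalizing x y with
  | zero =>
    have h1 := hh_nonneg 0 (x - 1) y
    have h2 := hh_nonneg 0 (x + 1) y
    have h3 := hh_nonneg 0 x (y - 1)
    have h4 := hh_nonneg 0 x (y + 1)
    show (if x = 0 ∧ y = 0 then (1 : ℝ) else 0) ≤ if x = 0 ∧ y = 0 then 1 else
      (hh 0 (x - 1) y + hh 0 (x + 1) y + hh 0 x (y - 1) + hh 0 x (y + 1)) / 4
    split_ifs
    · exact le_rfl
    · linarith
  | succ n ih =>
    have h1 := ih (x - 1) y
    have h2 := ih (x + 1) y
    have h3 := ih x (y - 1)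
    have h4 := ih x (y + 1)
    show (if x = 0 ∧ y = 0 then (1 : ℝ) else
      (hh n (x - 1) y + hh n (x + 1) y + hh n x (y - 1) + hh n x (y + 1)) / 4) ≤
      if x = 0 ∧ y = 0 then 1 else
      (hh (n + 1) (x - 1) y + hh (n + 1) (x + 1) y + hh (n + 1) x (y - 1) + hh (n + 1) x (y + 1)) / 4
    split_ifs
    · exact le_rfl
    · linarith

lemma NN_le_hh (n : ℕ) (x y : ℤ) : NN n x y ≤ hh n x y * NN n 0 0 := by
  induction n generalizing x y with
  | zero =>
    unfold NN hh
    simp only [zero_add, Finset.range_one, Finset.sum_singleton, pp_zero]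
    split_ifs <;> simp_all
  | succ n ih =>
    by_cases h : x = 0 ∧ y = 0
    · obtain ⟨rfl, rfl⟩ := h
      have : hh (n + 1) 0 0 = 1 := by unfold hh; simp
      rw [this, one_mul]
    · rw [NN_succ, if_neg h, zero_add]
      have hd : hh (n + 1) x y =
          (hh n (x - 1) y + hh n (x + 1) y + hh n x (y - 1) + hh n x (y + 1)) / 4 := by
        show (if x = 0 ∧ y = 0 then (1 : ℝ) else _) = _
        rw [if_neg h]
      have h1 := ih (x - 1) y
      have h2 := ih (x + 1) y
      have h3 := ih x (y - 1)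
      have h4 := ih x (y + 1)
      calc (NN n (x - 1) y + NN n (x + 1) y + NN n x (y - 1) + NN n x (y + 1)) / 4
          ≤ hh (n + 1) x y * NN n 0 0 := by rw [hd]; linarith
        _ ≤ _ := mul_le_mul_of_nonneg_left (NN_mono n 0 0) (hh_nonneg _ _ _)

/-- lower bound for the expected number of visits, even displacement -/
lemma NN_ge (k0 n : ℕ) (hk0 : 1 ≤ k0) (hn : 4 * k0 ≤ n) (x y i i' : ℤ) (hx : x + y = 2 * i)
    (hy : x - y = 2 * i') (hi : 2 * i ^ 2 ≤ k0) (hi' : 2 * i' ^ 2 ≤ k0) : 1 / 32 ≤ NN n x y := by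
  have h1 : ∑ k ∈ Finset.Ico k0 (2 * k0), pp (2 * k) x y ≤ NN n x y := by
    unfold NN
    rw [← Finset.sum_image (f := fun m => pp m x y) (g := fun k => 2 * k)
      (s := Finset.Ico k0 (2 * k0)) (fun a _ b _ h => by
        have : 2 * a = 2 * b := h
        omega)]
    apply Finset.sum_le_sum_of_subset_of_nonneg
    · intro m hm
      rw [Finset.mem_image] at hm
      obtain ⟨k, hk, rfl⟩ := hm
      rw [Finset.mem_Ico] at hk
      rw [Finset.mem_range]; omega
    · intro m _ _; exact pp_nonneg _ _ _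
  refine le_trans ?_ h1
  have hk0' : (0 : ℝ) < k0 := by exact_mod_cast hk0
  have h2 : ∀ k ∈ Finset.Ico k0 (2 * k0), 1 / (32 * (k0 : ℝ)) ≤ pp (2 * k) x y := by
    intro k hk
    rw [Finset.mem_Ico] at hk
    have hk1 : 1 ≤ k := by omega
    have hkr : (0 : ℝ) < k := by exact_mod_cast hk1
    have g1 := bw_ge k hk1 i (by
      have : (k0 : ℤ) ≤ k := by exact_mod_cast hk.1
      omega)
    have g2 := bw_ge k hk1 i' (by
      have : (k0 : ℤ) ≤ k := by exact_mod_cast hk.1
      omega)
    unfold pp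
    rw [hx, hy]
    have hs : 0 < Real.sqrt k := Real.sqrt_pos.2 hkr
    calc 1 / (32 * (k0 : ℝ)) ≤ 1 / (16 * (k : ℝ)) := by
          apply one_div_le_one_div_of_le (by positivity)
          have : (k : ℝ) ≤ 2 * k0 := by exact_mod_cast hk.2.le
          linarith
      _ = (1 / (4 * Real.sqrt k)) * (1 / (4 * Real.sqrt k)) := by
          rw [div_mul_div_comm, one_mul]
          congr 1
          have := Real.mul_self_sqrt hkr.le
          calc (16 : ℝ) * k = 16 * (Real.sqrt k * Real.sqrt k) := by rw [this]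
            _ = _ := by ring
      _ ≤ _ := mul_le_mul g1 g2 (by positivity) (bw_nonneg _ _)
  calc (1 : ℝ) / 32 = ∑ _k ∈ Finset.Ico k0 (2 * k0), 1 / (32 * (k0 : ℝ)) := by
        rw [Finset.sum_const, Nat.card_Ico, nsmul_eq_mul]
        have : 2 * k0 - k0 = k0 := by omega
        rw [this]; field_simp
    _ ≤ _ := Finset.sum_le_sum h2

/-- the two-dimensional hitting estimate -/
theorem hh_ge (B n : ℕ) (hn : 8 * (B + 1) ^ 2 ≤ n) (x y : ℤ) (hx : |x| ≤ B) (hy : |y| ≤ B) :
    1 / (128 * (1 + Real.log (n + 1))) ≤ hh (n + 1) x y := by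
  have hlog : 0 ≤ Real.log ((n : ℝ) + 1) := Real.log_nonneg (by
    have : (0 : ℝ) ≤ n := Nat.cast_nonneg n
    linarith)
  -- even displacement
  have heven : ∀ x y : ℤ, |x| ≤ B + 1 → |y| ≤ B + 1 → (x + y) % 2 = 0 →
      1 / (32 * (1 + Real.log (n + 1))) ≤ hh n x y := by
    intro x y hx hy hpar
    have h1 := NN_ge (2 * (B + 1) ^ 2) n (by nlinarith) (by nlinarith) x y ((x + y) / 2)
      ((x - y) / 2) (by omega) (by omega)
      (by
        push_cast
        have : |(x + y) / 2| ≤ (B : ℤ) + 1 := by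
          rw [abs_le] at hx hy ⊢; omega
        have h2 := sq_le_sq' (abs_le.1 this).1 (abs_le.1 this).2
        linarith)
      (by
        push_cast
        have : |(x - y) / 2| ≤ (B : ℤ) + 1 := by
          rw [abs_le] at hx hy ⊢; omega
        have h2 := sq_le_sq' (abs_le.1 this).1 (abs_le.1 this).2
        linarith)
    have h2 := NN_le_hh n x y
    have h3 := NN_zero_le n
    have h4 : hh n x y * NN n 0 0 ≤ hh n x y * (1 + Real.log (n + 1)) :=
      mul_le_mul_of_nonneg_left h3 (hh_nonneg _ _ _)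
    rw [div_le_iff₀ (by positivity)]
    linarith
  have hx' : |x| ≤ (B : ℤ) + 1 := by omega
  have hy' : |y| ≤ (B : ℤ) + 1 := by omega
  by_cases hpar : (x + y) % 2 = 0
  · refine le_trans ?_ ((heven x y hx' hy' hpar).trans (hh_mono n x y))
    apply one_div_le_one_div_of_le (by positivity)
    linarith
  · have hne : ¬ (x = 0 ∧ y = 0) := by
      rintro ⟨rfl, rfl⟩; simp at hpar
    have hd : hh (n + 1) x y =
        (hh n (x - 1) y + hh n (x + 1) y + hh n x (y - 1) + hh n x (y + 1)) / 4 := by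
      show (if x = 0 ∧ y = 0 then (1 : ℝ) else _) = _
      rw [if_neg hne]
    rw [hd]
    have h1 := heven (x - 1) y (by rw [abs_le] at hx ⊢; omega) hy' (by omega)
    have h2 := hh_nonneg n (x + 1) y
    have h3 := hh_nonneg n x (y - 1)
    have h4 := hh_nonneg n x (y + 1)
    have h5 : 1 / (128 * (1 + Real.log ((n : ℝ) + 1))) = (1 / (32 * (1 + Real.log (n + 1)))) / 4 := by
      rw [div_div]; congr 1; ring
    rw [h5]
    linarith

end Pool.Agent.H89CRW
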