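import Pool.Agent.Helper89.CRW12

set_option autoImplicit false

namespace Pool.Agent.H89CRW

/-! ### The coarse phase -/

lemma kstep_killed (l : ℕ) {f : ℤ → ℤ → ℝ} (h : ∀ x y, f x y ≤ 1) (x y : ℤ)
    (hc : y = 0 ∧ x < 0 ∧ 0 ≤ x + l) : kstep l f x y ≤ 3 / 4 := by
  unfold kstep
  have h2 := h (x - l) y
  have h3 := h x (y + l)
  have h4 := h x (y - l)
  rw [if_pos hc]
  split_ifs <;> linarith

lemma coarse (L : ℕ) (r : ℤ) (hr1 : 1 ≤ r) (hr2 : r ≤ L) (n : ℕ) (x y : ℤ) :
    kil (List.replicate (n + 1) L) (fun _ _ => 1) (-r - L * x) (-(L * y)) ≤ 1 - hh n x y / 4 := by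
  induction n generalizing x y with
  | zero =>
    by_cases h : x = 0 ∧ y = 0
    · obtain ⟨rfl, rfl⟩ := h
      have e : hh 0 0 0 = 1 := by unfold hh; simp
      rw [e]
      rw [List.replicate_succ, kil_cons]
      refine (kstep_killed L (fun a b => kil_one_le (List.replicate 0 L) a b) _ _
        (by rw [mul_zero]; omega)).trans (by norm_num)
    · have e : hh 0 x y = 0 := by unfold hh; rw [if_neg h]
      rw [e]
      have := kil_one_le (List.replicate (0 + 1) L) (-r - L * x) (-(L * y))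
      linarith
  | succ n ih =>
    by_cases h : x = 0 ∧ y = 0
    · obtain ⟨rfl, rfl⟩ := h
      have e : hh (n + 1) 0 0 = 1 := by unfold hh; simp
      rw [e]
      rw [List.replicate_succ, kil_cons]
      refine (kstep_killed L (fun a b => kil_one_le (List.replicate (n + 1) L) a b) _ _
        (by rw [mul_zero]; omega)).trans (by norm_num)
    · have hd : hh (n + 1) x y =
          (hh n (x - 1) y + hh n (x + 1) y + hh n x (y - 1) + hh n x (y + 1)) / 4 := by
        show (if x = 0 ∧ y = 0 then (1 : ℝ) else _) = _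
        rw [if_neg h]
      rw [List.replicate_succ, kil_cons]
      refine (kstep_le_astep L (fun a b => kil_nonneg _ (fun _ _ => zero_le_one) a b) _ _).trans ?_
      unfold astep
      have e1 : (-r - L * x : ℤ) + L = -r - L * (x - 1) := by ring
      have e2 : (-r - L * x : ℤ) - L = -r - L * (x + 1) := by ring
      have e3 : (-(L * y) : ℤ) + L = -(L * (y - 1)) := by ring
      have e4 : (-(L * y) : ℤ) - L = -(L * (y + 1)) := by ring
      rw [e1, e2, e3, e4, hd]
      have h1 := ih (x - 1) y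
      have h2 := ih (x + 1) y
      have h3 := ih x (y - 1)
      have h4 := ih x (y + 1)
      linarith

/-! ### The fine phase -/

/-- runs of lengths `1, 2, 4, …, 2^(k-1)` -/
def fine (k : ℕ) : List ℕ := (List.range k).map (fun i => 2 ^ i)

lemma fine_succ (k : ℕ) : fine (k + 1) = fine k ++ [2 ^ k] := by
  unfold fine; rw [List.range_succ, List.map_append]; rfl

lemma fine_sum (k : ℕ) : (fine k).sum + 1 = 2 ^ k := by
  induction k with
  | zero => rfl
  | succ k ih => rw [fine_succ, List.sum_append, pow_succ]; simp; omega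

lemma fine_pos (k : ℕ) : ∀ l ∈ fine k, 1 ≤ l := by
  intro l hl
  unfold fine at hl
  rw [List.mem_map] at hl
  obtain ⟨i, _, rfl⟩ := hl
  exact Nat.one_le_two_pow

lemma fine_sq (k : ℕ) : ((fine k).map (fun l : ℕ => (l : ℝ) ^ 2)).sum ≤ ((2 : ℝ) ^ k) ^ 2 := by
  induction k with
  | zero => simp [fine]
  | succ k ih =>
    rw [fine_succ, List.map_append, List.sum_append, List.map_singleton, List.sum_singleton]
    have : ((2 : ℝ) ^ (k + 1)) ^ 2 = 4 * (2 ^ k) ^ 2 := by ring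
    rw [this]
    push_cast
    nlinarith [sq_nonneg ((2 : ℝ) ^ k)]

/-- divisibility of the second coordinate by `2^k` -/
noncomputable def dvdInd (k : ℕ) (_x y : ℤ) : ℝ := if (2 : ℤ) ^ k ∣ y then 1 else 0

lemma astep_dvdInd (k : ℕ) (x y : ℤ) :
    astep (2 ^ k) (dvdInd (k + 1)) x y = 1 / 2 * dvdInd k x y := by
  unfold astep dvdInd
  have hc : ((2 ^ k : ℕ) : ℤ) = 2 ^ k := by push_cast; rfl
  rw [hc]
  have hp : (0 : ℤ) < 2 ^ k := by positivity
  by_cases h : (2 : ℤ) ^ k ∣ y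
  · obtain ⟨m, rfl⟩ := h
    rw [if_pos (Dvd.intro m rfl)]
    have e0 : (2 : ℤ) ^ (k + 1) ∣ 2 ^ k * m ↔ 2 ∣ m := by
      rw [pow_succ]; exact mul_dvd_mul_iff_left hp.ne'
    have e1 : (2 : ℤ) ^ (k + 1) ∣ 2 ^ k * m + 2 ^ k ↔ 2 ∣ m + 1 := by
      rw [pow_succ, show (2 : ℤ) ^ k * m + 2 ^ k = 2 ^ k * (m + 1) by ring]
      exact mul_dvd_mul_iff_left hp.ne'
    have e2 : (2 : ℤ) ^ (k + 1) ∣ 2 ^ k * m - 2 ^ k ↔ 2 ∣ m - 1 := by
      rw [pow_succ, show (2 : ℤ) ^ k * m - 2 ^ k = 2 ^ k * (m - 1) by ring]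
      exact mul_dvd_mul_iff_left hp.ne'
    simp only [e0, e1, e2]
    by_cases hm : (2 : ℤ) ∣ m
    · rw [if_pos hm, if_neg (by omega), if_neg (by omega)]; norm_num
    · rw [if_neg hm, if_pos (by omega), if_pos (by omega)]; norm_num
  · rw [if_neg h]
    have hk : (2 : ℤ) ^ k ∣ 2 ^ (k + 1) := pow_dvd_pow 2 (Nat.le_succ k)
    rw [if_neg (fun h' => h (hk.trans h')), if_neg, if_neg]
    · norm_num
    · intro h'
      apply h
      have := dvd_add (hk.trans h') (dvd_refl ((2 : ℤ) ^ k))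
      rwa [sub_add_cancel] at this
    · intro h'
      apply h
      have := dvd_sub (hk.trans h') (dvd_refl ((2 : ℤ) ^ k))
      rwa [add_sub_cancel_right] at this

lemma avl_fine (k : ℕ) (x y : ℤ) : avl (fine k) (dvdInd k) x y = 1 / 2 ^ k := by
  induction k generalizing x y with
  | zero =>
    unfold dvdInd fine avl
    simp
  | succ k ih =>
    rw [fine_succ, avl_append]
    have h1 : avl [2 ^ k] (dvdInd (k + 1)) = fun x y => 1 / 2 * dvdInd k x y + 0 * (fun _ _ => 0) x y := by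
      funext x y
      rw [avl_cons]
      show astep (2 ^ k) (dvdInd (k + 1)) x y = _
      rw [astep_dvdInd]; ring
    rw [h1, avl_lin, ih, pow_succ]
    field_simp
    ring

/-! ### One stage -/

/-- the run lengths of a stage of the second walk -/
def stg (a k n : ℕ) : List ℕ := a :: (fine k ++ List.replicate (n + 2) (2 ^ k))

lemma stage_hit (a k n m : ℕ) (hm : 1 ≤ m) (ha : a = 2 ^ k * m) (hn : 8 * (4 * m + 1) ^ 2 ≤ n)
    (x y : ℤ) (hx : |x| ≤ a) (hy : |y| ≤ a) :
    kil (stg a k n) (fun _ _ => 1) x y ≤ 1 - 1 / (512 * 2 ^ k * (1 + Real.log (n + 1))) := by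
  have hlog : 0 ≤ Real.log ((n : ℝ) + 1) := Real.log_nonneg (by
    have : (0 : ℝ) ≤ n := Nat.cast_nonneg n
    linarith)
  set g0 : ℝ := 1 / (512 * (1 + Real.log (n + 1))) with hg0
  have hg0' : 0 < g0 := by positivity
  have hLz : ((2 ^ k : ℕ) : ℤ) = 2 ^ k := by push_cast; rfl
  have hLpos : (0 : ℤ) < 2 ^ k := by positivity
  have haz : (a : ℤ) = 2 ^ k * m := by rw [ha]; push_cast; rfl
  have hmz : (1 : ℤ) ≤ m := by exact_mod_cast hm
  -- the coarse phase from an aligned point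
  have hcoarse : ∀ x' y' : ℤ, |x'| ≤ 2 * a + 2 ^ k - 1 → |y'| ≤ 2 * a + 2 ^ k - 1 →
      kil (List.replicate (n + 2) (2 ^ k)) (fun _ _ => 1) x' y' ≤ 1 - g0 * dvdInd k x' y' := by
    intro x' y' hx' hy'
    unfold dvdInd
    split_ifs with hd
    · obtain ⟨w, hw⟩ := hd
      -- choose the residue
      obtain ⟨r, q, hr1, hr2, hq⟩ : ∃ r q : ℤ, 1 ≤ r ∧ r ≤ 2 ^ k ∧ x' = -r - 2 ^ k * q := by
        refine ⟨2 ^ k - (x' % 2 ^ k), -(x' / 2 ^ k) - 1, ?_, ?_, ?_⟩
        · have := Int.emod_lt_of_pos x' hLpos; omega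
        · have := Int.emod_nonneg x' hLpos.ne'; omega
        · have := Int.mul_ediv_add_emod x' (2 ^ k)
          calc x' = 2 ^ k * (x' / 2 ^ k) + x' % 2 ^ k := this.symm
            _ = _ := by ring
      have h1 := coarse (2 ^ k) r hr1 (by rw [hLz]; exact hr2) (n + 1) q (-w)
      rw [hLz] at h1
      rw [hq, hw, show (2 : ℤ) ^ k * w = -(2 ^ k * -w) by ring]
      refine h1.trans ?_
      have hB : ∀ z : ℤ, 2 ^ k * |z| ≤ 2 ^ k * (4 * m) → |z| ≤ ((4 * m : ℕ) : ℤ) := by
        intro z hz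
        push_cast
        exact le_of_mul_le_mul_left hz hLpos
      have hq' : |q| ≤ ((4 * m : ℕ) : ℤ) := by
        apply hB
        rw [← abs_of_pos hLpos, ← abs_mul, abs_of_pos hLpos]
        have : 2 ^ k * q = -r - x' := by rw [hq]; ring
        rw [this]
        have h2 : |(-r - x')| ≤ r + |x'| := by
          rw [abs_le]; constructor <;> [linarith [neg_abs_le x', le_abs_self x']; linarith [neg_abs_le x']]
        nlinarith
      have hw' : |(-w)| ≤ ((4 * m : ℕ) : ℤ) := by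
        apply hB
        rw [← abs_of_pos hLpos, ← abs_mul, abs_of_pos hLpos]
        have : 2 ^ k * -w = -y' := by rw [hw]; ring
        rw [this, abs_neg]
        nlinarith
      have h3 := hh_ge (4 * m) n hn q (-w) hq' hw'
      have h4 : g0 = (1 / (128 * (1 + Real.log ((n : ℝ) + 1)))) / 4 := by
        rw [hg0, div_div]; congr 1; ring
      rw [mul_one, h4]
      linarith
    · rw [mul_zero, sub_zero]
      exact kil_one_le _ _ _
  -- the fine phase
  have hfine : ∀ x' y' : ℤ, |x'| ≤ 2 * a → |y'| ≤ 2 * a →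
      kil (fine k ++ List.replicate (n + 2) (2 ^ k)) (fun _ _ => 1) x' y' ≤ 1 - g0 * (1 / 2 ^ k) := by
    intro x' y' hx' hy'
    rw [kil_append]
    refine (kil_le_avl _ (fun a b => kil_nonneg _ (fun _ _ => zero_le_one) a b) _ _).trans ?_
    have hs : ((fine k).sum : ℤ) = 2 ^ k - 1 := by
      have := fine_sum k
      omega
    have h1 : avl (fine k) (kil (List.replicate (n + 2) (2 ^ k)) (fun _ _ => 1)) x' y' ≤
        avl (fine k) (fun x y => 1 * (fun _ _ => 1) x y + (-g0) * dvdInd k x y) x' y' := by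
      apply avl_mono_box
      intro x'' y'' hx'' hy''
      rw [hs] at hx'' hy''
      have h2 := hcoarse x'' y''
        (by rw [abs_le] at hx' hx'' ⊢; constructor <;> linarith [hx'.1, hx'.2, hx''.1, hx''.2])
        (by rw [abs_le] at hy' hy'' ⊢; constructor <;> linarith [hy'.1, hy'.2, hy''.1, hy''.2])
      refine h2.trans (le_of_eq ?_)
      ring
    refine h1.trans (le_of_eq ?_)
    rw [avl_lin, avl_one, avl_fine]; ring
  unfold stg
  rw [kil_cons]
  refine (kstep_le_astep a (fun a b => kil_nonneg _ (fun _ _ => zero_le_one) a b) _ _).trans ?_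
  unfold astep
  have ha0 : (0 : ℤ) ≤ a := Int.natCast_nonneg a
  have h1 := hfine (x + a) y (by rw [abs_le] at hx ⊢; omega) (by rw [abs_le] at hy ⊢; omega)
  have h2 := hfine (x - a) y (by rw [abs_le] at hx ⊢; omega) (by rw [abs_le] at hy ⊢; omega)
  have h3 := hfine x (y + a) (by rw [abs_le] at hx ⊢; omega) (by rw [abs_le] at hy ⊢; omega)
  have h4 := hfine x (y - a) (by rw [abs_le] at hx ⊢; omega) (by rw [abs_le] at hy ⊢; omega)
  have h5 : 1 / (512 * (2 : ℝ) ^ k * (1 + Real.log (n + 1))) = g0 * (1 / 2 ^ k) := by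
    rw [hg0, div_mul_div_comm, one_mul]; congr 1; ring
  rw [h5]
  linarith

/-! ### Concatenating the stages -/

/-- stages `J, …, J + n - 1` -/
def stages (S : ℕ → List ℕ) : ℕ → ℕ → List ℕ
  | _, 0 => []
  | J, n + 1 => S J ++ stages S (J + 1) n

lemma lyapunov (S : ℕ → List ℕ) (a h : ℕ → ℝ) (ρ κ : ℝ) (ha : ∀ j, 0 < a j)
    (hρ : 4 ≤ ρ) (hκ : 8 * κ ≤ ρ) (hκ0 : 0 ≤ κ)
    (hgrow : ∀ j, ρ * a j ^ 2 ≤ a (j + 1) ^ 2)
    (h0 : ∀ j, 0 ≤ h j) (h1 : ∀ j, h j ≤ 1) (hanti : ∀ j, h (j + 1) ≤ h j)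
    (hsq : ∀ j, ((S j).map (fun l : ℕ => (l : ℝ) ^ 2)).sum ≤ κ * a j ^ 2)
    (hhit : ∀ j (x y : ℤ), kil (S j) (fun _ _ => 1) x y ≤
      1 - h j + h j * ((x : ℝ) ^ 2 + (y : ℝ) ^ 2) / a j ^ 2) (n : ℕ) :
    ∀ (J : ℕ) (x y : ℤ), kil (stages S J n) (fun _ _ => 1) x y ≤
      (∏ i ∈ Finset.range n, (1 - h (J + i) / 2)) *
        (1 + 4 * h J * ((x : ℝ) ^ 2 + (y : ℝ) ^ 2) / a J ^ 2) := by
  induction n with
  | zero =>
    intro J x y
    have : kil (stages S J 0) (fun _ _ => 1) x y = 1 := rfl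
    rw [this, Finset.prod_range_zero, one_mul]
    have := h0 J
    have : 0 ≤ 4 * h J * ((x : ℝ) ^ 2 + (y : ℝ) ^ 2) / a J ^ 2 := by positivity
    linarith
  | succ n ih =>
    intro J x y
    show kil (S J ++ stages S (J + 1) n) (fun _ _ => 1) x y ≤ _
    rw [kil_append]
    set P : ℝ := ∏ i ∈ Finset.range n, (1 - h (J + 1 + i) / 2) with hP
    have hP0 : 0 ≤ P := Finset.prod_nonneg fun i _ => by have := h1 (J + 1 + i); linarith
    have e1 : ∀ x y : ℤ, kil (stages S (J + 1) n) (fun _ _ => 1) x y ≤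
        P * (fun _ _ => (1 : ℝ)) x y + (P * (4 * h (J + 1) / a (J + 1) ^ 2)) *
          (fun x y : ℤ => (x : ℝ) ^ 2 + (y : ℝ) ^ 2) x y := by
      intro x y
      refine (ih (J + 1) x y).trans (le_of_eq ?_)
      ring
    refine (kil_mono (S J) e1 x y).trans ?_
    rw [kil_lin (S J) P (P * (4 * h (J + 1) / a (J + 1) ^ 2)) (fun _ _ => (1 : ℝ))
      (fun x y : ℤ => (x : ℝ) ^ 2 + (y : ℝ) ^ 2) x y]
    have hsqb : kil (S J) (fun x y : ℤ => (x : ℝ) ^ 2 + (y : ℝ) ^ 2) x y ≤
        (x : ℝ) ^ 2 + (y : ℝ) ^ 2 + κ * a J ^ 2 := by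
      refine (kil_le_avl _ (fun a b => by positivity) _ _).trans ?_
      rw [avl_sq]
      have := hsq J
      linarith
    have hprod : (∏ i ∈ Finset.range (n + 1), (1 - h (J + i) / 2)) = (1 - h J / 2) * P := by
      rw [Finset.prod_range_succ', mul_comm]
      congr 1
      apply Finset.prod_congr rfl
      intro i _
      rw [show J + (i + 1) = J + 1 + i by ring]
    rw [hprod]
    set s : ℝ := ((x : ℝ) ^ 2 + (y : ℝ) ^ 2) / a J ^ 2 with hs
    have hs0 : 0 ≤ s := by have := ha J; positivity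
    have haJ := ha J
    have haJ1 := ha (J + 1)
    have hxy : (x : ℝ) ^ 2 + (y : ℝ) ^ 2 = s * a J ^ 2 := by
      rw [hs]; field_simp
    have hhJ := hhit J x y
    have hcoef : 4 * h (J + 1) / a (J + 1) ^ 2 ≤ 4 * h J / (ρ * a J ^ 2) := by
      have hρ0 : 0 < ρ := by linarith
      have e2 := hanti J
      have e3 := h0 J
      exact div_le_div₀ (by positivity) (by linarith) (by positivity) (hgrow J)
    have hkey : kil (S J) (fun _ _ => 1) x y + (4 * h (J + 1) / a (J + 1) ^ 2) *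
        kil (S J) (fun x y : ℤ => (x : ℝ) ^ 2 + (y : ℝ) ^ 2) x y ≤
        (1 - h J / 2) * (1 + 4 * h J * s) := by
      have hk0 : 0 ≤ kil (S J) (fun x y : ℤ => (x : ℝ) ^ 2 + (y : ℝ) ^ 2) x y :=
        kil_nonneg _ (fun a b => by positivity) _ _
      have hρ0 : 0 < ρ := by linarith
      have hhJ0 := h0 J
      have hhJ1 := h1 J
      calc kil (S J) (fun _ _ => 1) x y + (4 * h (J + 1) / a (J + 1) ^ 2) *
            kil (S J) (fun x y : ℤ => (x : ℝ) ^ 2 + (y : ℝ) ^ 2) x y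
          ≤ (1 - h J + h J * s) + (4 * h J / (ρ * a J ^ 2)) * (s * a J ^ 2 + κ * a J ^ 2) := by
            apply add_le_add
            · refine hhJ.trans (le_of_eq ?_)
              rw [hs]; ring
            · apply mul_le_mul hcoef _ hk0 (by positivity)
              rw [← hxy]; exact hsqb
        _ = 1 - h J + h J * s + (4 / ρ) * h J * s + (4 * κ / ρ) * h J := by
            field_simp
            ring
        _ ≤ 1 - h J + h J * s + 1 * h J * s + (1 / 2) * h J := by
            have c1 : 4 / ρ ≤ 1 := by rw [div_le_one hρ0]; exact hρ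
            have c2 : 4 * κ / ρ ≤ 1 / 2 := by rw [div_le_iff₀ hρ0]; linarith
            have c3 : (4 / ρ) * h J * s ≤ 1 * h J * s := by gcongr
            have c4 : (4 * κ / ρ) * h J ≤ (1 / 2) * h J := by gcongr
            linarith
        _ ≤ (1 - h J / 2) * (1 + 4 * h J * s) := by
            have : 0 ≤ h J * s * (1 - h J) := by
              apply mul_nonneg (mul_nonneg hhJ0 hs0); linarith
            nlinarith
    calc P * kil (S J) (fun _ _ => 1) x y + P * (4 * h (J + 1) / a (J + 1) ^ 2) *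
          kil (S J) (fun x y : ℤ => (x : ℝ) ^ 2 + (y : ℝ) ^ 2) x y
        = P * (kil (S J) (fun _ _ => 1) x y + (4 * h (J + 1) / a (J + 1) ^ 2) *
          kil (S J) (fun x y : ℤ => (x : ℝ) ^ 2 + (y : ℝ) ^ 2) x y) := by ring
      _ ≤ P * ((1 - h J / 2) * (1 + 4 * h J * s)) := mul_le_mul_of_nonneg_left hkey hP0
      _ = (1 - h J / 2) * P * (1 + 4 * h J * ((x : ℝ) ^ 2 + (y : ℝ) ^ 2) / a J ^ 2) := by
          rw [hs]; ring

end Pool.Agent.H89CRW
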