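import Pool.Agent.Helper89.CRW13

set_option autoImplicit false

open MeasureTheory Filter ProbabilityTheory

namespace Pool.Agent.H89CRW

/-! ### Patterns of concatenated lists -/

lemma pat_append_lt (l1 l2 : List ℕ) (n : ℕ) (h : n < l1.sum) : pat (l1 ++ l2) n = pat l1 n := by
  induction l1 generalizing n with
  | nil => simp at h
  | cons l ls ih =>
    rw [List.sum_cons] at h
    show pat (l :: (ls ++ l2)) n = pat (l :: ls) n
    simp only [pat]
    by_cases h0 : n = 0
    · simp [h0]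
    · by_cases h1 : n < l
      · simp [h0, h1]
      · simp only [h0, h1, if_false]
        exact ih (n - l) (by omega)

lemma pat_append_add (l1 l2 : List ℕ) (h : ∀ l ∈ l1, 1 ≤ l) (n : ℕ) :
    pat (l1 ++ l2) (l1.sum + n) = pat l2 n := by
  induction l1 with
  | nil => simp
  | cons l ls ih =>
    rw [List.sum_cons, List.cons_append, add_assoc, pat_cons_add l _ (h l (by simp))]
    exact ih (fun l' hl' => h l' (by simp [hl']))

lemma pat_append_le (l1 l2 : List ℕ) (h : ∀ l ∈ l1, 1 ≤ l) (n : ℕ) (hn : n ≤ l1.sum) :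
    pat (l1 ++ l2) n = pat l1 n := by
  rcases Nat.lt_or_eq_of_le hn with h1 | h1
  · exact pat_append_lt l1 l2 n h1
  · have e1 := pat_append_add l1 l2 h 0
    have e2 := pat_append_add l1 [] h 0
    rw [List.append_nil] at e2
    rw [add_zero, pat_zero] at e1 e2
    rw [h1, e1, e2]

lemma stages_add (S : ℕ → List ℕ) (J a b : ℕ) :
    stages S J (a + b) = stages S J a ++ stages S (J + a) b := by
  induction a generalizing J with
  | zero => simp [stages]
  | succ a ih =>
    rw [show a + 1 + b = (a + b) + 1 by ring]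
    show S J ++ stages S (J + 1) (a + b) = (S J ++ stages S (J + 1) a) ++ _
    rw [ih (J + 1), List.append_assoc, show J + 1 + a = J + (a + 1) by ring]

lemma stages_mem (S : ℕ → List ℕ) (h : ∀ j, ∀ l ∈ S j, 1 ≤ l) (J n : ℕ) :
    ∀ l ∈ stages S J n, 1 ≤ l := by
  induction n generalizing J with
  | zero => intro l hl; simp [stages] at hl
  | succ n ih =>
    intro l hl
    have hl' : l ∈ S J ++ stages S (J + 1) n := hl
    rw [List.mem_append] at hl'
    rcases hl' with hl' | hl'
    · exact h J l hl'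
    · exact ih (J + 1) l hl'

lemma stages_sum_ge (S : ℕ → List ℕ) (h : ∀ j, 1 ≤ (S j).sum) (J n : ℕ) :
    n ≤ (stages S J n).sum := by
  induction n generalizing J with
  | zero => exact Nat.zero_le _
  | succ n ih =>
    show n + 1 ≤ (S J ++ stages S (J + 1) n).sum
    rw [List.sum_append]
    have := ih (J + 1)
    have := h J
    omega

/-- the resampling probabilities attached to a sequence of stages -/
noncomputable def prob (S : ℕ → List ℕ) (n : ℕ) : ℝ :=
  if pat (stages S 0 (n + 1)) n = true then 1 else 0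

lemma pat_stable (S : ℕ → List ℕ) (h : ∀ j, ∀ l ∈ S j, 1 ≤ l) (h' : ∀ j, 1 ≤ (S j).sum)
    (N n : ℕ) (hn : n ≤ (stages S 0 N).sum) :
    pat (stages S 0 (n + 1)) n = pat (stages S 0 N) n := by
  have h1 : n ≤ (stages S 0 (n + 1)).sum := (Nat.le_succ n).trans (stages_sum_ge S h' 0 (n + 1))
  have e1 : pat (stages S 0 (N + (n + 1))) n = pat (stages S 0 N) n := by
    rw [stages_add]; exact pat_append_le _ _ (stages_mem S h 0 N) n hn
  have e2 : pat (stages S 0 ((n + 1) + N)) n = pat (stages S 0 (n + 1)) n := by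
    rw [stages_add]; exact pat_append_le _ _ (stages_mem S h 0 (n + 1)) n h1
  rw [← e2, add_comm (n + 1) N, e1]

lemma prob_mem (S : ℕ → List ℕ) (n : ℕ) : 0 ≤ prob S n ∧ prob S n ≤ 1 := by
  unfold prob; split_ifs <;> norm_num

lemma follows_prob (S : ℕ → List ℕ) (h : ∀ j, ∀ l ∈ S j, 1 ≤ l) (h' : ∀ j, 1 ≤ (S j).sum)
    (u : ℕ → unitInterval) (hu : ∀ n, 0 < ((u n : unitInterval) : ℝ)) (N : ℕ) :
    Follows (prob S) u (stages S 0 N) := by
  intro n _ hn
  unfold prob
  rw [pat_stable S h h' N n hn]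
  split_ifs with hc
  · exact ⟨fun _ => hc, fun _ => (u n).2.2⟩
  · exact ⟨fun hle => absurd hle (not_le.2 (hu n)), fun hc' => absurd hc' hc⟩

lemma ae_pos_u : ∀ᵐ u ∂(Measure.infinitePi (fun _ : ℕ => (volume : Measure unitInterval))),
    ∀ n, 0 < ((u n : unitInterval) : ℝ) := by
  rw [ae_all_iff]
  intro n
  have h := measure_res (fun _ => 0) n zero_le_one
  rw [ENNReal.ofReal_zero] at h
  rw [ae_iff]
  refine measure_mono_null ?_ h
  intro u hu
  exact not_lt.1 hu

/-- comparison of the patterns of two sequences of stages -/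
lemma pat_le_stages (S S' : ℕ → List ℕ) (h : ∀ j, ∀ l ∈ S j, 1 ≤ l) (h' : ∀ j, ∀ l ∈ S' j, 1 ≤ l)
    (hsum : ∀ j, (S' j).sum = (S j).sum)
    (hle : ∀ j n, n < (S j).sum → pat (S' j) n = true → pat (S j) n = true) (N : ℕ) :
    ∀ J n, pat (stages S' J N) n = true → pat (stages S J N) n = true := by
  induction N with
  | zero => intro J n _; rfl
  | succ N ih =>
    intro J n hn
    have hn' : pat (S' J ++ stages S' (J + 1) N) n = true := hn
    show pat (S J ++ stages S (J + 1) N) n = true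
    by_cases hlt : n < (S J).sum
    · rw [pat_append_lt _ _ n hlt]
      rw [pat_append_lt _ _ n (by rw [hsum]; exact hlt)] at hn'
      exact hle J n hlt hn'
    · obtain ⟨m, rfl⟩ := Nat.exists_eq_add_of_le (not_lt.1 hlt)
      rw [pat_append_add _ _ (h J)]
      rw [← hsum, pat_append_add _ _ (h' J)] at hn'
      exact ih (J + 1) m hn'

lemma pat_ones (W n : ℕ) : pat (List.replicate W 1) n = true := by
  induction W generalizing n with
  | zero => rfl
  | succ W ih =>
    rw [List.replicate_succ]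
    simp only [pat]
    by_cases h0 : n = 0
    · simp [h0]
    · have h1 : ¬ n < 1 := by omega
      simp only [h0, h1, if_false]
      exact ih (n - 1)

/-! ### Parameters -/

def ell (j : ℕ) : ℕ := Nat.log 2 (j + 2) + 1
def kk (j : ℕ) : ℕ := Nat.clog 2 (2 ^ 15 * ell j)
def aa (j : ℕ) : ℕ := 2 ^ (20 + 10 * j)
def mm (j : ℕ) : ℕ := 2 ^ (20 + 10 * j - kk j)
def nn (j : ℕ) : ℕ := 256 * mm j ^ 2

lemma ell_pos (j : ℕ) : 1 ≤ ell j := by unfold ell; omega

lemma lt_two_pow_ell (j : ℕ) : j + 2 < 2 ^ ell j := Nat.lt_pow_succ_log_self (by norm_num) _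

lemma ell_le (j : ℕ) : ell j ≤ j + 2 := by
  unfold ell
  have : Nat.log 2 (j + 2) < j + 2 := Nat.log_lt_self 2 (by omega)
  omega

lemma ell_mono (j : ℕ) : ell j ≤ ell (j + 1) := by
  unfold ell
  have := Nat.log_mono_right (b := 2) (show j + 2 ≤ j + 1 + 2 by omega)
  omega

lemma le_kk (j : ℕ) : 2 ^ 15 * ell j ≤ 2 ^ kk j := Nat.le_pow_clog (by norm_num) _

lemma kk_lt (j : ℕ) : 2 ^ kk j < 2 ^ 16 * ell j := by
  have h0 := ell_pos j
  have h1 : 1 < 2 ^ 15 * ell j := by
    have h15 : 1 < 2 ^ 15 := by norm_num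
    calc 1 < 2 ^ 15 := h15
      _ ≤ 2 ^ 15 * ell j := Nat.le_mul_of_pos_right _ h0
  have h := Nat.pow_pred_clog_lt_self (b := 2) (by norm_num) h1
  have hk : 1 ≤ kk j := by
    unfold kk
    exact Nat.clog_pos (by norm_num) h1
  obtain ⟨c, hc⟩ : ∃ c, kk j = c + 1 := ⟨kk j - 1, by omega⟩
  have e : Nat.clog 2 (2 ^ 15 * ell j) = c + 1 := hc
  rw [e, Nat.pred_succ] at h
  rw [hc, pow_succ]
  omega

lemma kk_le (j : ℕ) : kk j ≤ 20 + 10 * j := by
  have h1 := kk_lt j
  have h2 := ell_le j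
  have h3 : j + 2 < 2 ^ (j + 2) := Nat.lt_two_pow_self
  have h4 : 2 ^ kk j < 2 ^ (18 + j) := by
    calc 2 ^ kk j < 2 ^ 16 * ell j := h1
      _ ≤ 2 ^ 16 * 2 ^ (j + 2) := by
          have h6 : ell j ≤ 2 ^ (j + 2) := by omega
          gcongr
      _ = 2 ^ (18 + j) := by rw [← pow_add]; congr 1; ring
  have h5 : kk j < 18 + j := (Nat.pow_lt_pow_iff_right (by norm_num)).1 h4
  omega

lemma aa_eq (j : ℕ) : aa j = 2 ^ kk j * mm j := by
  have h := kk_le j
  have e : 20 + 10 * j = kk j + (20 + 10 * j - kk j) := by omega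
  unfold aa mm
  rw [← pow_add, ← e]

lemma mm_pos (j : ℕ) : 1 ≤ mm j := Nat.one_le_two_pow

lemma two_pow_kk_le (j : ℕ) : 2 ^ kk j ≤ aa j := by
  rw [aa_eq]; exact Nat.le_mul_of_pos_right _ (mm_pos j)

lemma nn_ge (j : ℕ) : 8 * (4 * mm j + 1) ^ 2 ≤ nn j := by
  unfold nn
  have := mm_pos j
  nlinarith

/-- stages of the second walk -/
def SB (j : ℕ) : List ℕ := stg (aa j) (kk j) (nn j)

/-- window length -/
def WW (j : ℕ) : ℕ := (fine (kk j)).sum + (nn j + 2) * 2 ^ kk j

/-- stages of the first walk -/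
def SA (j : ℕ) : List ℕ := aa j :: List.replicate (WW j) 1

lemma aa_pos (j : ℕ) : 1 ≤ aa j := Nat.one_le_two_pow

lemma SA_pos (j : ℕ) : ∀ l ∈ SA j, 1 ≤ l := by
  intro l hl
  unfold SA at hl
  rw [List.mem_cons] at hl
  rcases hl with rfl | hl
  · exact aa_pos j
  · rw [List.mem_replicate] at hl; omega

lemma SB_pos (j : ℕ) : ∀ l ∈ SB j, 1 ≤ l := by
  intro l hl
  unfold SB stg at hl
  rw [List.mem_cons, List.mem_append] at hl
  rcases hl with rfl | hl | hl
  · exact aa_pos j
  · exact fine_pos _ _ hl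
  · rw [List.mem_replicate] at hl
    rw [hl.2]; exact Nat.one_le_two_pow

lemma SB_sum (j : ℕ) : (SB j).sum = (SA j).sum := by
  unfold SB SA stg WW
  rw [List.sum_cons, List.sum_append, List.sum_replicate, List.sum_cons, List.sum_replicate]
  simp

lemma SA_sum (j : ℕ) : (SA j).sum = aa j + WW j := by
  unfold SA
  rw [List.sum_cons, List.sum_replicate]; simp

lemma SA_sum_pos (j : ℕ) : 1 ≤ (SA j).sum := by
  rw [SA_sum]; have := aa_pos j; omega

lemma SB_sum_pos (j : ℕ) : 1 ≤ (SB j).sum := by rw [SB_sum]; exact SA_sum_pos j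

lemma pat_SA (j n : ℕ) (h : aa j ≤ n) : pat (SA j) n = true := by
  unfold SA
  obtain ⟨m, rfl⟩ := Nat.exists_eq_add_of_le h
  rw [pat_cons_add _ _ (aa_pos j), pat_ones]

lemma pat_SB_SA (j n : ℕ) (h : pat (SB j) n = true) : pat (SA j) n = true := by
  rcases Nat.eq_zero_or_pos n with h0 | h0
  · subst h0; exact pat_zero _
  · by_cases h1 : n < aa j
    · exfalso
      unfold SB stg at h
      rw [pat_cons_lt _ _ n h0 h1] at h
      exact Bool.false_ne_true h
    · exact pat_SA j n (not_lt.1 h1)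

/-- the second sequence is pointwise smaller -/
lemma prob_le (n : ℕ) : prob SB n ≤ prob SA n := by
  unfold prob
  by_cases h : pat (stages SB 0 (n + 1)) n = true
  · have := pat_le_stages SA SB SA_pos SB_pos SB_sum (fun j n _ => pat_SB_SA j n) (n + 1) 0 n h
    rw [if_pos h, if_pos this]
  · rw [if_neg h]
    split_ifs <;> norm_num

end Pool.Agent.H89CRW
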