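import Pool.Agent.Helper89.CRW14

set_option autoImplicit false

open MeasureTheory Filter ProbabilityTheory

namespace Pool.Agent.H89CRW

/-! ### The second walk returns to the origin infinitely often -/

lemma aa_le (j : ℕ) : 1 ≤ aa j := aa_pos j

/-- lower bound of the probability of a return during stage `j` -/
noncomputable def hj (j : ℕ) : ℝ := 1 / (2 ^ 31 * (ell j : ℝ) * ((j : ℝ) + 1))

lemma hj_nonneg (j : ℕ) : 0 ≤ hj j := by unfold hj; positivity

lemma hj_le_one (j : ℕ) : hj j ≤ 1 := by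
  unfold hj
  have h1 : (1 : ℝ) ≤ ell j := by exact_mod_cast ell_pos j
  have h2 : (0 : ℝ) ≤ j := Nat.cast_nonneg j
  rw [div_le_one (by positivity)]
  nlinarith [mul_nonneg (show (0 : ℝ) ≤ (ell j : ℝ) - 1 by linarith) h2]

lemma hj_anti (j : ℕ) : hj (j + 1) ≤ hj j := by
  unfold hj
  have h1 : (1 : ℝ) ≤ ell j := by exact_mod_cast ell_pos j
  have h3 : (ell j : ℝ) ≤ ell (j + 1) := by exact_mod_cast ell_mono j
  have h2 : (0 : ℝ) ≤ j := Nat.cast_nonneg j
  apply one_div_le_one_div_of_le (by positivity)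
  push_cast
  gcongr
  linarith

lemma log_nn_le (j : ℕ) : 1 + Real.log ((nn j : ℝ) + 1) ≤ 50 * ((j : ℝ) + 1) := by
  have h1 : (nn j : ℝ) + 1 ≤ 2 ^ (49 + 20 * j) := by
    have h2 : mm j ≤ 2 ^ (20 + 10 * j) := Nat.pow_le_pow_right (by norm_num) (Nat.sub_le _ _)
    have h3 : nn j + 1 ≤ 2 ^ (49 + 20 * j) := by
      unfold nn
      calc 256 * mm j ^ 2 + 1 ≤ 256 * (2 ^ (20 + 10 * j)) ^ 2 + 1 := by gcongr
        _ = 2 ^ (48 + 20 * j) + 1 := by
          rw [← pow_mul, show (256 : ℕ) = 2 ^ 8 by norm_num, ← pow_add]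
          ring_nf
        _ ≤ 2 ^ (48 + 20 * j) + 2 ^ (48 + 20 * j) := by
          have := Nat.one_le_two_pow (n := 48 + 20 * j)
          omega
        _ = 2 ^ (49 + 20 * j) := by rw [show 49 + 20 * j = (48 + 20 * j) + 1 by ring, pow_succ]; ring
    exact_mod_cast h3
  have h4 : Real.log ((nn j : ℝ) + 1) ≤ (49 + 20 * j : ℕ) * Real.log 2 := by
    rw [← Real.log_pow]
    exact Real.log_le_log (by positivity) h1
  have h5 : Real.log 2 ≤ 1 := by
    have := Real.log_two_lt_d9
    linarith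
  have h6 : ((49 + 20 * j : ℕ) : ℝ) * Real.log 2 ≤ ((49 + 20 * j : ℕ) : ℝ) * 1 :=
    mul_le_mul_of_nonneg_left h5 (Nat.cast_nonneg _)
  push_cast at h4 h6
  have h7 : (0 : ℝ) ≤ j := Nat.cast_nonneg j
  linarith

lemma hj_le (j : ℕ) : hj j ≤ 1 / (512 * 2 ^ kk j * (1 + Real.log ((nn j : ℝ) + 1))) := by
  unfold hj
  have hlog : 0 ≤ Real.log ((nn j : ℝ) + 1) := Real.log_nonneg (by
    have : (0 : ℝ) ≤ nn j := Nat.cast_nonneg _
    linarith)
  apply one_div_le_one_div_of_le (by positivity)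
  have h1 : ((2 : ℝ) ^ kk j) ≤ 2 ^ 16 * ell j := by exact_mod_cast (kk_lt j).le
  have h2 := log_nn_le j
  calc 512 * 2 ^ kk j * (1 + Real.log ((nn j : ℝ) + 1))
      ≤ 512 * (2 ^ 16 * (ell j : ℝ)) * (50 * ((j : ℝ) + 1)) := by gcongr
    _ = (512 * 2 ^ 16 * 50) * ((ell j : ℝ) * ((j : ℝ) + 1)) := by ring
    _ ≤ 2 ^ 31 * ((ell j : ℝ) * ((j : ℝ) + 1)) := by
        apply mul_le_mul_of_nonneg_right (by norm_num) (by positivity)
    _ = _ := by ring

lemma hhit_SB (j : ℕ) (x y : ℤ) : kil (SB j) (fun _ _ => 1) x y ≤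
    1 - hj j + hj j * ((x : ℝ) ^ 2 + (y : ℝ) ^ 2) / (aa j : ℝ) ^ 2 := by
  have h0 := hj_nonneg j
  have ha : (0 : ℝ) < aa j := by exact_mod_cast aa_pos j
  by_cases h : |x| ≤ aa j ∧ |y| ≤ aa j
  · have h1 := stage_hit (aa j) (kk j) (nn j) (mm j) (mm_pos j) (aa_eq j) (nn_ge j) x y h.1 h.2
    have h2 := hj_le j
    have h3 : 0 ≤ hj j * ((x : ℝ) ^ 2 + (y : ℝ) ^ 2) / (aa j : ℝ) ^ 2 := by positivity
    unfold SB
    linarith
  · have h1 : (aa j : ℝ) ^ 2 ≤ (x : ℝ) ^ 2 + (y : ℝ) ^ 2 := by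
      have h2 : (aa j : ℤ) < |x| ∨ (aa j : ℤ) < |y| := by
        by_contra hcon
        push Not at hcon
        exact h hcon
      rcases h2 with h2 | h2
      · have h3 : (aa j : ℝ) ≤ |(x : ℝ)| := by exact_mod_cast h2.le
        have h4 : (aa j : ℝ) ^ 2 ≤ |(x : ℝ)| ^ 2 := by gcongr
        rw [sq_abs] at h4
        nlinarith [sq_nonneg (y : ℝ)]
      · have h3 : (aa j : ℝ) ≤ |(y : ℝ)| := by exact_mod_cast h2.le
        have h4 : (aa j : ℝ) ^ 2 ≤ |(y : ℝ)| ^ 2 := by gcongr
        rw [sq_abs] at h4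
        nlinarith [sq_nonneg (x : ℝ)]
    have h2 : 1 ≤ ((x : ℝ) ^ 2 + (y : ℝ) ^ 2) / (aa j : ℝ) ^ 2 := by
      rw [one_le_div (by positivity)]; exact h1
    have h3 := kil_one_le (SB j) x y
    have h4 : hj j ≤ hj j * ((x : ℝ) ^ 2 + (y : ℝ) ^ 2) / (aa j : ℝ) ^ 2 := by
      rw [mul_div_assoc]
      exact le_mul_of_one_le_right h0 h2
    linarith

lemma hsq_SB (j : ℕ) : ((SB j).map (fun l : ℕ => (l : ℝ) ^ 2)).sum ≤ 512 * (aa j : ℝ) ^ 2 := by
  unfold SB stg
  rw [List.map_cons, List.sum_cons, List.map_append, List.sum_append, List.map_replicate,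
    List.sum_replicate, nsmul_eq_mul]
  have h1 := fine_sq (kk j)
  have h2 : ((2 : ℝ) ^ kk j) ≤ aa j := by exact_mod_cast two_pow_kk_le j
  have h3 : ((2 : ℝ) ^ kk j) ^ 2 ≤ (aa j : ℝ) ^ 2 := by gcongr
  have h4 : (aa j : ℝ) = 2 ^ kk j * mm j := by exact_mod_cast aa_eq j
  have h5 : ((nn j : ℕ) : ℝ) * ((2 : ℝ) ^ kk j) ^ 2 = 256 * (aa j : ℝ) ^ 2 := by
    unfold nn
    push_cast
    rw [h4]; ring
  push_cast
  nlinarith

lemma not_summable_hj : ¬ Summable hj := by
  have hcond : ¬ Summable (fun k : ℕ => (2 : ℝ) ^ k * hj (2 ^ k)) := by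
    intro hs
    have h1 : Summable (fun k : ℕ => 1 / (((k + 3 : ℕ) : ℝ))) := by
      refine Summable.of_nonneg_of_le (fun k => by positivity) (fun k => ?_) (hs.mul_left (2 ^ 32))
      unfold hj
      have hl : (ell (2 ^ k) : ℝ) ≤ ((k + 3 : ℕ) : ℝ) := by
        have : ell (2 ^ k) ≤ k + 3 := by
          unfold ell
          have h2 : 2 ^ k + 2 < 2 ^ (k + 2) := by
            have := Nat.one_le_two_pow (n := k)
            rw [pow_add]; omega
          have hne : 2 ^ k + 2 ≠ 0 := by positivity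
          have h4 : Nat.log 2 (2 ^ k + 2) < k + 2 := Nat.log_lt_of_lt_pow hne h2
          omega
        exact_mod_cast this
      have hl0 : (0 : ℝ) < ell (2 ^ k) := by exact_mod_cast ell_pos _
      have h2 : (1 : ℝ) ≤ 2 ^ k := one_le_pow₀ (by norm_num)
      push_cast
      have h3 : (2 : ℝ) ^ 32 * (2 ^ k * (1 / (2 ^ 31 * (ell (2 ^ k) : ℝ) * (2 ^ k + 1)))) =
          (2 * 2 ^ k) / ((ell (2 ^ k) : ℝ) * (2 ^ k + 1)) := by
        field_simp
      rw [h3, div_le_div_iff₀ (by positivity) (by positivity)]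
      push_cast at hl
      nlinarith
    have h2 : Summable (fun k : ℕ => 1 / (k : ℝ)) :=
      (summable_nat_add_iff (f := fun k : ℕ => 1 / (k : ℝ)) 3).1 h1
    exact Real.not_summable_one_div_natCast h2
  rw [← summable_condensed_iff_of_nonneg hj_nonneg]
  · exact hcond
  · intro m n _ hmn
    exact antitone_nat_of_succ_le hj_anti hmn

lemma tendsto_prod (J : ℕ) :
    Tendsto (fun n => ∏ i ∈ Finset.range n, (1 - hj (J + i) / 2)) atTop (nhds 0) := by
  have h1 : ¬ Summable (fun i => hj (i + J)) := fun h => not_summable_hj ((summable_nat_add_iff J).1 h)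
  rw [not_summable_iff_tendsto_nat_atTop_of_nonneg (fun n => hj_nonneg _)] at h1
  have h2 : Tendsto (fun n => Real.exp (-((∑ i ∈ Finset.range n, hj (i + J)) / 2))) atTop (nhds 0) := by
    apply Real.tendsto_exp_atBot.comp
    apply Filter.tendsto_neg_atTop_atBot.comp
    exact h1.atTop_div_const (by norm_num)
  refine squeeze_zero (fun n => ?_) (fun n => ?_) h2
  · exact Finset.prod_nonneg fun i _ => by have := hj_le_one (J + i); linarith
  · rw [Finset.sum_div, ← Finset.sum_neg_distrib, Real.exp_sum]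
    apply Finset.prod_le_prod
    · intro i _; have := hj_le_one (J + i); linarith
    · intro i _
      have := Real.add_one_le_exp (-(hj (i + J) / 2))
      rw [add_comm i J] at this ⊢
      linarith

theorem avl_tendsto (J : ℕ) (l1 : List ℕ) :
    Tendsto (fun n => avl l1 (kil (stages SB J n) (fun _ _ => 1)) 0 0) atTop (nhds 0) := by
  set C : ℝ := 1 + 4 * hj J / (aa J : ℝ) ^ 2 * (l1.map (fun l : ℕ => (l : ℝ) ^ 2)).sum with hC
  have ha : ∀ j, (0 : ℝ) < aa j := fun j => by exact_mod_cast aa_pos j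
  have h1 : Tendsto (fun n => (∏ i ∈ Finset.range n, (1 - hj (J + i) / 2)) * C) atTop (nhds (0 * C)) :=
    (tendsto_prod J).mul_const C
  rw [zero_mul] at h1
  refine squeeze_zero (fun n => ?_) (fun n => ?_) h1
  · have : ∀ (l1 : List ℕ) x y, 0 ≤ avl l1 (kil (stages SB J n) (fun _ _ => 1)) x y := by
      intro l1
      induction l1 with
      | nil => intro x y; exact kil_nonneg _ (fun _ _ => zero_le_one) _ _
      | cons l ls ih =>
        intro x y
        rw [avl_cons]; unfold astep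
        have h1 := ih (x + l) y
        have h2 := ih (x - l) y
        have h3 := ih x (y + l)
        have h4 := ih x (y - l)
        linarith
    exact this l1 0 0
  · set P := ∏ i ∈ Finset.range n, (1 - hj (J + i) / 2) with hP
    have h2 : ∀ x y : ℤ, kil (stages SB J n) (fun _ _ => 1) x y ≤
        P * (fun _ _ => (1 : ℝ)) x y + (P * (4 * hj J / (aa J : ℝ) ^ 2)) *
          (fun x y : ℤ => (x : ℝ) ^ 2 + (y : ℝ) ^ 2) x y := by
      intro x y
      have := lyapunov SB (fun j => (aa j : ℝ)) hj (2 ^ 20) 512 ha (by norm_num) (by norm_num)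
        (by norm_num) (fun j => by
          unfold aa
          push_cast
          rw [show 20 + 10 * (j + 1) = (20 + 10 * j) + 10 by ring, pow_add _ (20 + 10 * j) 10]
          apply le_of_eq; ring) hj_nonneg hj_le_one hj_anti hsq_SB hhit_SB n J x y
      refine this.trans (le_of_eq ?_)
      ring
    refine (avl_mono l1 h2 0 0).trans (le_of_eq ?_)
    rw [avl_lin l1 P (P * (4 * hj J / (aa J : ℝ) ^ 2)) (fun _ _ => (1 : ℝ))
      (fun x y : ℤ => (x : ℝ) ^ 2 + (y : ℝ) ^ 2), avl_one, avl_sq, hC]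
    simp only [Int.cast_zero]
    ring

/-- the second walk is almost surely at the origin infinitely often -/
theorem ae_returns (u : ℕ → unitInterval) (hu : ∀ n, 0 < ((u n : unitInterval) : ℝ)) :
    ∀ᵐ v ∂(iid 2), ∀ J : ℕ, ∃ n, J ≤ n ∧ pos (prob SB) u v n = 0 := by
  rw [ae_all_iff]
  intro J
  have hsumJ : J ≤ (stages SB 0 J).sum := stages_sum_ge SB SB_sum_pos 0 J
  have h1 : ∀ n, iid 2 {v | ∀ m, (stages SB 0 J).sum < m → pos (prob SB) u v m ≠ 0} ≤
      ENNReal.ofReal (avl (stages SB 0 J) (kil (stages SB J n) (fun _ _ => 1)) 0 0) := by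
    intro n
    have hf : Follows (prob SB) u (stages SB 0 J ++ stages SB J n) := by
      have := follows_prob SB SB_pos SB_sum_pos u hu (J + n)
      rw [stages_add, zero_add] at this
      exact this
    refine le_trans (measure_mono ?_) (measure_avl (stages SB J n) (stages_mem SB SB_pos J n)
      (stages SB 0 J) (stages_mem SB SB_pos 0 J) (prob SB) u hf 0 0)
    intro v hv m hm _ hcon
    apply hv m hm
    funext i
    fin_cases i
    · have := hcon.1; simpa using this
    · have := hcon.2; simpa using this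
  have h2 : Tendsto (fun n => ENNReal.ofReal (avl (stages SB 0 J)
      (kil (stages SB J n) (fun _ _ => 1)) 0 0)) atTop (nhds 0) := by
    have := ENNReal.tendsto_ofReal (avl_tendsto J (stages SB 0 J))
    rwa [ENNReal.ofReal_zero] at this
  have h3 : iid 2 {v | ∀ m, (stages SB 0 J).sum < m → pos (prob SB) u v m ≠ 0} = 0 :=
    le_antisymm (ge_of_tendsto' h2 h1) bot_le
  rw [ae_iff]
  refine measure_mono_null ?_ h3
  intro v hv m hm hcon
  exact hv ⟨m, by omega, hcon⟩

/-- the second walk is not strongly transient -/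
theorem not_stronglyTransient_SB : ¬ StronglyTransient 2 (prob SB) := by
  intro h
  unfold StronglyTransient driving at h
  have hmeas : MeasurableSet {ω : (ℕ → unitInterval) × (ℕ → Dir 2) |
      Tendsto (fun n => enorm2 (pos (prob SB) ω.1 ω.2 n)) atTop atTop} :=
    measurableSet_tendsto _ (fun n => measurable_enorm_pos (prob SB) n)
  rw [Measure.ae_prod_iff_ae_ae hmeas] at h
  obtain ⟨u, hu1, hu2⟩ := (h.and ae_pos_u).exists
  obtain ⟨v, hv1, hv2⟩ := (hu1.and (ae_returns u hu2)).exists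
  obtain ⟨N, hN⟩ := Filter.eventually_atTop.1 (hv1.eventually_gt_atTop 0)
  obtain ⟨n, hn1, hn2⟩ := hv2 N
  have h1 := hN n hn1
  simp only at h1
  rw [hn2] at h1
  unfold enorm2 at h1
  simp at h1

end Pool.Agent.H89CRW
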