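import Pool.Agent.Helper89.CRW15

set_option autoImplicit false

open MeasureTheory Filter ProbabilityTheory

namespace Pool.Agent.H89CRW

/-! ### Two estimates for simple random walk in a window -/

/-- maximal exponential inequality -/
lemma disp (φ : Dir 2 → ℤ) (lam : ℝ) (hlam : 0 ≤ lam)
    (hφ : Real.exp (lam * φ (0, true)) + Real.exp (lam * φ (0, false)) +
      Real.exp (lam * φ (1, true)) + Real.exp (lam * φ (1, false)) ≤ 4 * Real.exp (lam ^ 2 / 2))
    (A : ℝ) (W : ℕ) : ∀ x : ℤ,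
    iid 2 {v | ∃ t ≤ W, A ≤ x + ∑ s ∈ Finset.range t, ((φ (v s) : ℤ) : ℝ)} ≤
      ENNReal.ofReal (Real.exp (lam * (x - A) + W * lam ^ 2 / 2)) := by
  have htriv : ∀ (W : ℕ) (x : ℤ), A ≤ x →
      iid 2 {v | ∃ t ≤ W, A ≤ x + ∑ s ∈ Finset.range t, ((φ (v s) : ℤ) : ℝ)} ≤
      ENNReal.ofReal (Real.exp (lam * (x - A) + W * lam ^ 2 / 2)) := by
    intro W x hx
    refine prob_le_one.trans ?_
    rw [← ENNReal.ofReal_one]
    apply ENNReal.ofReal_le_ofReal
    apply Real.one_le_exp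
    have : 0 ≤ lam * (x - A) := mul_nonneg hlam (by linarith)
    positivity
  induction W with
  | zero =>
    intro x
    by_cases hx : A ≤ x
    · exact htriv 0 x hx
    · have : {v : ℕ → Dir 2 | ∃ t ≤ 0, A ≤ x + ∑ s ∈ Finset.range t, ((φ (v s) : ℤ) : ℝ)} = ∅ := by
        ext v
        simp only [Set.mem_ofPred_eq, Set.mem_empty_iff_false, iff_false, not_exists, not_and]
        intro t ht
        have : t = 0 := by omega
        subst this
        simpa using not_le.1 hx
      rw [this]; simp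
  | succ W ih =>
    intro x
    by_cases hx : A ≤ x
    · exact htriv (W + 1) x hx
    · refine (measure_le_cons 2 _).trans ?_
      have h1 : ∀ e : Dir 2, iid 2 {v | consSeq e v ∈ {v : ℕ → Dir 2 | ∃ t ≤ W + 1,
          A ≤ x + ∑ s ∈ Finset.range t, ((φ (v s) : ℤ) : ℝ)}} ≤
          ENNReal.ofReal (Real.exp (lam * (((x + φ e : ℤ) : ℝ) - A) + W * lam ^ 2 / 2)) := by
        intro e
        refine le_trans (measure_mono ?_) (ih (x + φ e))
        rintro v ⟨t, ht, hA⟩
        cases t with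
        | zero => exact absurd (by simpa using hA) hx
        | succ t =>
          refine ⟨t, by omega, ?_⟩
          rw [Finset.sum_range_succ'] at hA
          have : ∑ s ∈ Finset.range t, ((φ (consSeq e v (s + 1)) : ℤ) : ℝ) =
              ∑ s ∈ Finset.range t, ((φ (v s) : ℤ) : ℝ) := rfl
          rw [this] at hA
          have h0 : consSeq e v 0 = e := rfl
          rw [h0] at hA
          push_cast
          linarith
      refine (Finset.sum_le_sum (fun e _ => mul_le_mul' le_rfl (h1 e))).trans ?_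
      rw [sum_ofReal (fun e => Real.exp (lam * (((x + φ e : ℤ) : ℝ) - A) + W * lam ^ 2 / 2))
        (fun e => (Real.exp_pos _).le)]
      apply ENNReal.ofReal_le_ofReal
      have h2 : ∀ e : Dir 2, Real.exp (lam * (((x + φ e : ℤ) : ℝ) - A) + W * lam ^ 2 / 2) =
          Real.exp (lam * (x - A) + W * lam ^ 2 / 2) * Real.exp (lam * φ e) := by
        intro e
        rw [← Real.exp_add]; congr 1; push_cast; ring
      rw [h2, h2, h2, h2]
      have h3 : Real.exp (lam * (x - A) + ((W + 1 : ℕ) : ℝ) * lam ^ 2 / 2) =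
          Real.exp (lam * (x - A) + W * lam ^ 2 / 2) * Real.exp (lam ^ 2 / 2) := by
        rw [← Real.exp_add]; congr 1; push_cast; ring
      rw [h3]
      have h4 := mul_le_mul_of_nonneg_left hφ
        (Real.exp_pos (lam * (x - A) + W * lam ^ 2 / 2)).le
      linarith

lemma exp_sum_le (lam : ℝ) : Real.exp lam + Real.exp (-lam) + 1 + 1 ≤ 4 * Real.exp (lam ^ 2 / 2) := by
  have h1 := Real.cosh_le_exp_half_sq lam
  have h2 := Real.one_le_cosh lam
  rw [Real.cosh_eq] at h1 h2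
  linarith

lemma vec_exp (i : Fin 2) (σ : ℤ) (hσ : σ = 1 ∨ σ = -1) (lam : ℝ) :
    Real.exp (lam * ((σ * vec ((0, true) : Dir 2) i : ℤ) : ℝ)) +
    Real.exp (lam * ((σ * vec ((0, false) : Dir 2) i : ℤ) : ℝ)) +
    Real.exp (lam * ((σ * vec ((1, true) : Dir 2) i : ℤ) : ℝ)) +
    Real.exp (lam * ((σ * vec ((1, false) : Dir 2) i : ℤ) : ℝ)) ≤ 4 * Real.exp (lam ^ 2 / 2) := by
  have h := exp_sum_le lam
  fin_cases i
  · simp only [Fin.zero_eta, vec00, vec10, vec20, vec30]
    rcases hσ with rfl | rfl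
    · push_cast; simp only [mul_one, mul_neg, mul_zero, Real.exp_zero]; linarith
    · push_cast; simp only [mul_one, mul_neg, mul_zero, Real.exp_zero, neg_neg]; linarith
  · simp only [Fin.mk_one, vec01, vec11, vec21, vec31]
    rcases hσ with rfl | rfl
    · push_cast; simp only [mul_one, mul_neg, mul_zero, Real.exp_zero]; linarith
    · push_cast; simp only [mul_one, mul_neg, mul_zero, Real.exp_zero, neg_neg]; linarith

/-- large displacements in a window are unlikely -/
lemma disp_window (A : ℝ) (W : ℕ) (lam : ℝ) (hlam : 0 ≤ lam) :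
    iid 2 {v | ∃ i : Fin 2, ∃ t ≤ W, A ≤ |∑ s ∈ Finset.range t, ((vec (v s) i : ℤ) : ℝ)|} ≤
      ENNReal.ofReal (4 * Real.exp (-(lam * A) + W * lam ^ 2 / 2)) := by
  have hsub : {v : ℕ → Dir 2 | ∃ i : Fin 2, ∃ t ≤ W, A ≤ |∑ s ∈ Finset.range t, ((vec (v s) i : ℤ) : ℝ)|} ⊆
      ⋃ x ∈ (Finset.univ : Finset (Fin 2 × Bool)), {v : ℕ → Dir 2 | ∃ t ≤ W, A ≤ ((0 : ℤ) : ℝ) +
        ∑ s ∈ Finset.range t, (((if x.2 then 1 else -1) * vec (v s) x.1 : ℤ) : ℝ)} := by
    rintro v ⟨i, t, ht, hA⟩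
    rw [Set.mem_iUnion₂]
    rcases le_or_gt 0 (∑ s ∈ Finset.range t, ((vec (v s) i : ℤ) : ℝ)) with h | h
    · refine ⟨(i, true), Finset.mem_univ _, t, ht, ?_⟩
      rw [abs_of_nonneg h] at hA
      simpa using hA
    · refine ⟨(i, false), Finset.mem_univ _, t, ht, ?_⟩
      rw [abs_of_neg h] at hA
      simpa using hA
  refine (measure_mono hsub).trans ((measure_biUnion_finset_le _ _).trans ?_)
  have h1 : ∀ x ∈ (Finset.univ : Finset (Fin 2 × Bool)), iid 2 {v : ℕ → Dir 2 | ∃ t ≤ W,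
      A ≤ ((0 : ℤ) : ℝ) + ∑ s ∈ Finset.range t, (((if x.2 then 1 else -1) * vec (v s) x.1 : ℤ) : ℝ)} ≤
      ENNReal.ofReal (Real.exp (-(lam * A) + W * lam ^ 2 / 2)) := by
    intro x _
    have := disp (fun e => (if x.2 then 1 else -1) * vec e x.1) lam hlam
      (vec_exp x.1 _ (by split_ifs <;> simp) lam) A W 0
    refine this.trans (le_of_eq ?_)
    congr 2
    push_cast; ring
  refine (Finset.sum_le_sum h1).trans ?_
  rw [Finset.sum_const, nsmul_eq_mul, Finset.card_univ, Fintype.card_prod, Fintype.card_fin,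
    Fintype.card_bool, ← ENNReal.ofReal_natCast, ← ENNReal.ofReal_mul (by positivity)]
  apply le_of_eq
  congr 1

/-- a coordinate of simple random walk is spread out -/
lemma transv (i : Fin 2) (c : ℤ) (W : ℕ) : ∀ x : ℤ,
    iid 2 {v | x + ∑ s ∈ Finset.range W, vec (v s) i = c} ≤
      ENNReal.ofReal (bw (2 * W) (2 * (c - x))) := by
  induction W with
  | zero =>
    intro x
    by_cases h : x = c
    · have : bw (2 * 0) (2 * (c - x)) = 1 := by
        unfold bw; rw [if_pos (by omega)]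
      rw [this, ENNReal.ofReal_one]
      exact prob_le_one
    · have : {v : ℕ → Dir 2 | x + ∑ s ∈ Finset.range 0, vec (v s) i = c} = ∅ := by
        ext v
        simp only [Set.mem_ofPred_eq, Set.mem_empty_iff_false, iff_false]
        simpa using h
      rw [this]; simp
  | succ W ih =>
    intro x
    refine (measure_le_cons 2 _).trans ?_
    have h1 : ∀ e : Dir 2, iid 2 {v | consSeq e v ∈ {v : ℕ → Dir 2 |
        x + ∑ s ∈ Finset.range (W + 1), vec (v s) i = c}} ≤
        ENNReal.ofReal (bw (2 * W) (2 * (c - (x + vec e i)))) := by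
      intro e
      refine le_trans (measure_mono ?_) (ih (x + vec e i))
      intro v hv
      have hv' : x + ∑ s ∈ Finset.range (W + 1), vec (consSeq e v s) i = c := hv
      rw [Finset.sum_range_succ'] at hv'
      have : ∑ s ∈ Finset.range W, vec (consSeq e v (s + 1)) i =
          ∑ s ∈ Finset.range W, vec (v s) i := rfl
      rw [this] at hv'
      have h0 : consSeq e v 0 = e := rfl
      rw [h0] at hv'
      show x + vec e i + ∑ s ∈ Finset.range W, vec (v s) i = c
      linarith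
    refine (Finset.sum_le_sum (fun e _ => mul_le_mul' le_rfl (h1 e))).trans ?_
    rw [sum_ofReal (fun e => bw (2 * W) (2 * (c - (x + vec e i)))) (fun e => bw_nonneg _ _)]
    apply ENNReal.ofReal_le_ofReal
    apply le_of_eq
    have e1 : bw (2 * (W + 1)) (2 * (c - x)) =
        ((bw (2 * W) (2 * (c - x) - 1 - 1) + bw (2 * W) (2 * (c - x) - 1 + 1)) / 2 +
        (bw (2 * W) (2 * (c - x) + 1 - 1) + bw (2 * W) (2 * (c - x) + 1 + 1)) / 2) / 2 := rfl
    rw [e1]
    have a1 : 2 * (c - x) - 1 - 1 = 2 * (c - (x + 1)) := by ring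
    have a2 : 2 * (c - x) - 1 + 1 = 2 * (c - (x + 0)) := by ring
    have a3 : 2 * (c - x) + 1 - 1 = 2 * (c - (x + 0)) := by ring
    have a4 : 2 * (c - x) + 1 + 1 = 2 * (c - (x + -1)) := by ring
    rw [a1, a2, a3, a4]
    fin_cases i
    · simp only [Fin.zero_eta, vec00, vec10, vec20, vec30]; ring
    · simp only [Fin.mk_one, vec01, vec11, vec21, vec31]; ring

lemma transv_small (R : ℕ) (W : ℕ) (x : Fin 2 → ℤ) :
    iid 2 {v | ∃ i : Fin 2, |x i + ∑ s ∈ Finset.range W, vec (v s) i| ≤ (R : ℤ)} ≤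
      ENNReal.ofReal (2 * ((2 * R + 1) * (1 / Real.sqrt ((2 * W : ℕ) + 1)))) := by
  have hsub : {v : ℕ → Dir 2 | ∃ i : Fin 2, |x i + ∑ s ∈ Finset.range W, vec (v s) i| ≤ (R : ℤ)} ⊆
      ⋃ z ∈ (Finset.univ : Finset (Fin 2)) ×ˢ (Finset.Icc (-(R : ℤ)) R),
        {v : ℕ → Dir 2 | x z.1 + ∑ s ∈ Finset.range W, vec (v s) z.1 = z.2} := by
    rintro v ⟨i, hi⟩
    rw [Set.mem_iUnion₂]
    refine ⟨(i, x i + ∑ s ∈ Finset.range W, vec (v s) i), ?_, rfl⟩
    rw [Finset.mem_product, Finset.mem_Icc]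
    exact ⟨Finset.mem_univ _, abs_le.1 hi⟩
  refine (measure_mono hsub).trans ((measure_biUnion_finset_le _ _).trans ?_)
  have h1 : ∀ z ∈ (Finset.univ : Finset (Fin 2)) ×ˢ (Finset.Icc (-(R : ℤ)) R),
      iid 2 {v : ℕ → Dir 2 | x z.1 + ∑ s ∈ Finset.range W, vec (v s) z.1 = z.2} ≤
      ENNReal.ofReal (1 / Real.sqrt ((2 * W : ℕ) + 1)) := by
    intro z _
    refine (transv z.1 z.2 W (x z.1)).trans ?_
    exact ENNReal.ofReal_le_ofReal (bw_le _ _)
  refine (Finset.sum_le_sum h1).trans ?_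
  rw [Finset.sum_const, nsmul_eq_mul, Finset.card_product, Finset.card_univ, Fintype.card_fin,
    Int.card_Icc, ← ENNReal.ofReal_natCast, ← ENNReal.ofReal_mul (by positivity)]
  apply ENNReal.ofReal_le_ofReal
  have : ((R : ℤ) + 1 - -(R : ℤ)).toNat = 2 * R + 1 := by omega
  rw [this]
  push_cast
  apply le_of_eq; ring

end Pool.Agent.H89CRW
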