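import Pool.Agent.Helper89.CRW16

set_option autoImplicit false

open MeasureTheory Filter ProbabilityTheory

namespace Pool.Agent.H89CRW

/-! ### The first walk is strongly transient -/

attribute [local irreducible] aa kk mm nn WW ell

/-- beginning of stage `j` -/
def bb (j : ℕ) : ℕ := (stages SA 0 j).sum

lemma stages_one (S : ℕ → List ℕ) (j : ℕ) : stages S j 1 = S j := by
  simp [stages]

lemma stages_succ' (S : ℕ → List ℕ) (j : ℕ) : stages S 0 (j + 1) = stages S 0 j ++ S j := by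
  rw [stages_add S 0 j 1, zero_add, stages_one]

lemma bb_succ (j : ℕ) : bb (j + 1) = bb j + aa j + WW j := by
  unfold bb
  rw [stages_succ', List.sum_append, SA_sum, ← add_assoc]

lemma res_iff (u : ℕ → unitInterval) (hu : ∀ n, 0 < ((u n : unitInterval) : ℝ)) (j t : ℕ)
    (h0 : 0 < bb j + t) (ht : t ≤ aa j + WW j) :
    ((u (bb j + t) : unitInterval) : ℝ) ≤ prob SA (bb j + t) ↔ pat (SA j) t = true := by
  have hf := follows_prob SA SA_pos SA_sum_pos u hu (j + 1)
  have hb := bb_succ j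
  have hs : (stages SA 0 (j + 1)).sum = bb (j + 1) := rfl
  rw [hf (bb j + t) h0 (by rw [hs]; omega)]
  rw [stages_succ']
  have : bb j = (stages SA 0 j).sum := rfl
  rw [this, pat_append_add _ _ (stages_mem SA SA_pos 0 j)]

lemma res_start (u : ℕ → unitInterval) (hu : ∀ n, 0 < ((u n : unitInterval) : ℝ)) (j : ℕ) :
    bb j = 0 ∨ ((u (bb j) : unitInterval) : ℝ) ≤ prob SA (bb j) := by
  rcases Nat.eq_zero_or_pos (bb j) with h | h
  · exact Or.inl h
  · right
    have := (res_iff u hu j 0 h (Nat.zero_le _)).2 (pat_zero _)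
    rwa [add_zero] at this

lemma pos_run_straight (u : ℕ → unitInterval) (hu : ∀ n, 0 < ((u n : unitInterval) : ℝ))
    (v : ℕ → Dir 2) (j t : ℕ) (ht : t ≤ aa j) (i : Fin 2) :
    pos (prob SA) u v (bb j + t) i = pos (prob SA) u v (bb j) i + (t : ℤ) * vec (v (bb j)) i := by
  rw [pos_shift (prob SA) u v (bb j) (res_start u hu j) t i]
  congr 1
  have h : ∀ n, 0 < n → n < aa j → ¬ ((u (bb j + n) : unitInterval) : ℝ) ≤ prob SA (bb j + n) := by
    intro n h0 hn
    rw [res_iff u hu j n (by omega) (by omega)]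
    unfold SA
    rw [pat_cons_lt _ _ n h0 hn]
    exact Bool.false_ne_true
  exact pos_straight (fun m => prob SA (bb j + m)) (fun m => u (bb j + m))
    (fun m => v (bb j + m)) (aa j) h t ht i

lemma pos_all {d : ℕ} (p : ℕ → ℝ) (u : ℕ → unitInterval) (v : ℕ → Dir d) (l : ℕ)
    (h : ∀ n, 0 < n → n < l → ((u n : unitInterval) : ℝ) ≤ p n) (n : ℕ) (hn : n ≤ l)
    (j : Fin d) : pos p u v n j = ∑ s ∈ Finset.range n, vec (v s) j := by
  classical
  unfold pos
  apply Finset.sum_congr rfl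
  intro t ht
  rw [Finset.mem_range] at ht
  cases t with
  | zero => rfl
  | succ t =>
    have : step p u v (t + 1) = v (t + 1) := by
      show (if ((u (t + 1) : unitInterval) : ℝ) ≤ p (t + 1) then v (t + 1) else step p u v t) = _
      rw [if_pos (h (t + 1) (by omega) (by omega))]
    rw [this]

lemma pos_window (u : ℕ → unitInterval) (hu : ∀ n, 0 < ((u n : unitInterval) : ℝ))
    (v : ℕ → Dir 2) (j t : ℕ) (ht : t ≤ WW j) (i : Fin 2) :
    pos (prob SA) u v (bb j + aa j + t) i = pos (prob SA) u v (bb j + aa j) i +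
      ∑ s ∈ Finset.range t, vec (v (bb j + aa j + s)) i := by
  have ha := aa_pos j
  have hres : ∀ n, n ≤ WW j → ((u (bb j + aa j + n) : unitInterval) : ℝ) ≤
      prob SA (bb j + aa j + n) := by
    intro n hn
    have := (res_iff u hu j (aa j + n) (by omega) (by omega)).2 (pat_SA j _ (by omega))
    rwa [← add_assoc] at this
  rw [pos_shift (prob SA) u v (bb j + aa j) (Or.inr (by have := hres 0 (Nat.zero_le _); rwa [add_zero] at this)) t i]
  congr 1
  exact pos_all (fun m => prob SA (bb j + aa j + m)) (fun m => u (bb j + aa j + m))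
    (fun m => v (bb j + aa j + m)) (WW j) (fun n _ hn => hres n hn.le) t ht i

lemma step_prefix {d : ℕ} (p : ℕ → ℝ) (u : ℕ → unitInterval) (v v' : ℕ → Dir d) (N : ℕ)
    (h : ∀ n, n < N → v n = v' n) (n : ℕ) (hn : n < N) : step p u v n = step p u v' n := by
  classical
  induction n with
  | zero => exact h 0 hn
  | succ n ih =>
    show (if ((u (n + 1) : unitInterval) : ℝ) ≤ p (n + 1) then v (n + 1) else step p u v n) =
      (if ((u (n + 1) : unitInterval) : ℝ) ≤ p (n + 1) then v' (n + 1) else step p u v' n)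
    rw [h (n + 1) hn, ih (by omega)]

lemma pos_prefix {d : ℕ} (p : ℕ → ℝ) (u : ℕ → unitInterval) (v v' : ℕ → Dir d) (N : ℕ)
    (h : ∀ n, n < N → v n = v' n) (j : Fin d) : pos p u v N j = pos p u v' N j := by
  unfold pos
  apply Finset.sum_congr rfl
  intro t ht
  rw [Finset.mem_range] at ht
  rw [step_prefix p u v v' N h t ht]

/-- large displacement in the window of stage `j` -/
def Dbad (j : ℕ) : Set (ℕ → Dir 2) :=
  {v | ∃ i : Fin 2, ∃ t ≤ WW j, (aa j : ℝ) / 4 ≤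
    |∑ s ∈ Finset.range t, ((vec (v (bb j + aa j + s)) i : ℤ) : ℝ)|}

/-- a small coordinate at the end of stage `j` -/
def Zbad (u : ℕ → unitInterval) (R j : ℕ) : Set (ℕ → Dir 2) :=
  {v | ∃ i : Fin 2, |pos (prob SA) u v (bb (j + 1)) i| ≤ (R : ℤ)}

lemma WW_le (j : ℕ) : (WW j : ℝ) ≤ 259 * (mm j : ℝ) ^ 2 * 2 ^ kk j := by
  have h : WW j ≤ 259 * mm j ^ 2 * 2 ^ kk j := by
    unfold WW nn
    have h1 := fine_sum (kk j)
    have h2 := mm_pos j
    have h3 : 1 ≤ mm j ^ 2 := Nat.one_le_pow _ _ h2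
    have h4 : (fine (kk j)).sum ≤ 2 ^ kk j := by omega
    calc (fine (kk j)).sum + (256 * mm j ^ 2 + 2) * 2 ^ kk j
        ≤ 2 ^ kk j + (256 * mm j ^ 2 + 2) * 2 ^ kk j := by omega
      _ = (256 * mm j ^ 2 + 3 * 1) * 2 ^ kk j := by ring
      _ ≤ (256 * mm j ^ 2 + 3 * mm j ^ 2) * 2 ^ kk j := by gcongr
      _ = _ := by ring
  exact_mod_cast h

lemma WW_ge (j : ℕ) : 4 ^ j ≤ WW j := by
  have h1 : 4 ^ j ≤ aa j := by
    unfold aa
    rw [show (4 : ℕ) = 2 ^ 2 by norm_num, ← pow_mul]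
    exact Nat.pow_le_pow_right (by norm_num) (by omega)
  have h2 : aa j ≤ WW j := by
    rw [aa_eq]
    unfold WW nn
    have h3 := mm_pos j
    have h4 : mm j ≤ 256 * mm j ^ 2 + 2 := by nlinarith
    calc 2 ^ kk j * mm j ≤ 2 ^ kk j * (256 * mm j ^ 2 + 2) := Nat.mul_le_mul_left _ h4
      _ = (256 * mm j ^ 2 + 2) * 2 ^ kk j := mul_comm _ _
      _ ≤ _ := Nat.le_add_left _ _
  exact h1.trans h2

lemma measure_Dbad (j : ℕ) : iid 2 (Dbad j) ≤ ENNReal.ofReal (4 * (1 / ((j : ℝ) + 2) ^ 2)) := by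
  have hWpos : (0 : ℝ) < WW j := by
    have := WW_ge j
    have h4 : 0 < 4 ^ j := by positivity
    exact_mod_cast h4.trans_le this
  have hapos : (0 : ℝ) < aa j := by exact_mod_cast aa_pos j
  have h1 : iid 2 (Dbad j) ≤ iid 2 {v | ∃ i : Fin 2, ∃ t ≤ WW j, (aa j : ℝ) / 4 ≤
      |∑ s ∈ Finset.range t, ((vec (v s) i : ℤ) : ℝ)|} :=
    measure_shift_le 2 (bb j + aa j) {v | ∃ i : Fin 2, ∃ t ≤ WW j, (aa j : ℝ) / 4 ≤
      |∑ s ∈ Finset.range t, ((vec (v s) i : ℤ) : ℝ)|}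
  refine h1.trans ((disp_window ((aa j : ℝ) / 4) (WW j) ((aa j : ℝ) / (4 * WW j))
    (by positivity)).trans ?_)
  apply ENNReal.ofReal_le_ofReal
  apply mul_le_mul_of_nonneg_left _ (by norm_num)
  have e1 : -((aa j : ℝ) / (4 * WW j) * ((aa j : ℝ) / 4)) + WW j * ((aa j : ℝ) / (4 * WW j)) ^ 2 / 2 =
      -((aa j : ℝ) ^ 2 / (32 * WW j)) := by
    field_simp; ring
  rw [e1]
  have h2 : 2 * (ell j : ℝ) ≤ (aa j : ℝ) ^ 2 / (32 * WW j) := by
    rw [le_div_iff₀ (by positivity)]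
    have h3 := WW_le j
    have h4 : (aa j : ℝ) = 2 ^ kk j * mm j := by exact_mod_cast aa_eq j
    have h5 : (2 : ℝ) ^ 15 * ell j ≤ 2 ^ kk j := by exact_mod_cast le_kk j
    have hL : (0 : ℝ) < 2 ^ kk j := by positivity
    have hm : (0 : ℝ) ≤ (mm j : ℝ) ^ 2 := by positivity
    rw [h4]
    calc 2 * (ell j : ℝ) * (32 * WW j) ≤ 2 * (ell j : ℝ) * (32 * (259 * (mm j : ℝ) ^ 2 * 2 ^ kk j)) := by
          gcongr
      _ = (16576 * ell j) * ((mm j : ℝ) ^ 2 * 2 ^ kk j) := by ring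
      _ ≤ (2 ^ 15 * ell j) * ((mm j : ℝ) ^ 2 * 2 ^ kk j) := by
          have : (0 : ℝ) ≤ ell j := Nat.cast_nonneg _
          apply mul_le_mul_of_nonneg_right _ (by positivity)
          nlinarith
      _ ≤ 2 ^ kk j * ((mm j : ℝ) ^ 2 * 2 ^ kk j) := by gcongr
      _ = (2 ^ kk j * (mm j : ℝ)) ^ 2 := by ring
  have h3 : Real.exp (-((aa j : ℝ) ^ 2 / (32 * WW j))) ≤ Real.exp (-(2 * (ell j : ℝ))) := by
    apply Real.exp_le_exp.2; linarith
  refine h3.trans ?_
  rw [Real.exp_neg, one_div]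
  apply inv_anti₀ (by positivity)
  have h4 : ((j : ℝ) + 2) ≤ 2 ^ ell j := by exact_mod_cast (lt_two_pow_ell j).le
  have h5 : (2 : ℝ) ≤ Real.exp 1 := by
    have := Real.add_one_le_exp (1 : ℝ)
    linarith
  calc ((j : ℝ) + 2) ^ 2 ≤ (2 ^ ell j) ^ 2 := by gcongr
    _ ≤ (Real.exp 1 ^ ell j) ^ 2 := by gcongr
    _ = Real.exp (2 * (ell j : ℝ)) := by
      rw [← Real.exp_nat_mul, ← Real.exp_nat_mul]; congr 1; push_cast; ring

lemma measure_Zbad (u : ℕ → unitInterval) (hu : ∀ n, 0 < ((u n : unitInterval) : ℝ)) (R j : ℕ) :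
    iid 2 (Zbad u R j) ≤ ENNReal.ofReal (2 * ((2 * R + 1) * (1 / 2 ^ j))) := by
  apply prefix_bound 2 _ (bb j + aa j)
  intro w
  have hsub : {v : ℕ → Dir 2 | (fun n => if n < bb j + aa j then w n else v (n - (bb j + aa j))) ∈
      Zbad u R j} ⊆ {v | ∃ i : Fin 2, |pos (prob SA) u w (bb j + aa j) i +
        ∑ s ∈ Finset.range (WW j), vec (v s) i| ≤ (R : ℤ)} := by
    rintro v ⟨i, hi⟩
    refine ⟨i, ?_⟩
    rw [bb_succ, pos_window u hu _ j (WW j) le_rfl i] at hi
    rw [pos_prefix (prob SA) u _ w (bb j + aa j) (fun n hn => by simp [hn]) i] at hi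
    have : ∀ s ∈ Finset.range (WW j), vec ((fun n => if n < bb j + aa j then w n else
        v (n - (bb j + aa j))) (bb j + aa j + s)) i = vec (v s) i := by
      intro s _
      have h1 : ¬ (bb j + aa j + s < bb j + aa j) := by omega
      have h2 : bb j + aa j + s - (bb j + aa j) = s := by omega
      simp only [h1, if_false, h2]
    rw [Finset.sum_congr rfl this] at hi
    exact hi
  refine (measure_mono hsub).trans ((transv_small R (WW j) _).trans ?_)
  apply ENNReal.ofReal_le_ofReal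
  have h1 : (2 : ℝ) ^ j ≤ Real.sqrt ((2 * WW j : ℕ) + 1) := by
    apply Real.le_sqrt_of_sq_le
    have h2 : (4 : ℝ) ^ j ≤ WW j := by exact_mod_cast WW_ge j
    have h3 : ((2 : ℝ) ^ j) ^ 2 = 4 ^ j := by rw [← pow_mul, mul_comm, pow_mul]; norm_num
    rw [h3]
    push_cast
    have : (0 : ℝ) ≤ WW j := Nat.cast_nonneg _
    linarith
  have h2 : 1 / Real.sqrt ((2 * WW j : ℕ) + 1) ≤ 1 / 2 ^ j :=
    one_div_le_one_div_of_le (by positivity) h1
  gcongr

/-- almost surely only finitely many bad stages -/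
lemma ae_good (u : ℕ → unitInterval) (hu : ∀ n, 0 < ((u n : unitInterval) : ℝ)) :
    ∀ᵐ v ∂(iid 2), ∀ R : ℕ, ∀ᶠ j in atTop, v ∉ Dbad j ∧ v ∉ Zbad u R j := by
  rw [ae_all_iff]
  intro R
  have s1 : Summable (fun j : ℕ => 4 * (1 / ((j : ℝ) + 2) ^ 2)) := by
    apply Summable.mul_left
    have := (summable_nat_add_iff (f := fun n : ℕ => 1 / (n : ℝ) ^ 2) 2).2
      (Real.summable_one_div_nat_pow.2 (by norm_num))
    refine this.congr (fun j => ?_)
    push_cast; rfl
  have s2 : Summable (fun j : ℕ => 2 * ((2 * (R : ℝ) + 1) * (1 / 2 ^ j))) := by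
    apply Summable.mul_left
    apply Summable.mul_left
    have := summable_geometric_of_lt_one (r := (1 / 2 : ℝ)) (by norm_num) (by norm_num)
    refine this.congr (fun j => ?_)
    rw [one_div_pow]
  have a1 : ∀ᵐ v ∂(iid 2), ∀ᶠ j in atTop, v ∉ Dbad j := by
    apply ae_eventually_notMem
    refine ne_top_of_le_ne_top ?_ (ENNReal.tsum_le_tsum measure_Dbad)
    rw [← ENNReal.ofReal_tsum_of_nonneg (fun j => by positivity) s1]
    exact ENNReal.ofReal_ne_top
  have a2 : ∀ᵐ v ∂(iid 2), ∀ᶠ j in atTop, v ∉ Zbad u R j := by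
    apply ae_eventually_notMem
    refine ne_top_of_le_ne_top ?_ (ENNReal.tsum_le_tsum (measure_Zbad u hu R))
    rw [← ENNReal.ofReal_tsum_of_nonneg (fun j => by positivity) s2]
    exact ENNReal.ofReal_ne_top
  filter_upwards [a1, a2] with v h1 h2
  exact h1.and h2

lemma vec_abs (e : Dir 2) : |vec e e.1| = 1 := by
  unfold vec; rw [if_pos rfl]; split_ifs <;> simp

lemma vec_abs_le (e : Dir 2) (i : Fin 2) : |vec e i| ≤ 1 := by
  unfold vec; split_ifs <;> simp

lemma exists_stage (J n : ℕ) (h : bb J ≤ n) : ∃ j, J ≤ j ∧ bb j ≤ n ∧ n < bb (j + 1) := by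
  induction n, h using Nat.le_induction with
  | base =>
    refine ⟨J, le_rfl, le_rfl, ?_⟩
    have := bb_succ J; have := aa_pos J; omega
  | succ n hn ih =>
    obtain ⟨j, h1, h2, h3⟩ := ih
    by_cases h4 : n + 1 < bb (j + 1)
    · exact ⟨j, h1, by omega, h4⟩
    · refine ⟨j + 1, by omega, by omega, ?_⟩
      have := bb_succ (j + 1); have := aa_pos (j + 1); omega

lemma aa_succ (j : ℕ) : aa (j + 1) = 1024 * aa j := by
  unfold aa
  rw [show 20 + 10 * (j + 1) = 10 + (20 + 10 * j) by ring, pow_add]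
  norm_num

lemma lt_aa (j : ℕ) : j < aa j := by
  unfold aa
  calc j < 2 ^ j := Nat.lt_two_pow_self
    _ ≤ _ := Nat.pow_le_pow_right (by norm_num) (by omega)

/-- arithmetic of one stage -/
lemma stage_growth (A K X V D : ℤ) (hA : 0 ≤ A) (h1 : 8 * |X| ≤ 8 * K + A) (hV : |V| ≤ 1)
    (hD : 4 * |D| ≤ A) : 8 * |X + A * V + D| ≤ 8 * K + 1024 * A := by
  have h6 : |A * V| ≤ A := by
    rw [abs_mul, abs_of_nonneg hA]
    nlinarith
  have h8 := abs_add_le (X + A * V) D
  have h9 := abs_add_le X (A * V)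
  linarith

lemma window_large (A K R X V D : ℤ) (hA : 0 ≤ A) (h1 : 8 * |X| ≤ 8 * K + A) (hV : |V| = 1)
    (hD : 4 * |D| ≤ A) (hbig : 8 * K + 2 * R + 2 ≤ A) (hK : 0 ≤ K) : R < |X + A * V + D| := by
  have h3 : |A * V| = A := by
    rw [abs_mul, abs_of_nonneg hA, hV, mul_one]
  have e1 := abs_sub_abs_le_abs_sub (A * V) (-(X + D))
  have e2 : A * V - -(X + D) = X + A * V + D := by ring
  rw [e2, abs_neg] at e1
  have e3 := abs_add_le X D
  linarith

lemma stage_bound (u : ℕ → unitInterval) (hu : ∀ n, 0 < ((u n : unitInterval) : ℝ))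
    (v : ℕ → Dir 2) (j0 : ℕ) (hD : ∀ j, j0 ≤ j → ∀ i : Fin 2, ∀ t ≤ WW j,
      4 * |∑ s ∈ Finset.range t, vec (v (bb j + aa j + s)) i| ≤ (aa j : ℤ)) (K : ℤ)
    (hK : ∀ i : Fin 2, |pos (prob SA) u v (bb j0) i| ≤ K) :
    ∀ j, j0 ≤ j → ∀ i : Fin 2, 8 * |pos (prob SA) u v (bb j) i| ≤ 8 * K + (aa j : ℤ) := by
  intro j hj
  induction j, hj using Nat.le_induction with
  | base =>
    intro i
    have h1 := hK i
    have h2 : (0 : ℤ) ≤ aa j0 := Int.natCast_nonneg _
    linarith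
  | succ j hj ih =>
    intro i
    have h1 := ih i
    have h2 := hD j hj i (WW j) le_rfl
    have h3 := pos_window u hu v j (WW j) le_rfl i
    have h4 := pos_run_straight u hu v j (aa j) le_rfl i
    have h5 := vec_abs_le (v (bb j)) i
    rw [bb_succ, h3, h4]
    have h7 : ((aa (j + 1) : ℕ) : ℤ) = 1024 * (aa j : ℤ) := by rw [aa_succ]; push_cast; ring
    rw [h7]
    exact stage_growth _ K _ _ _ (Int.natCast_nonneg _) h1 h5 h2

/-- deterministic part -/
lemma leaves_of_good (u : ℕ → unitInterval) (hu : ∀ n, 0 < ((u n : unitInterval) : ℝ))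
    (v : ℕ → Dir 2) (R : ℕ) (hgood : ∀ᶠ j in atTop, v ∉ Dbad j ∧ v ∉ Zbad u R j) :
    ∀ᶠ n in atTop, ∃ i, (R : ℤ) < |pos (prob SA) u v n i| := by
  obtain ⟨j0, hj0⟩ := Filter.eventually_atTop.1 hgood
  -- displacement in a window
  have hD : ∀ j, j0 ≤ j → ∀ i : Fin 2, ∀ t ≤ WW j,
      4 * |∑ s ∈ Finset.range t, vec (v (bb j + aa j + s)) i| ≤ (aa j : ℤ) := by
    intro j hj i t ht
    by_contra hcon
    push Not at hcon
    apply (hj0 j hj).1
    refine ⟨i, t, ht, ?_⟩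
    have : ((aa j : ℤ) : ℝ) ≤ ((4 * |∑ s ∈ Finset.range t, vec (v (bb j + aa j + s)) i| : ℤ) : ℝ) := by
      exact_mod_cast hcon.le
    push_cast at this
    linarith
  have hZ : ∀ j, j0 ≤ j → ∀ i : Fin 2, (R : ℤ) < |pos (prob SA) u v (bb (j + 1)) i| := by
    intro j hj i
    by_contra hcon
    push Not at hcon
    exact (hj0 j hj).2 ⟨i, hcon⟩
  obtain ⟨K, hK⟩ : ∃ K : ℕ, ∀ i : Fin 2, |pos (prob SA) u v (bb j0) i| ≤ K := by
    refine ⟨∑ i, (pos (prob SA) u v (bb j0) i).natAbs, fun i => ?_⟩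
    have := Finset.single_le_sum (f := fun i => (pos (prob SA) u v (bb j0) i).natAbs)
      (fun i _ => Nat.zero_le _) (Finset.mem_univ i)
    have h2 : ((pos (prob SA) u v (bb j0) i).natAbs : ℤ) ≤
      ((∑ i, (pos (prob SA) u v (bb j0) i).natAbs : ℕ) : ℤ) := by exact_mod_cast this
    rw [Int.natCast_natAbs] at h2
    exact h2
  have hM := stage_bound u hu v j0 hD K hK
  set j1 : ℕ := max j0 (8 * K + 2 * R + 2) with hj1
  rw [Filter.eventually_atTop]
  refine ⟨bb (j1 + 1), fun n hn => ?_⟩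
  obtain ⟨j, hj, hb1, hb2⟩ := exists_stage (j1 + 1) n hn
  obtain ⟨j', rfl⟩ : ∃ j', j = j' + 1 := ⟨j - 1, by omega⟩
  have hj' : j1 ≤ j' := by omega
  have hj0' : j0 ≤ j' := le_trans (le_max_left _ _) hj'
  have hlarge : 8 * K + 2 * R + 2 ≤ j' := le_trans (le_max_right _ _) hj'
  have hbig : (8 * (K : ℤ) + 2 * R + 2) ≤ aa (j' + 1) := by
    have h1 := lt_aa (j' + 1)
    have h2 : 8 * K + 2 * R + 2 ≤ aa (j' + 1) := by omega
    exact_mod_cast h2
  obtain ⟨t, rfl⟩ := Nat.exists_eq_add_of_le hb1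
  by_cases ht : t ≤ aa (j' + 1)
  · -- straight run: the transverse coordinate is large
    obtain ⟨i, hi⟩ : ∃ i : Fin 2, i ≠ (v (bb (j' + 1))).1 := exists_ne _
    refine ⟨i, ?_⟩
    rw [pos_run_straight u hu v (j' + 1) t ht i]
    have : vec (v (bb (j' + 1))) i = 0 := by
      unfold vec; rw [if_neg (fun h => hi h.symm)]
    rw [this, mul_zero, add_zero]
    exact hZ j' hj0' i
  · -- window: the coordinate of the last run is large
    obtain ⟨s, rfl⟩ := Nat.exists_eq_add_of_le (not_le.1 ht).le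
    have hs : s ≤ WW (j' + 1) := by
      have h1 := bb_succ (j' + 1)
      rw [h1] at hb2
      omega
    refine ⟨(v (bb (j' + 1))).1, ?_⟩
    have e1 := pos_window u hu v (j' + 1) s hs (v (bb (j' + 1))).1
    have e2 := pos_run_straight u hu v (j' + 1) (aa (j' + 1)) le_rfl (v (bb (j' + 1))).1
    rw [← add_assoc, e1, e2]
    exact window_large _ K R _ _ _ (Int.natCast_nonneg _) (hM (j' + 1) (by omega) _)
      (vec_abs _) (hD (j' + 1) (by omega) _ s hs) hbig (Int.natCast_nonneg _)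

/-- the first walk is strongly transient -/
theorem stronglyTransient_SA : StronglyTransient 2 (prob SA) := by
  unfold StronglyTransient driving
  have hmeas : MeasurableSet {ω : (ℕ → unitInterval) × (ℕ → Dir 2) |
      Tendsto (fun n => enorm2 (pos (prob SA) ω.1 ω.2 n)) atTop atTop} :=
    measurableSet_tendsto _ (fun n => measurable_enorm_pos (prob SA) n)
  rw [Measure.ae_prod_iff_ae_ae hmeas]
  filter_upwards [ae_pos_u] with u hu
  filter_upwards [ae_good u hu] with v hv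
  exact tendsto_of_leaves _ (fun R => leaves_of_good u hu v R (hv R))

/-- monotonicity fails in dimension two -/
theorem not_monotone_two : ∃ p p' : ℕ → ℝ, (∀ n, 0 ≤ p n ∧ p n ≤ 1) ∧ (∀ n, 0 ≤ p' n ∧ p' n ≤ 1) ∧
    (∀ n, p' n ≤ p n) ∧ StronglyTransient 2 p ∧ ¬ StronglyTransient 2 p' :=
  ⟨prob SA, prob SB, prob_mem SA, prob_mem SB, prob_le, stronglyTransient_SA,
    not_stronglyTransient_SB⟩

end Pool.Agent.H89CRW
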