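import Pool.Agent.Helper89.CRW1

set_option autoImplicit false

open Finset

namespace Pool.Agent.H89CRW

/-- The bound `C(q, q/2) / 2^q ≤ 1 / √(q+1)`. -/
lemma real_choose (q : ℕ) : ((q.choose (q / 2) : ℕ) : ℝ) / 2 ^ q ≤ 1 / Real.sqrt (q + 1) := by
  have h := choose_half_sq q
  have h' : (((q.choose (q / 2) : ℕ) : ℝ)) ^ 2 * ((q : ℝ) + 1) ≤ 4 ^ q := by exact_mod_cast h
  have hs : 0 < Real.sqrt ((q : ℝ) + 1) := Real.sqrt_pos.2 (by positivity)
  rw [div_le_div_iff₀ (by positivity) hs, one_mul]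
  apply le_of_sq_le_sq _ (by positivity)
  rw [mul_pow, Real.sq_sqrt (by positivity)]
  calc _ ≤ (4 : ℝ) ^ q := h'
    _ = (2 ^ q) ^ 2 := by rw [← pow_mul, mul_comm, pow_mul]; norm_num

/-- Number of sign patterns (subsets of `I`) with signed sum in `[-R', R']`. -/
def cnt {ι : Type*} [DecidableEq ι] (I : Finset ι) (w : ι → ℕ) (R : ℕ) : ℕ :=
  (I.powerset.filter (fun A => |2 * ((∑ r ∈ A, w r : ℕ) : ℤ) - ((∑ r ∈ I, w r : ℕ) : ℤ)| ≤ R)).card

variable {ι : Type*} [DecidableEq ι]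

lemma cnt_le_pow (I : Finset ι) (w : ι → ℕ) (R : ℕ) : cnt I w R ≤ 2 ^ I.card := by
  rw [← Finset.card_powerset]
  exact Finset.card_le_card (Finset.filter_subset _ _)

lemma cnt_window (I Q : Finset ι) (hQ : Q ⊆ I) (w : ι → ℕ) (L : ℕ)
    (hL : ∀ r ∈ Q, L ≤ w r) (R k : ℕ) (hk : R + 1 ≤ k * L) :
    cnt I w R ≤ k * (Q.card.choose (Q.card / 2) * 2 ^ (I \ Q).card) := by
  refine le_trans ?_ (lo_many I Q hQ w L hL k ((∑ r ∈ I, w r - R + 1) / 2))
  apply Finset.card_le_card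
  intro A hA
  rw [Finset.mem_filter] at hA ⊢
  refine ⟨hA.1, ?_⟩
  have h := hA.2
  rw [abs_le] at h
  set s := ∑ r ∈ A, w r
  set t := ∑ r ∈ I, w r
  constructor <;> omega

lemma cnt_window_real (I Q : Finset ι) (hQ : Q ⊆ I) (w : ι → ℕ) (L : ℕ)
    (hL : ∀ r ∈ Q, L ≤ w r) (R k : ℕ) (hk : R + 1 ≤ k * L) :
    (cnt I w R : ℝ) / 2 ^ I.card ≤ k / Real.sqrt (Q.card + 1) := by
  have h := cnt_window I Q hQ w L hL R k hk
  have h' : (cnt I w R : ℝ) ≤ k * ((Q.card.choose (Q.card / 2) : ℕ) * 2 ^ (I \ Q).card) := by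
    exact_mod_cast h
  have hcard : I.card = (I \ Q).card + Q.card := by
    rw [Finset.card_sdiff_add_card_eq_card hQ]
  have hr := real_choose Q.card
  have h2 : (2 : ℝ) ^ I.card = 2 ^ (I \ Q).card * 2 ^ Q.card := by rw [hcard, pow_add]
  rw [h2]
  calc (cnt I w R : ℝ) / (2 ^ (I \ Q).card * 2 ^ Q.card)
      ≤ (k * ((Q.card.choose (Q.card / 2) : ℕ) * 2 ^ (I \ Q).card)) /
        (2 ^ (I \ Q).card * 2 ^ Q.card) := by gcongr
    _ = k * (((Q.card.choose (Q.card / 2) : ℕ) : ℝ) / 2 ^ Q.card) := by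
        field_simp
    _ ≤ k * (1 / Real.sqrt (Q.card + 1)) := by gcongr
    _ = _ := by ring

lemma cnt_distinct (I D : Finset ι) (hD : D ⊆ I) (w : ι → ℕ)
    (hinj : Set.InjOn w (D : Set ι)) (R : ℕ) :
    cnt I w R * D.card ≤ (R + 1) * (2 * 2 ^ I.card) := by
  have hsub : I.powerset.filter (fun A =>
      |2 * ((∑ r ∈ A, w r : ℕ) : ℤ) - ((∑ r ∈ I, w r : ℕ) : ℤ)| ≤ R) ⊆
      (Finset.range (R + 1)).biUnion (fun v => I.powerset.filter (fun A =>
        ∑ r ∈ A, w r = (∑ r ∈ I, w r - R + 1) / 2 + v)) := by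
    intro A hA
    rw [Finset.mem_filter] at hA
    rw [Finset.mem_biUnion]
    have h := hA.2
    rw [abs_le] at h
    refine ⟨∑ r ∈ A, w r - (∑ r ∈ I, w r - R + 1) / 2, ?_, ?_⟩
    · rw [Finset.mem_range]; omega
    · rw [Finset.mem_filter]; exact ⟨hA.1, by omega⟩
  have h1 : cnt I w R ≤ ∑ v ∈ Finset.range (R + 1), (I.powerset.filter (fun A =>
        ∑ r ∈ A, w r = (∑ r ∈ I, w r - R + 1) / 2 + v)).card :=
    (Finset.card_le_card hsub).trans Finset.card_biUnion_le
  calc cnt I w R * D.card ≤ (∑ v ∈ Finset.range (R + 1), (I.powerset.filter (fun A =>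
        ∑ r ∈ A, w r = (∑ r ∈ I, w r - R + 1) / 2 + v)).card) * D.card :=
        Nat.mul_le_mul_right _ h1
    _ = ∑ v ∈ Finset.range (R + 1), (I.powerset.filter (fun A =>
        ∑ r ∈ A, w r = (∑ r ∈ I, w r - R + 1) / 2 + v)).card * D.card := Finset.sum_mul _ _ _
    _ ≤ ∑ v ∈ Finset.range (R + 1), 2 * 2 ^ I.card :=
        Finset.sum_le_sum (fun v _ => distinct_count I D hD w hinj _)
    _ = _ := by rw [Finset.sum_const, Finset.card_range, smul_eq_mul]

lemma cnt_distinct_real (I D : Finset ι) (hD : D ⊆ I) (w : ι → ℕ)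
    (hinj : Set.InjOn w (D : Set ι)) (R : ℕ) (hpos : 0 < D.card) :
    (cnt I w R : ℝ) / 2 ^ I.card ≤ 2 * (R + 1) / D.card := by
  have h := cnt_distinct I D hD w hinj R
  have h' : (cnt I w R : ℝ) * D.card ≤ (R + 1) * (2 * 2 ^ I.card) := by exact_mod_cast h
  have hD' : (0 : ℝ) < D.card := by exact_mod_cast hpos
  rw [div_le_div_iff₀ (by positivity) hD']
  linarith

/-- number of axis assignments for which axis `i` is rarely used on `Q` -/
lemma bad_axes {d : ℕ} (i : Fin d) (m : ℕ) (Q : Finset (Fin m)) :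
    ((Finset.univ.filter (fun a : Fin m → Fin d =>
      2 * d * (Q.filter (fun r => a r = i)).card < Q.card)).card : ℝ) ≤
      ((2 : ℝ) ^ (1 / (2 * d) : ℝ) * (1 - 1 / (2 * d))) ^ Q.card * d ^ m := by
  have hd : 0 < d := i.pos
  have hd' : (0 : ℝ) < d := by exact_mod_cast hd
  have h1 : ∑ a : Fin m → Fin d, ((1 / 2 : ℝ)) ^ (Q.filter (fun r => a r = i)).card =
      ((d : ℝ) - 1 / 2) ^ Q.card * d ^ (m - Q.card) := by
    have h2 : ∀ a : Fin m → Fin d, ((1 / 2 : ℝ)) ^ (Q.filter (fun r => a r = i)).card =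
        ∏ r : Fin m, (if r ∈ Q ∧ a r = i then (1 / 2 : ℝ) else 1) := by
      intro a
      rw [Finset.prod_ite, Finset.prod_const, Finset.prod_const_one, mul_one]
      congr 2
      ext r; simp
    simp_rw [h2]
    have h3 := (Finset.prod_univ_sum (fun _ : Fin m => (Finset.univ : Finset (Fin d)))
      (fun r c => if r ∈ Q ∧ c = i then (1 / 2 : ℝ) else 1)).symm
    rw [Fintype.piFinset_univ] at h3
    rw [h3]
    have h4 : ∀ r : Fin m, ∑ c : Fin d, (if r ∈ Q ∧ c = i then (1 / 2 : ℝ) else 1) =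
        if r ∈ Q then (d : ℝ) - 1 / 2 else d := by
      intro r
      by_cases hr : r ∈ Q
      · simp only [hr, true_and, if_true]
        have : ∀ c : Fin d, (if c = i then (1 / 2 : ℝ) else 1) =
            1 - (if c = i then (1 / 2 : ℝ) else 0) := by
          intro c; by_cases h : c = i <;> simp [h]; norm_num
        simp_rw [this]
        rw [Finset.sum_sub_distrib, Finset.sum_ite_eq' Finset.univ i]
        simp
      · simp [hr]
    simp_rw [h4]
    rw [Finset.prod_ite, Finset.prod_const, Finset.prod_const]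
    congr 3
    · ext r; simp
    · have : Finset.univ.filter (fun r => r ∉ Q) = Finset.univ \ Q := by ext r; simp
      rw [this, Finset.card_sdiff_of_subset (Finset.subset_univ _), Finset.card_univ,
        Fintype.card_fin]
  set θ₀ : ℝ := (2 : ℝ) ^ (1 / (2 * d) : ℝ) with hθ₀
  have hθ₀pos : 0 < θ₀ := Real.rpow_pos_of_pos (by norm_num) _
  -- each bad assignment has weight at least θ₀^{-|Q|}
  have h5 : ∀ a ∈ Finset.univ.filter (fun a : Fin m → Fin d =>
      2 * d * (Q.filter (fun r => a r = i)).card < Q.card),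
      (1 : ℝ) ≤ θ₀ ^ Q.card * (1 / 2 : ℝ) ^ (Q.filter (fun r => a r = i)).card := by
    intro a ha
    rw [Finset.mem_filter] at ha
    set n := (Q.filter (fun r => a r = i)).card
    have h6 : (2 : ℝ) ^ n ≤ θ₀ ^ Q.card := by
      rw [hθ₀, ← Real.rpow_natCast, ← Real.rpow_natCast, ← Real.rpow_mul (by norm_num)]
      apply Real.rpow_le_rpow_of_exponent_le (by norm_num)
      rw [one_div, inv_mul_eq_div, le_div_iff₀ (by positivity)]
      have : 2 * d * n ≤ Q.card := ha.2.le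
      have h7 : ((2 * d * n : ℕ) : ℝ) ≤ (Q.card : ℝ) := by exact_mod_cast this
      push_cast at h7
      linarith
    rw [one_div, inv_pow, ← div_eq_mul_inv, le_div_iff₀ (by positivity), one_mul]
    exact h6
  calc ((Finset.univ.filter (fun a : Fin m → Fin d =>
      2 * d * (Q.filter (fun r => a r = i)).card < Q.card)).card : ℝ)
      = ∑ a ∈ Finset.univ.filter (fun a : Fin m → Fin d =>
      2 * d * (Q.filter (fun r => a r = i)).card < Q.card), (1 : ℝ) := by simp
    _ ≤ ∑ a ∈ Finset.univ.filter (fun a : Fin m → Fin d =>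
      2 * d * (Q.filter (fun r => a r = i)).card < Q.card),
        θ₀ ^ Q.card * (1 / 2 : ℝ) ^ (Q.filter (fun r => a r = i)).card := Finset.sum_le_sum h5
    _ ≤ ∑ a : Fin m → Fin d,
        θ₀ ^ Q.card * (1 / 2 : ℝ) ^ (Q.filter (fun r => a r = i)).card :=
        Finset.sum_le_sum_of_subset_of_nonneg (Finset.filter_subset _ _)
          (fun a _ _ => by positivity)
    _ = θ₀ ^ Q.card * (((d : ℝ) - 1 / 2) ^ Q.card * d ^ (m - Q.card)) := by
        rw [← Finset.mul_sum, h1]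
    _ = (θ₀ * (1 - 1 / (2 * d))) ^ Q.card * d ^ m := by
        have hQm : Q.card ≤ m := by
          have := Finset.card_le_univ Q
          rwa [Fintype.card_fin] at this
        have e1 : (d : ℝ) ^ m = d ^ Q.card * d ^ (m - Q.card) := by
          rw [← pow_add, Nat.add_sub_cancel' hQm]
        have e2 : (d : ℝ) - 1 / 2 = (1 - 1 / (2 * d)) * d := by field_simp
        rw [e1, e2, mul_pow, mul_pow]
        ring

lemma theta_lt_one {d : ℕ} (hd : 0 < d) :
    (2 : ℝ) ^ (1 / (2 * d) : ℝ) * (1 - 1 / (2 * d)) < 1 := by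
  have hd' : (1 : ℝ) ≤ d := by exact_mod_cast hd
  set x : ℝ := 1 / (2 * d) with hx
  have hx0 : 0 < x := by positivity
  have hx1 : x ≤ 1 / 2 := by
    rw [hx, div_le_div_iff₀ (by positivity) (by norm_num)]; linarith
  have h1 : 1 - x ≤ Real.exp (-x) := by
    have := Real.add_one_le_exp (-x); linarith
  have h2 : (2 : ℝ) ^ x = Real.exp (Real.log 2 * x) := by
    rw [Real.rpow_def_of_pos (by norm_num)]
  rw [h2]
  calc Real.exp (Real.log 2 * x) * (1 - x) ≤ Real.exp (Real.log 2 * x) * Real.exp (-x) := by gcongr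
    _ = Real.exp ((Real.log 2 - 1) * x) := by rw [← Real.exp_add]; ring_nf
    _ < 1 := by
        rw [Real.exp_lt_one_iff]
        have := Real.log_two_lt_d9
        nlinarith

lemma theta_nonneg {d : ℕ} (hd : 0 < d) :
    0 ≤ (2 : ℝ) ^ (1 / (2 * d) : ℝ) * (1 - 1 / (2 * d)) := by
  have hd' : (1 : ℝ) ≤ d := by exact_mod_cast hd
  apply mul_nonneg (by positivity)
  have : 1 / (2 * (d : ℝ)) ≤ 1 := by
    rw [div_le_one (by positivity)]; linarith
  linarith

end Pool.Agent.H89CRW
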