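import Pool.Agent.Helper89.CRW2

set_option autoImplicit false

open Finset

namespace Pool.Agent.H89CRW

/-- `i`-th coordinate of the sum of the vectors `w r * (± e_(axis r))`. -/
def coord {d m : ℕ} (w : Fin m → ℕ) (D : Fin m → Fin d × Bool) (i : Fin d) : ℤ :=
  ∑ r, if (D r).1 = i then (if (D r).2 then (w r : ℤ) else -(w r : ℤ)) else 0

/-- the runs along axis `i` -/
def Ax {d m : ℕ} (a : Fin m → Fin d) (i : Fin d) : Finset (Fin m) :=
  Finset.univ.filter (fun r => a r = i)

lemma mem_Ax {d m : ℕ} (a : Fin m → Fin d) (i : Fin d) (r : Fin m) : r ∈ Ax a i ↔ a r = i := by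
  simp [Ax]

lemma coord_eq {d m : ℕ} (w : Fin m → ℕ) (D : Fin m → Fin d × Bool) (i : Fin d) :
    coord w D i = 2 * ((∑ r ∈ (Ax (fun r => (D r).1) i).filter (fun r => (D r).2 = true), w r : ℕ) : ℤ)
      - ((∑ r ∈ Ax (fun r => (D r).1) i, w r : ℕ) : ℤ) := by
  unfold coord Ax
  push_cast
  rw [Finset.filter_filter, Finset.sum_filter, Finset.sum_filter, Finset.mul_sum,
    ← Finset.sum_sub_distrib]
  apply Finset.sum_congr rfl
  intro r _
  by_cases h : (D r).1 = i
  · by_cases h' : (D r).2 = true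
    · simp [h, h']; ring
    · simp [h, h']
  · simp [h]

/-- The event that three coordinates are small. -/
def smallSet {d m : ℕ} (w : Fin m → ℕ) (i j k : Fin d) (R R' : ℕ) :
    Finset (Fin m → Fin d × Bool) :=
  Finset.univ.filter (fun D => |coord w D i| ≤ R ∧ |coord w D j| ≤ R ∧ |coord w D k| ≤ R')

/-- sign patterns for a fixed axis assignment -/
lemma fiber_card {d m : ℕ} (w : Fin m → ℕ) (i j k : Fin d) (hij : i ≠ j) (hik : i ≠ k)
    (hjk : j ≠ k) (R R' : ℕ) (a : Fin m → Fin d) :
    ((smallSet w i j k R R').filter (fun D => (fun r => (D r).1) = a)).card ≤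
      cnt (Ax a i) w R * (cnt (Ax a j) w R * (cnt (Ax a k) w R' *
        2 ^ (Finset.univ \ (Ax a i ∪ Ax a j ∪ Ax a k)).card)) := by
  unfold cnt
  rw [← Finset.card_powerset (Finset.univ \ (Ax a i ∪ Ax a j ∪ Ax a k)),
    ← Finset.card_product, ← Finset.card_product, ← Finset.card_product]
  apply Finset.card_le_card_of_injOn (fun D =>
    ((Ax a i).filter (fun r => (D r).2 = true), (Ax a j).filter (fun r => (D r).2 = true),
     (Ax a k).filter (fun r => (D r).2 = true),
     (Finset.univ \ (Ax a i ∪ Ax a j ∪ Ax a k)).filter (fun r => (D r).2 = true)))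
  · intro D hD
    rw [Finset.mem_coe, Finset.mem_filter, smallSet, Finset.mem_filter] at hD
    obtain ⟨⟨_, h1, h2, h3⟩, h4⟩ := hD
    rw [coord_eq, h4] at h1 h2 h3
    simp only [Finset.mem_coe, Finset.mem_product, Finset.mem_filter, Finset.mem_powerset]
    exact ⟨⟨Finset.filter_subset _ _, h1⟩, ⟨Finset.filter_subset _ _, h2⟩,
      ⟨Finset.filter_subset _ _, h3⟩, Finset.filter_subset _ _⟩
  · intro D hD D' hD' h
    rw [Finset.mem_coe, Finset.mem_filter] at hD hD'
    simp only [Prod.mk.injEq] at h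
    obtain ⟨e1, e2, e3, e4⟩ := h
    have key : ∀ (S : Finset (Fin m)) (r : Fin m), r ∈ S →
        S.filter (fun r => (D r).2 = true) = S.filter (fun r => (D' r).2 = true) →
        (D r).2 = (D' r).2 := by
      intro S r hr h
      have h5 : (r ∈ S.filter (fun r => (D r).2 = true)) ↔
          (r ∈ S.filter (fun r => (D' r).2 = true)) := by rw [h]
      rw [Finset.mem_filter, Finset.mem_filter] at h5
      simp only [hr, true_and] at h5
      exact Bool.eq_iff_iff.2 h5
    funext r
    apply Prod.ext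
    · exact (congrFun hD.2 r).trans (congrFun hD'.2 r).symm
    · by_cases h1 : r ∈ Ax a i
      · exact key _ r h1 e1
      · by_cases h2 : r ∈ Ax a j
        · exact key _ r h2 e2
        · by_cases h3 : r ∈ Ax a k
          · exact key _ r h3 e3
          · exact key _ r (by simp [h1, h2, h3]) e4

lemma fiber_real {d m : ℕ} (w : Fin m → ℕ) (i j k : Fin d) (hij : i ≠ j) (hik : i ≠ k)
    (hjk : j ≠ k) (R R' : ℕ) (a : Fin m → Fin d) :
    (((smallSet w i j k R R').filter (fun D => (fun r => (D r).1) = a)).card : ℝ) ≤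
      2 ^ m * (((cnt (Ax a i) w R : ℝ) / 2 ^ (Ax a i).card) *
        ((cnt (Ax a j) w R : ℝ) / 2 ^ (Ax a j).card) *
        ((cnt (Ax a k) w R' : ℝ) / 2 ^ (Ax a k).card)) := by
  have h := fiber_card w i j k hij hik hjk R R' a
  have h' : (((smallSet w i j k R R').filter (fun D => (fun r => (D r).1) = a)).card : ℝ) ≤
      (cnt (Ax a i) w R : ℝ) * ((cnt (Ax a j) w R : ℝ) * ((cnt (Ax a k) w R' : ℝ) *
        2 ^ (Finset.univ \ (Ax a i ∪ Ax a j ∪ Ax a k)).card)) := by exact_mod_cast h
  have hd1 : Disjoint (Ax a i) (Ax a j) := by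
    rw [Finset.disjoint_left]; intro r h1 h2
    rw [mem_Ax] at h1 h2; exact hij (h1.symm.trans h2)
  have hd2 : Disjoint (Ax a i ∪ Ax a j) (Ax a k) := by
    rw [Finset.disjoint_left]; intro r h1 h2
    rw [Finset.mem_union, mem_Ax, mem_Ax] at h1
    rw [mem_Ax] at h2
    rcases h1 with h1 | h1
    · exact hik (h1.symm.trans h2)
    · exact hjk (h1.symm.trans h2)
  have hcard : m = (Ax a i).card + (Ax a j).card + (Ax a k).card +
      (Finset.univ \ (Ax a i ∪ Ax a j ∪ Ax a k)).card := by
    have h1 := Finset.card_sdiff_add_card_eq_card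
      (Finset.subset_univ (Ax a i ∪ Ax a j ∪ Ax a k))
    rw [Finset.card_univ, Fintype.card_fin, Finset.card_union_of_disjoint hd2,
      Finset.card_union_of_disjoint hd1] at h1
    omega
  refine h'.trans (le_of_eq ?_)
  have h2 : (2 : ℝ) ^ m = 2 ^ (Ax a i).card * 2 ^ (Ax a j).card * 2 ^ (Ax a k).card *
      2 ^ (Finset.univ \ (Ax a i ∪ Ax a j ∪ Ax a k)).card := by
    rw [← pow_add, ← pow_add, ← pow_add, ← hcard]
  rw [h2]
  field_simp

/-- indicator of a bad axis assignment -/
noncomputable def bad {d m : ℕ} (Q : Finset (Fin m)) (i : Fin d) (a : Fin m → Fin d) : ℝ :=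
  if 2 * d * (Q.filter (fun r => a r = i)).card < Q.card then 1 else 0

lemma bad_nonneg {d m : ℕ} (Q : Finset (Fin m)) (i : Fin d) (a : Fin m → Fin d) :
    0 ≤ bad Q i a := by
  unfold bad; split_ifs <;> norm_num

noncomputable def theta (d : ℕ) : ℝ := (2 : ℝ) ^ (1 / (2 * d) : ℝ) * (1 - 1 / (2 * d))

lemma sum_bad {d m : ℕ} (Q : Finset (Fin m)) (i : Fin d) :
    ∑ a : Fin m → Fin d, bad Q i a ≤ theta d ^ Q.card * d ^ m := by
  have h := bad_axes i m Q
  unfold bad theta
  rw [Finset.sum_ite, Finset.sum_const_zero, add_zero, Finset.sum_const, nsmul_eq_mul, mul_one]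
  exact h

/-- a normalised count is at most 1 -/
lemma rho_le_one {m : ℕ} (I : Finset (Fin m)) (w : Fin m → ℕ) (R : ℕ) :
    (cnt I w R : ℝ) / 2 ^ I.card ≤ 1 := by
  rw [div_le_one (by positivity)]
  exact_mod_cast cnt_le_pow I w R

lemma rho_nonneg {m : ℕ} (I : Finset (Fin m)) (w : Fin m → ℕ) (R : ℕ) :
    0 ≤ (cnt I w R : ℝ) / 2 ^ I.card := by positivity

lemma Ax_inter {d m : ℕ} (Q : Finset (Fin m)) (i : Fin d) (a : Fin m → Fin d) :
    Q.filter (fun r => a r = i) ⊆ Ax a i := by
  intro r hr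
  rw [mem_Ax]; exact (Finset.mem_filter.1 hr).2

/-- bound through a window -/
lemma rho_window {d m : ℕ} (w : Fin m → ℕ) (i : Fin d) (Q : Finset (Fin m)) (L : ℕ)
    (hL : ∀ r ∈ Q, L ≤ w r) (R k : ℕ) (hk : R + 1 ≤ k * L) (a : Fin m → Fin d) :
    (cnt (Ax a i) w R : ℝ) / 2 ^ (Ax a i).card ≤
      bad Q i a + k * Real.sqrt (2 * d) / Real.sqrt (Q.card + 1) := by
  by_cases h : 2 * d * (Q.filter (fun r => a r = i)).card < Q.card
  · have : bad Q i a = 1 := by unfold bad; rw [if_pos h]
    rw [this]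
    have h1 := rho_le_one (Ax a i) w R
    have : 0 ≤ k * Real.sqrt (2 * d) / Real.sqrt (Q.card + 1) := by positivity
    linarith
  · have : bad Q i a = 0 := by unfold bad; rw [if_neg h]
    rw [this, zero_add]
    have h1 := cnt_window_real (Ax a i) (Q.filter (fun r => a r = i)) (Ax_inter Q i a) w L
      (fun r hr => hL r (Finset.mem_filter.1 hr).1) R k hk
    refine h1.trans ?_
    have hd : (1 : ℝ) ≤ d := by exact_mod_cast i.pos
    have h2 : (Q.card : ℝ) ≤ 2 * d * ((Q.filter (fun r => a r = i)).card : ℝ) := by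
      exact_mod_cast not_lt.1 h
    have h3 : Real.sqrt (Q.card + 1) ≤ Real.sqrt (2 * d) *
        Real.sqrt ((Q.filter (fun r => a r = i)).card + 1) := by
      rw [← Real.sqrt_mul (by positivity)]
      apply Real.sqrt_le_sqrt
      nlinarith
    rw [div_le_div_iff₀ (by positivity) (by positivity)]
    calc (k : ℝ) * Real.sqrt (Q.card + 1) ≤ k * (Real.sqrt (2 * d) *
        Real.sqrt ((Q.filter (fun r => a r = i)).card + 1)) := by gcongr
      _ = _ := by ring

/-- bound through distinct values -/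
lemma rho_distinct {d m : ℕ} (w : Fin m → ℕ) (i : Fin d) (Q : Finset (Fin m))
    (hinj : Set.InjOn w (Q : Set (Fin m))) (hQ : 0 < Q.card) (R : ℕ) (a : Fin m → Fin d) :
    (cnt (Ax a i) w R : ℝ) / 2 ^ (Ax a i).card ≤
      bad Q i a + 4 * d * (R + 1) / Q.card := by
  have hQ' : (0 : ℝ) < Q.card := by exact_mod_cast hQ
  by_cases h : 2 * d * (Q.filter (fun r => a r = i)).card < Q.card
  · have : bad Q i a = 1 := by unfold bad; rw [if_pos h]
    rw [this]
    have h1 := rho_le_one (Ax a i) w R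
    have : 0 ≤ 4 * (d : ℝ) * (R + 1) / Q.card := by positivity
    linarith
  · have : bad Q i a = 0 := by unfold bad; rw [if_neg h]
    rw [this, zero_add]
    have h2 : (Q.card : ℝ) ≤ 2 * d * ((Q.filter (fun r => a r = i)).card : ℝ) := by
      exact_mod_cast not_lt.1 h
    have hpos : 0 < (Q.filter (fun r => a r = i)).card := by
      rcases Nat.eq_zero_or_pos (Q.filter (fun r => a r = i)).card with h0 | h0
      · rw [h0, Nat.mul_zero] at h; omega
      · exact h0
    have hpos' : (0 : ℝ) < (Q.filter (fun r => a r = i)).card := by exact_mod_cast hpos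
    have h1 := cnt_distinct_real (Ax a i) (Q.filter (fun r => a r = i)) (Ax_inter Q i a) w
      (hinj.mono (by intro r hr; exact (Finset.mem_filter.1 hr).1)) R hpos
    refine h1.trans ?_
    rw [div_le_div_iff₀ hpos' hQ']
    calc 2 * ((R : ℝ) + 1) * Q.card ≤ 2 * ((R : ℝ) + 1) *
        (2 * d * ((Q.filter (fun r => a r = i)).card : ℝ)) := by gcongr
      _ = _ := by ring

lemma card_smallSet {d m : ℕ} (w : Fin m → ℕ) (i j k : Fin d) (hij : i ≠ j) (hik : i ≠ k)
    (hjk : j ≠ k) (R R' : ℕ) :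
    ((smallSet w i j k R R').card : ℝ) ≤ 2 ^ m * ∑ a : Fin m → Fin d,
      (((cnt (Ax a i) w R : ℝ) / 2 ^ (Ax a i).card) *
        ((cnt (Ax a j) w R : ℝ) / 2 ^ (Ax a j).card) *
        ((cnt (Ax a k) w R' : ℝ) / 2 ^ (Ax a k).card)) := by
  have h := Finset.card_eq_sum_card_fiberwise (s := smallSet w i j k R R')
    (t := (Finset.univ : Finset (Fin m → Fin d))) (f := fun D r => (D r).1)
    (fun _ _ => Finset.mem_coe.2 (Finset.mem_univ _))
  rw [h]
  push_cast
  rw [Finset.mul_sum]
  exact Finset.sum_le_sum (fun a _ => fiber_real w i j k hij hik hjk R R' a)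

/-- First bound. -/
lemma bound_one {d m : ℕ} (w : Fin m → ℕ) (hw : ∀ r, 1 ≤ w r) (i j k : Fin d) (hij : i ≠ j)
    (hik : i ≠ k) (hjk : j ≠ k) (R L : ℕ) (hL : 1 ≤ L) :
    ((smallSet w i j k R (R + L)).card : ℝ) ≤ (2 * d) ^ m *
      (2 * theta d ^ m + (R + 1) ^ 2 * (2 * d) / (m + 1) *
        (theta d ^ (Finset.univ.filter (fun r => L ≤ w r)).card +
          (R + 2) * Real.sqrt (2 * d) /
            Real.sqrt ((Finset.univ.filter (fun r => L ≤ w r)).card + 1))) := by
  set Q : Finset (Fin m) := Finset.univ.filter (fun r => L ≤ w r) with hQ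
  have hQL : ∀ r ∈ Q, L ≤ w r := fun r hr => (Finset.mem_filter.1 hr).2
  have hcardm : (Finset.univ : Finset (Fin m)).card = m := by simp
  refine (card_smallSet w i j k hij hik hjk R (R + L)).trans ?_
  set K : ℝ := (R + 2) * Real.sqrt (2 * d) / Real.sqrt (Q.card + 1) with hK
  set B : ℝ := (R + 1) * Real.sqrt (2 * d) / Real.sqrt (m + 1) with hB
  have hK0 : 0 ≤ K := by positivity
  have hB0 : 0 ≤ B := by positivity
  have hB2 : B * B = (R + 1) ^ 2 * (2 * d) / (m + 1) := by
    rw [hB, div_mul_div_comm, Real.mul_self_sqrt (by positivity)]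
    have : Real.sqrt (2 * d) * Real.sqrt (2 * d) = 2 * d := Real.mul_self_sqrt (by positivity)
    congr 1
    calc (R + 1) * Real.sqrt (2 * d) * ((R + 1) * Real.sqrt (2 * d)) =
        ((R : ℝ) + 1) ^ 2 * (Real.sqrt (2 * d) * Real.sqrt (2 * d)) := by ring
      _ = _ := by rw [this]
  have hterm : ∀ a : Fin m → Fin d,
      (((cnt (Ax a i) w R : ℝ) / 2 ^ (Ax a i).card) *
        ((cnt (Ax a j) w R : ℝ) / 2 ^ (Ax a j).card) *
        ((cnt (Ax a k) w (R + L) : ℝ) / 2 ^ (Ax a k).card)) ≤
      bad Finset.univ i a + bad Finset.univ j a + B * B * (bad Q k a + K) := by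
    intro a
    have hi := rho_window w i Finset.univ 1 (fun r _ => hw r) R (R + 1) (by omega) a
    have hj := rho_window w j Finset.univ 1 (fun r _ => hw r) R (R + 1) (by omega) a
    have hk := rho_window w k Q L hQL (R + L) (R + 2) (by nlinarith) a
    rw [hcardm] at hi hj
    push_cast at hi hj hk
    rw [← hB] at hi hj
    rw [← hK] at hk
    have hi1 := rho_le_one (Ax a i) w R
    have hj1 := rho_le_one (Ax a j) w R
    have hk1 := rho_le_one (Ax a k) w (R + L)
    have hi0 := rho_nonneg (Ax a i) w R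
    have hj0 := rho_nonneg (Ax a j) w R
    have hk0 := rho_nonneg (Ax a k) w (R + L)
    set x := (cnt (Ax a i) w R : ℝ) / 2 ^ (Ax a i).card
    set y := (cnt (Ax a j) w R : ℝ) / 2 ^ (Ax a j).card
    set z := (cnt (Ax a k) w (R + L) : ℝ) / 2 ^ (Ax a k).card
    have hbk := bad_nonneg Q k a
    have hbi := bad_nonneg Finset.univ i a
    have hbj := bad_nonneg Finset.univ j a
    have hrest : 0 ≤ B * B * (bad Q k a + K) := by positivity
    by_cases hgi : bad Finset.univ i a = 0
    · by_cases hgj : bad Finset.univ j a = 0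
      · rw [hgi, zero_add] at hi
        rw [hgj, zero_add] at hj
        have h9 : x * y * z ≤ B * B * (bad Q k a + K) := by gcongr
        linarith
      · have : bad Finset.univ j a = 1 := by
          unfold bad at hgj ⊢; split_ifs at hgj ⊢ <;> simp_all
        rw [this]
        have : x * y * z ≤ 1 * 1 * 1 := by gcongr
        linarith
    · have : bad Finset.univ i a = 1 := by
        unfold bad at hgi ⊢; split_ifs at hgi ⊢ <;> simp_all
      rw [this]
      have : x * y * z ≤ 1 * 1 * 1 := by gcongr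
      linarith
  have hsum := Finset.sum_le_sum (fun a (_ : a ∈ (Finset.univ : Finset (Fin m → Fin d))) => hterm a)
  rw [Finset.sum_add_distrib, Finset.sum_add_distrib, ← Finset.mul_sum, Finset.sum_add_distrib,
    Finset.sum_const, nsmul_eq_mul, Finset.card_univ, Fintype.card_fun, Fintype.card_fin,
    Fintype.card_fin] at hsum
  have hbi := sum_bad (Finset.univ : Finset (Fin m)) i
  have hbj := sum_bad (Finset.univ : Finset (Fin m)) j
  have hbk := sum_bad Q k
  rw [hcardm] at hbi hbj
  have hBB : 0 ≤ B * B := by positivity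
  calc (2 : ℝ) ^ m * _ ≤ 2 ^ m * (theta d ^ m * d ^ m + theta d ^ m * d ^ m +
        B * B * (theta d ^ Q.card * d ^ m + ((d ^ m : ℕ) : ℝ) * K)) := by
        apply mul_le_mul_of_nonneg_left _ (by positivity)
        refine hsum.trans ?_
        gcongr
    _ = (2 * d) ^ m * (2 * theta d ^ m + B * B * (theta d ^ Q.card + K)) := by
        push_cast
        rw [mul_pow]; ring
    _ = _ := by rw [hB2]

/-- Second bound. -/
lemma bound_two {d m : ℕ} (w : Fin m → ℕ) (i j k : Fin d) (hij : i ≠ j)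
    (hik : i ≠ k) (hjk : j ≠ k) (R R' : ℕ) (Q : Finset (Fin m))
    (hinj : Set.InjOn w (Q : Set (Fin m))) (hQ : 0 < Q.card) :
    ((smallSet w i j k R R').card : ℝ) ≤ (2 * d) ^ m *
      (2 * theta d ^ Q.card + (4 * d * (R + 1) / Q.card) ^ 2) := by
  refine (card_smallSet w i j k hij hik hjk R R').trans ?_
  set B : ℝ := 4 * d * (R + 1) / Q.card with hB
  have hB0 : 0 ≤ B := by positivity
  have hterm : ∀ a : Fin m → Fin d,
      (((cnt (Ax a i) w R : ℝ) / 2 ^ (Ax a i).card) *
        ((cnt (Ax a j) w R : ℝ) / 2 ^ (Ax a j).card) *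
        ((cnt (Ax a k) w R' : ℝ) / 2 ^ (Ax a k).card)) ≤
      bad Q i a + bad Q j a + B * B := by
    intro a
    have hi := rho_distinct w i Q hinj hQ R a
    have hj := rho_distinct w j Q hinj hQ R a
    rw [← hB] at hi hj
    have hi1 := rho_le_one (Ax a i) w R
    have hj1 := rho_le_one (Ax a j) w R
    have hk1 := rho_le_one (Ax a k) w R'
    have hi0 := rho_nonneg (Ax a i) w R
    have hj0 := rho_nonneg (Ax a j) w R
    have hk0 := rho_nonneg (Ax a k) w R'
    set x := (cnt (Ax a i) w R : ℝ) / 2 ^ (Ax a i).card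
    set y := (cnt (Ax a j) w R : ℝ) / 2 ^ (Ax a j).card
    set z := (cnt (Ax a k) w R' : ℝ) / 2 ^ (Ax a k).card
    have hbi := bad_nonneg Q i a
    have hbj := bad_nonneg Q j a
    have hrest : 0 ≤ B * B := by positivity
    by_cases hgi : bad Q i a = 0
    · by_cases hgj : bad Q j a = 0
      · rw [hgi, zero_add] at hi
        rw [hgj, zero_add] at hj
        have h9 : x * y * z ≤ B * B * 1 := by gcongr
        linarith
      · have : bad Q j a = 1 := by
          unfold bad at hgj ⊢; split_ifs at hgj ⊢ <;> simp_all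
        rw [this]
        have : x * y * z ≤ 1 * 1 * 1 := by gcongr
        linarith
    · have : bad Q i a = 1 := by
        unfold bad at hgi ⊢; split_ifs at hgi ⊢ <;> simp_all
      rw [this]
      have : x * y * z ≤ 1 * 1 * 1 := by gcongr
      linarith
  have hsum := Finset.sum_le_sum (fun a (_ : a ∈ (Finset.univ : Finset (Fin m → Fin d))) => hterm a)
  rw [Finset.sum_add_distrib, Finset.sum_add_distrib,
    Finset.sum_const, nsmul_eq_mul, Finset.card_univ, Fintype.card_fun, Fintype.card_fin,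
    Fintype.card_fin] at hsum
  have hbi := sum_bad Q i
  have hbj := sum_bad Q j
  calc (2 : ℝ) ^ m * _ ≤ 2 ^ m * (theta d ^ Q.card * d ^ m + theta d ^ Q.card * d ^ m +
        ((d ^ m : ℕ) : ℝ) * (B * B)) := by
        apply mul_le_mul_of_nonneg_left _ (by positivity)
        refine hsum.trans ?_
        gcongr
    _ = (2 * d) ^ m * (2 * theta d ^ Q.card + B ^ 2) := by
        push_cast
        rw [mul_pow]; ring

end Pool.Agent.H89CRW
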