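import Pool.Agent.Helper89.CRW3

set_option autoImplicit false

open Finset

namespace Pool.Agent.H89CRW

/-- number of distinct values among the first `m` run lengths -/
def Dst (l : ℕ → ℕ) (m : ℕ) : ℕ := ((Finset.range m).image l).card

/-- number of earlier runs at least as long -/
def qn (l : ℕ → ℕ) (m : ℕ) : ℕ := ((Finset.range m).filter (fun r => l m ≤ l r)).card

lemma qn_le (l : ℕ → ℕ) (m : ℕ) : qn l m ≤ m := by
  have := Finset.card_filter_le (Finset.range m) (fun r => l m ≤ l r)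
  rw [Finset.card_range] at this; exact this

/-- first occurrence of the value `l m` -/
lemma exists_first (l : ℕ → ℕ) (m : ℕ) : ∃ f, f ≤ m ∧ l f = l m ∧ ∀ r < f, l r ≠ l m := by
  classical
  have h : ∃ f, l f = l m := ⟨m, rfl⟩
  exact ⟨Nat.find h, Nat.find_min' h rfl, Nat.find_spec h, fun r hr => Nat.find_min h hr⟩

noncomputable def fst (l : ℕ → ℕ) (m : ℕ) : ℕ := (exists_first l m).choose

lemma fst_le (l : ℕ → ℕ) (m : ℕ) : fst l m ≤ m := (exists_first l m).choose_spec.1
lemma fst_eq (l : ℕ → ℕ) (m : ℕ) : l (fst l m) = l m := (exists_first l m).choose_spec.2.1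
lemma fst_min (l : ℕ → ℕ) (m : ℕ) : ∀ r < fst l m, l r ≠ l m :=
  (exists_first l m).choose_spec.2.2

noncomputable def In (l : ℕ → ℕ) (m : ℕ) : ℕ := Dst l (fst l m)
def Jn (l : ℕ → ℕ) (m : ℕ) : ℕ := ((Finset.range m).filter (fun r => l r = l m)).card

lemma In_le (l : ℕ → ℕ) (m : ℕ) : In l m ≤ Dst l m := by
  unfold In Dst
  apply Finset.card_le_card
  apply Finset.image_subset_image
  rw [Finset.range_subset_range]
  exact fst_le l m

lemma Jn_le (l : ℕ → ℕ) (m : ℕ) : Jn l m ≤ qn l m := by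
  apply Finset.card_le_card
  intro r hr
  rw [Finset.mem_filter] at hr ⊢
  exact ⟨hr.1, hr.2.ge⟩

lemma pair_injective (l : ℕ → ℕ) : Function.Injective (fun m => (In l m, Jn l m)) := by
  intro m m' h
  simp only [Prod.mk.injEq] at h
  obtain ⟨hI, hJ⟩ := h
  have key : ∀ a b : ℕ, In l a = In l b → fst l a < fst l b → False := by
    intro a b hab hlt
    have hss : (Finset.range (fst l a)).image l ⊂ (Finset.range (fst l b)).image l := by
      rw [Finset.ssubset_iff_of_subset
        (Finset.image_subset_image (Finset.range_subset_range.2 hlt.le))]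
      refine ⟨l (fst l a), Finset.mem_image_of_mem _ (Finset.mem_range.2 hlt), ?_⟩
      rw [Finset.mem_image]
      rintro ⟨r, hr, hr'⟩
      rw [fst_eq l a] at hr'
      exact fst_min l a r (Finset.mem_range.1 hr) hr'
    have := Finset.card_lt_card hss
    unfold In Dst at hab
    omega
  have hf : fst l m = fst l m' := by
    rcases lt_trichotomy (fst l m) (fst l m') with h | h | h
    · exact (key m m' hI h).elim
    · exact h
    · exact (key m' m hI.symm h).elim
  have hl : l m = l m' := by rw [← fst_eq l m, ← fst_eq l m', hf]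
  have key2 : ∀ a b : ℕ, l a = l b → Jn l a = Jn l b → a < b → False := by
    intro a b hab hJ hlt
    have hss : (Finset.range a).filter (fun r => l r = l a) ⊂
        (Finset.range b).filter (fun r => l r = l b) := by
      rw [Finset.ssubset_iff_of_subset]
      · exact ⟨a, Finset.mem_filter.2 ⟨Finset.mem_range.2 hlt, hab⟩, by simp⟩
      · intro r hr
        rw [Finset.mem_filter, Finset.mem_range] at hr ⊢
        exact ⟨hr.1.trans hlt, hr.2.trans hab⟩
    have := Finset.card_lt_card hss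
    unfold Jn at hJ
    omega
  rcases lt_trichotomy m m' with h | h | h
  · exact (key2 m m' hl hJ h).elim
  · exact h
  · exact (key2 m' m hl.symm hJ.symm h).elim

/-- The key summability. -/
lemma summable_min (l : ℕ → ℕ) :
    Summable (fun m : ℕ => min (1 / (((m : ℝ) + 1) * Real.sqrt (qn l m + 1)))
      (1 / ((Dst l m : ℝ) + 1) ^ 2)) := by
  have s1 : Summable (fun m : ℕ => ((m : ℝ) + 1) ^ (-(4 / 3 : ℝ))) := by
    have := (Real.summable_nat_rpow (p := -(4 / 3 : ℝ))).2 (by norm_num)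
    have h2 := (summable_nat_add_iff 1).2 this
    simpa using h2
  have s2 : Summable (fun m : ℕ => ((m : ℝ) + 1) ^ (-(21 / 20 : ℝ))) := by
    have := (Real.summable_nat_rpow (p := -(21 / 20 : ℝ))).2 (by norm_num)
    have h2 := (summable_nat_add_iff 1).2 this
    simpa using h2
  have s3 : Summable (fun m : ℕ => ((m : ℝ) + 1) ^ (-(6 / 5 : ℝ))) := by
    have := (Real.summable_nat_rpow (p := -(6 / 5 : ℝ))).2 (by norm_num)
    have h2 := (summable_nat_add_iff 1).2 this
    simpa using h2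
  have s4 : Summable (fun m : ℕ => ((m : ℝ) + 1) ^ (-(2 : ℝ))) := by
    have := (Real.summable_nat_rpow (p := -(2 : ℝ))).2 (by norm_num)
    have h2 := (summable_nat_add_iff 1).2 this
    simpa using h2
  have s5 : Summable (fun x : ℕ × ℕ => ((x.1 : ℝ) + 1) ^ (-(6 / 5 : ℝ)) *
      ((x.2 : ℝ) + 1) ^ (-(2 : ℝ))) :=
    s3.mul_of_nonneg s4 (fun m => by positivity) (fun m => by positivity)
  have s6 := s5.comp_injective (pair_injective l)
  refine Summable.of_nonneg_of_le (fun m => by positivity) (fun m => ?_) ((s1.add s2).add s6)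
  simp only [Function.comp]
  set N : ℝ := (m : ℝ) + 1 with hN
  have hN1 : 1 ≤ N := by rw [hN]; linarith [Nat.cast_nonneg (α := ℝ) m]
  have hN0 : 0 < N := by linarith
  set q : ℝ := (qn l m : ℝ) + 1 with hq
  set D : ℝ := (Dst l m : ℝ) + 1 with hD
  have hq1 : 1 ≤ q := by rw [hq]; linarith [Nat.cast_nonneg (α := ℝ) (qn l m)]
  have hD1 : 1 ≤ D := by rw [hD]; linarith [Nat.cast_nonneg (α := ℝ) (Dst l m)]
  have p1 : 0 ≤ N ^ (-(4 / 3 : ℝ)) := by positivity
  have p2 : 0 ≤ N ^ (-(21 / 20 : ℝ)) := by positivity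
  have p3 : 0 ≤ ((In l m : ℝ) + 1) ^ (-(6 / 5 : ℝ)) * ((Jn l m : ℝ) + 1) ^ (-(2 : ℝ)) := by
    positivity
  by_cases hA : N ^ (2 / 3 : ℝ) ≤ D
  · have : 1 / D ^ 2 ≤ N ^ (-(4 / 3 : ℝ)) := by
      rw [Real.rpow_neg hN0.le, one_div]
      apply inv_anti₀ (by positivity)
      calc N ^ (4 / 3 : ℝ) = (N ^ (2 / 3 : ℝ)) ^ 2 := by
            rw [← Real.rpow_natCast, ← Real.rpow_mul hN0.le]; norm_num
        _ ≤ D ^ 2 := by gcongr
    calc min _ _ ≤ 1 / D ^ 2 := min_le_right _ _
      _ ≤ _ := by linarith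
  · push Not at hA
    by_cases hB : N ^ (1 / 10 : ℝ) ≤ q
    · have : 1 / (N * Real.sqrt q) ≤ N ^ (-(21 / 20 : ℝ)) := by
        rw [Real.rpow_neg hN0.le, one_div]
        apply inv_anti₀ (by positivity)
        calc N ^ (21 / 20 : ℝ) = N * Real.sqrt (N ^ (1 / 10 : ℝ)) := by
              rw [Real.sqrt_eq_rpow, ← Real.rpow_mul hN0.le]
              nth_rewrite 2 [← Real.rpow_one N]
              rw [← Real.rpow_add hN0]; norm_num
          _ ≤ N * Real.sqrt q := by
              apply mul_le_mul_of_nonneg_left (Real.sqrt_le_sqrt hB) hN0.le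
      calc min _ _ ≤ 1 / (N * Real.sqrt q) := min_le_left _ _
        _ ≤ _ := by linarith
    · push Not at hB
      have hI : ((In l m : ℝ) + 1) ≤ D := by
        rw [hD]; have := In_le l m
        have h' : (In l m : ℝ) ≤ (Dst l m : ℝ) := by exact_mod_cast this
        linarith
      have hJ : ((Jn l m : ℝ) + 1) ≤ q := by
        rw [hq]; have := Jn_le l m
        have h' : (Jn l m : ℝ) ≤ (qn l m : ℝ) := by exact_mod_cast this
        linarith
      have : 1 / (N * Real.sqrt q) ≤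
          ((In l m : ℝ) + 1) ^ (-(6 / 5 : ℝ)) * ((Jn l m : ℝ) + 1) ^ (-(2 : ℝ)) := by
        have h1 : 1 / (N * Real.sqrt q) ≤ 1 / N := by
          apply one_div_le_one_div_of_le hN0
          have : 1 ≤ Real.sqrt q := by rw [Real.one_le_sqrt]; exact hq1
          nlinarith
        have h2 : (1 : ℝ) / N = N ^ (-(4 / 5 : ℝ)) * N ^ (-(1 / 5 : ℝ)) := by
          rw [← Real.rpow_add hN0]; norm_num
          rw [Real.rpow_neg_one]
        have h3 : N ^ (-(4 / 5 : ℝ)) ≤ ((In l m : ℝ) + 1) ^ (-(6 / 5 : ℝ)) := by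
          rw [Real.rpow_neg hN0.le, Real.rpow_neg (by positivity)]
          apply inv_anti₀ (by positivity)
          calc ((In l m : ℝ) + 1) ^ (6 / 5 : ℝ) ≤ (N ^ (2 / 3 : ℝ)) ^ (6 / 5 : ℝ) := by
                apply Real.rpow_le_rpow (by positivity) _ (by norm_num)
                linarith
            _ = N ^ (4 / 5 : ℝ) := by rw [← Real.rpow_mul hN0.le]; norm_num
        have h4 : N ^ (-(1 / 5 : ℝ)) ≤ ((Jn l m : ℝ) + 1) ^ (-(2 : ℝ)) := by
          rw [Real.rpow_neg hN0.le, Real.rpow_neg (by positivity)]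
          apply inv_anti₀ (by positivity)
          calc ((Jn l m : ℝ) + 1) ^ (2 : ℝ) ≤ (N ^ (1 / 10 : ℝ)) ^ (2 : ℝ) := by
                apply Real.rpow_le_rpow (by positivity) _ (by norm_num)
                linarith
            _ = N ^ (1 / 5 : ℝ) := by rw [← Real.rpow_mul hN0.le]; norm_num
        calc _ ≤ 1 / N := h1
          _ = N ^ (-(4 / 5 : ℝ)) * N ^ (-(1 / 5 : ℝ)) := h2
          _ ≤ _ := by gcongr
      calc min _ _ ≤ 1 / (N * Real.sqrt q) := min_le_left _ _
        _ ≤ _ := by linarith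

/-- geometric decay beats quadratic decay -/
lemma exists_theta_const {θ : ℝ} (h0 : 0 ≤ θ) (h1 : θ < 1) :
    ∃ c : ℝ, 0 < c ∧ ∀ n : ℕ, θ ^ n ≤ c / ((n : ℝ) + 1) ^ 2 := by
  have ht : Filter.Tendsto (fun n : ℕ => ((n : ℝ) ^ 2 * θ ^ n)) Filter.atTop (nhds 0) :=
    tendsto_pow_const_mul_const_pow_of_lt_one 2 h0 h1
  obtain ⟨C, hC⟩ := ht.bddAbove_range
  have hC' : ∀ n : ℕ, (n : ℝ) ^ 2 * θ ^ n ≤ C := fun n => hC ⟨n, rfl⟩
  have hC0 : 0 ≤ C := by simpa using hC' 0
  refine ⟨4 * C + 4, by linarith, fun n => ?_⟩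
  rw [le_div_iff₀ (by positivity)]
  rcases Nat.eq_zero_or_pos n with rfl | hn
  · simp; linarith
  · have hn' : (1 : ℝ) ≤ n := by exact_mod_cast hn
    have hθ : θ ^ n ≥ 0 := by positivity
    calc θ ^ n * ((n : ℝ) + 1) ^ 2 ≤ θ ^ n * (2 * n) ^ 2 := by
          apply mul_le_mul_of_nonneg_left _ hθ
          apply pow_le_pow_left₀ (by positivity); linarith
      _ = 4 * ((n : ℝ) ^ 2 * θ ^ n) := by ring
      _ ≤ 4 * C + 4 := by linarith [hC' n]

/-- The probability that three coordinates are small at the start of run `m`. -/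
lemma prob_bound {d : ℕ} (hd : 0 < d) (R : ℕ) :
    ∃ C : ℝ, ∀ (l : ℕ → ℕ), (∀ r, 1 ≤ l r) → ∀ (m : ℕ) (i j k : Fin d), i ≠ j → i ≠ k → j ≠ k →
      ((smallSet (fun r : Fin m => l r) i j k R (R + l m)).card : ℝ) ≤ (2 * d) ^ m *
        (C * min (1 / (((m : ℝ) + 1) * Real.sqrt (qn l m + 1)))
          (1 / ((Dst l m : ℝ) + 1) ^ 2)) := by
  obtain ⟨c, hc0, hc⟩ := exists_theta_const (θ := theta d) (theta_nonneg hd) (theta_lt_one hd)
  have hd' : (1 : ℝ) ≤ d := by exact_mod_cast hd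
  set K₁ : ℝ := ((R : ℝ) + 1) ^ 2 * (2 * d) with hK₁
  set K₂ : ℝ := ((R : ℝ) + 2) * Real.sqrt (2 * d) with hK₂
  set K₃ : ℝ := 4 * d * ((R : ℝ) + 1) with hK₃
  have hK₁0 : 0 ≤ K₁ := by positivity
  have hK₂0 : 0 ≤ K₂ := by positivity
  have hK₃1 : 1 ≤ K₃ := by rw [hK₃]; nlinarith [Nat.cast_nonneg (α := ℝ) R]
  set C₁ : ℝ := 2 * c + K₁ * (c + K₂) with hC₁
  set C₂ : ℝ := 2 * c + 4 * K₃ ^ 2 with hC₂
  have hC₁0 : 0 ≤ C₁ := by positivity
  have hC₂0 : 0 ≤ C₂ := by positivity
  refine ⟨C₁ + C₂, fun l hl m i j k hij hik hjk => ?_⟩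
  have hpow : (0 : ℝ) < (2 * d) ^ m := by positivity
  have hcardq : (Finset.univ.filter (fun r : Fin m => l m ≤ l r)).card = qn l m := by
    unfold qn
    rw [← Finset.card_map Fin.valEmbedding]
    congr 1
    ext x
    simp only [Finset.mem_map, Finset.mem_filter, Finset.mem_univ, true_and, Finset.mem_range,
      Fin.valEmbedding_apply]
    constructor
    · rintro ⟨a, ha, rfl⟩; exact ⟨a.2, ha⟩
    · rintro ⟨hx, hx'⟩; exact ⟨⟨x, hx⟩, hx', rfl⟩
  have hq1 : (1 : ℝ) ≤ Real.sqrt (qn l m + 1) := by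
    rw [Real.one_le_sqrt]; linarith [Nat.cast_nonneg (α := ℝ) (qn l m)]
  have hm1 : (1 : ℝ) ≤ (m : ℝ) + 1 := by linarith [Nat.cast_nonneg (α := ℝ) m]
  -- first bound
  have b1 : ((smallSet (fun r : Fin m => l r) i j k R (R + l m)).card : ℝ) ≤ (2 * d) ^ m *
      (C₁ * (1 / (((m : ℝ) + 1) * Real.sqrt (qn l m + 1)))) := by
    have h := bound_one (fun r : Fin m => l r) (fun r => hl r) i j k hij hik hjk R (l m) (hl m)
    rw [hcardq] at h
    refine h.trans (mul_le_mul_of_nonneg_left ?_ hpow.le)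
    set s := Real.sqrt ((qn l m : ℝ) + 1) with hs
    have hs0 : 0 < s := by linarith
    have e1 : 2 * theta d ^ m ≤ 2 * c * (1 / (((m : ℝ) + 1) * s)) := by
      have h1 := hc m
      have h2 : s ≤ (m : ℝ) + 1 := by
        rw [hs]
        apply Real.sqrt_le_iff.2
        refine ⟨by linarith, ?_⟩
        have : (qn l m : ℝ) ≤ m := by exact_mod_cast qn_le l m
        nlinarith
      have h3 : c / ((m : ℝ) + 1) ^ 2 ≤ c * (1 / (((m : ℝ) + 1) * s)) := by
        rw [div_eq_mul_one_div]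
        apply mul_le_mul_of_nonneg_left _ hc0.le
        apply one_div_le_one_div_of_le (by positivity)
        nlinarith
      linarith
    have e2 : theta d ^ (qn l m) ≤ c * (1 / s) := by
      have h1 := hc (qn l m)
      refine h1.trans ?_
      rw [div_eq_mul_one_div]
      apply mul_le_mul_of_nonneg_left _ hc0.le
      apply one_div_le_one_div_of_le hs0
      rw [hs]
      apply Real.sqrt_le_iff.2
      refine ⟨by positivity, ?_⟩
      have : (1 : ℝ) ≤ (qn l m : ℝ) + 1 := by linarith [Nat.cast_nonneg (α := ℝ) (qn l m)]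
      calc ((qn l m : ℝ) + 1) = ((qn l m : ℝ) + 1) ^ 1 := (pow_one _).symm
        _ ≤ ((qn l m : ℝ) + 1) ^ 4 := pow_le_pow_right₀ this (by norm_num)
        _ = _ := by ring
    have e3 : K₂ / s = K₂ * (1 / s) := by ring
    calc 2 * theta d ^ m + K₁ / ((m : ℝ) + 1) * (theta d ^ (qn l m) + K₂ / s)
        ≤ 2 * c * (1 / (((m : ℝ) + 1) * s)) + K₁ / ((m : ℝ) + 1) * (c * (1 / s) + K₂ * (1 / s)) := by
          rw [e3]; gcongr
      _ = C₁ * (1 / (((m : ℝ) + 1) * s)) := by
          rw [hC₁]; field_simp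
  -- second bound
  have b2 : ((smallSet (fun r : Fin m => l r) i j k R (R + l m)).card : ℝ) ≤ (2 * d) ^ m *
      (C₂ * (1 / ((Dst l m : ℝ) + 1) ^ 2)) := by
    set Q : Finset (Fin m) := Finset.univ.filter (fun r => ∀ r' : Fin m, r' < r → l r' ≠ l r)
      with hQ
    have hinj : Set.InjOn (fun r : Fin m => l r) (Q : Set (Fin m)) := by
      intro r hr r' hr' h
      rw [hQ, Finset.mem_coe, Finset.mem_filter] at hr hr'
      rcases lt_trichotomy r r' with h' | h' | h'
      · exact absurd h (hr'.2 r h')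
      · exact h'
      · exact absurd h.symm (hr.2 r' h')
    have hQcard : Q.card = Dst l m := by
      unfold Dst
      rw [← Finset.card_image_of_injOn hinj]
      congr 1
      ext v
      simp only [Finset.mem_image, Finset.mem_range]
      constructor
      · rintro ⟨r, _, rfl⟩; exact ⟨r, r.2, rfl⟩
      · rintro ⟨r, hr, rfl⟩
        have hf := (fst_le l r).trans_lt hr
        refine ⟨⟨fst l r, hf⟩, ?_, fst_eq l r⟩
        rw [hQ, Finset.mem_filter]
        refine ⟨Finset.mem_univ _, fun r' hr' => ?_⟩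
        show l r' ≠ l (fst l r)
        rw [fst_eq l r]
        exact fst_min l r r' hr'
    rcases Nat.eq_zero_or_pos (Dst l m) with h0 | hpos
    · rw [h0]
      have h1 : ((smallSet (fun r : Fin m => l r) i j k R (R + l m)).card : ℝ) ≤ (2 * d) ^ m := by
        have := Finset.card_le_univ (smallSet (fun r : Fin m => l r) i j k R (R + l m))
        rw [Fintype.card_fun, Fintype.card_prod, Fintype.card_fin, Fintype.card_bool,
          Fintype.card_fin] at this
        have h' : ((smallSet (fun r : Fin m => l r) i j k R (R + l m)).card : ℝ) ≤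
          ((d * 2 : ℕ) : ℝ) ^ m := by exact_mod_cast this
        push_cast at h'
        rwa [mul_comm (d : ℝ) 2] at h'
      refine h1.trans ?_
      have : (1 : ℝ) ≤ C₂ := by rw [hC₂]; nlinarith
      have e : (C₂ * (1 / (((0 : ℕ) : ℝ) + 1) ^ 2)) = C₂ := by norm_num
      rw [e]
      nlinarith
    · have h := bound_two (fun r : Fin m => l r) i j k hij hik hjk R (R + l m) Q hinj
        (by rw [hQcard]; exact hpos)
      rw [hQcard] at h
      refine h.trans (mul_le_mul_of_nonneg_left ?_ hpow.le)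
      have hD1 : (1 : ℝ) ≤ (Dst l m : ℝ) := by exact_mod_cast hpos
      have e1 := hc (Dst l m)
      have e2 : (K₃ / (Dst l m : ℝ)) ^ 2 ≤ 4 * K₃ ^ 2 * (1 / ((Dst l m : ℝ) + 1) ^ 2) := by
        rw [div_pow, mul_one_div, div_le_div_iff₀ (by positivity) (by positivity)]
        have h9 : ((Dst l m : ℝ) + 1) ^ 2 ≤ 4 * (Dst l m : ℝ) ^ 2 := by nlinarith
        calc K₃ ^ 2 * ((Dst l m : ℝ) + 1) ^ 2 ≤ K₃ ^ 2 * (4 * (Dst l m : ℝ) ^ 2) := by gcongr
          _ = _ := by ring
      calc 2 * theta d ^ Dst l m + (K₃ / (Dst l m : ℝ)) ^ 2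
          ≤ 2 * (c / ((Dst l m : ℝ) + 1) ^ 2) + 4 * K₃ ^ 2 * (1 / ((Dst l m : ℝ) + 1) ^ 2) := by
            linarith
        _ = _ := by rw [hC₂]; ring
  set x := 1 / (((m : ℝ) + 1) * Real.sqrt (qn l m + 1)) with hx
  set y := 1 / ((Dst l m : ℝ) + 1) ^ 2 with hy
  have hx0 : 0 ≤ x := by positivity
  have hy0 : 0 ≤ y := by positivity
  rcases le_total x y with h | h
  · rw [min_eq_left h]
    refine b1.trans (mul_le_mul_of_nonneg_left ?_ hpow.le)
    nlinarith
  · rw [min_eq_right h]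
    refine b2.trans (mul_le_mul_of_nonneg_left ?_ hpow.le)
    nlinarith

end Pool.Agent.H89CRW
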