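import Pool.Agent.Helper89.CRWDefs
import Pool.Agent.Helper89.CRW4

set_option autoImplicit false

open MeasureTheory Filter

namespace Pool.Agent.H89CRW

instance (d : ℕ) [NeZero d] : IsProbabilityMeasure (unif d) := by
  unfold unif; infer_instance

lemma unif_singleton (d : ℕ) [NeZero d] (e : Dir d) : unif d {e} = ((2 * d : ℕ) : ENNReal)⁻¹ := by
  unfold unif
  rw [PMF.toMeasure_uniformOfFintype_apply _ (measurableSet_singleton e)]
  rw [Fintype.card_unique, Fintype.card_prod, Fintype.card_fin, Fintype.card_bool]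
  rw [mul_comm d 2]
  simp

/-- relabelling by an injection preserves the law of an i.i.d. sequence -/
lemma map_inj (d : ℕ) [NeZero d] (h : ℕ → ℕ) (hh : Function.Injective h) :
    (Measure.infinitePi (fun _ : ℕ => unif d)).map (fun v r => v (h r)) =
      Measure.infinitePi (fun _ : ℕ => unif d) := by
  apply Measure.eq_infinitePi
  intro s t' ht'
  change ∀ i : ℕ, MeasurableSet (t' i : Set (Dir d)) at ht'
  obtain ⟨t, rfl⟩ : ∃ t : ℕ → Set (Dir d), t = t' := ⟨t', rfl⟩
  have ht : ∀ i : ℕ, MeasurableSet (t i) := ht'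
  have hm : Measurable (fun (v : ℕ → Dir d) (r : ℕ) => v (h r)) :=
    measurable_pi_lambda _ (fun r => measurable_pi_apply _)
  rw [Measure.map_apply hm (MeasurableSet.pi s.countable_toSet (fun i _ => ht i))]
  classical
  obtain ⟨g, hg⟩ : ∃ g : ℕ → ℕ, ∀ r, g (h r) = r :=
    ⟨Function.invFun h, Function.leftInverse_invFun hh⟩
  have hset : (fun (v : ℕ → Dir d) (r : ℕ) => v (h r)) ⁻¹' (Set.pi (s : Set ℕ) t) =
      Set.pi ((s.image h : Finset ℕ) : Set ℕ) (fun j => t (g j)) := by
    ext v
    simp only [Set.mem_preimage, Set.mem_pi, Finset.coe_image, Set.mem_image, Finset.mem_coe,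
      forall_exists_index, and_imp, forall_apply_eq_imp_iff₂]
    have key : ∀ a, t (g (h a)) = t a := fun a => congrArg t (hg a)
    constructor
    · intro H a ha; rw [key]; exact H a ha
    · intro H a ha; have := H a ha; rw [key] at this; exact this
  rw [hset, Measure.infinitePi_pi _ (fun i _ => ht _), Finset.prod_image (fun a _ b _ hab => hh hab)]
  apply Finset.prod_congr rfl
  intro a _
  exact congrArg (fun x => unif d (t x)) (hg a)

/-- cylinder events -/
lemma measure_cyl (d : ℕ) [NeZero d] (m : ℕ) (S : Finset (Fin m → Dir d)) :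
    Measure.infinitePi (fun _ : ℕ => unif d) {v | (fun r : Fin m => v r) ∈ S} ≤
      (S.card : ENNReal) * (((2 * d : ℕ) : ENNReal)⁻¹) ^ m := by
  classical
  have hsub : {v : ℕ → Dir d | (fun r : Fin m => v r) ∈ S} ⊆
      ⋃ s ∈ S, Set.pi ((Finset.range m : Finset ℕ) : Set ℕ)
        (fun r => if h : r < m then {s ⟨r, h⟩} else Set.univ) := by
    intro v hv
    have hv' : (fun r : Fin m => v r) ∈ S := hv
    rw [Set.mem_iUnion₂]
    refine ⟨_, hv', ?_⟩
    intro r hr
    rw [Finset.mem_coe, Finset.mem_range] at hr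
    simp [hr]
  refine (measure_mono hsub).trans ?_
  refine (measure_biUnion_finset_le _ _).trans ?_
  have hterm : ∀ s ∈ S, Measure.infinitePi (fun _ : ℕ => unif d)
      (Set.pi ((Finset.range m : Finset ℕ) : Set ℕ)
        (fun r => if h : r < m then {s ⟨r, h⟩} else Set.univ)) =
      (((2 * d : ℕ) : ENNReal)⁻¹) ^ m := by
    intro s _
    rw [Measure.infinitePi_pi]
    · rw [Finset.prod_congr rfl (g := fun _ => (((2 * d : ℕ) : ENNReal)⁻¹))]
      · rw [Finset.prod_const, Finset.card_range]
      · intro r hr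
        rw [Finset.mem_range] at hr
        rw [dif_pos hr, unif_singleton]
    · intro r _
      split_ifs
      · exact measurableSet_singleton _
      · exact MeasurableSet.univ
  rw [Finset.sum_congr rfl hterm, Finset.sum_const, nsmul_eq_mul]

/-- the bad event for run `m` -/
def badRun {d : ℕ} (l : ℕ → ℕ) (R m : ℕ) : Set (ℕ → Dir d) :=
  {v | ∃ i j k : Fin d, i ≠ j ∧ i ≠ k ∧ j ≠ k ∧
    (fun r : Fin m => v r) ∈ smallSet (fun r : Fin m => l r) i j k R (R + l m)}

/-- Almost surely only finitely many runs come near the origin. -/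
lemma ae_badRun (d : ℕ) [NeZero d] (l : ℕ → ℕ) (hl : ∀ r, 1 ≤ l r) (R : ℕ) :
    ∀ᵐ v ∂(Measure.infinitePi (fun _ : ℕ => unif d)), ∀ᶠ m in atTop, v ∉ badRun l R m := by
  obtain ⟨C, hC⟩ := prob_bound (d := d) (NeZero.pos d) R
  have hd : (0 : ℝ) < d := by exact_mod_cast NeZero.pos d
  set b : ℕ → ℝ := fun m => min (1 / (((m : ℝ) + 1) * Real.sqrt (qn l m + 1)))
      (1 / ((Dst l m : ℝ) + 1) ^ 2) with hb
  have hb0 : ∀ m, 0 ≤ b m := fun m => by positivity
  have hsum : Summable (fun m => (d : ℝ) ^ 3 * (|C| * b m)) :=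
    ((summable_min l).mul_left _).mul_left _
  apply ae_eventually_notMem
  have hle : ∀ m, Measure.infinitePi (fun _ : ℕ => unif d) (badRun (d := d) l R m) ≤
      ENNReal.ofReal ((d : ℝ) ^ 3 * (|C| * b m)) := by
    intro m
    have hsub : badRun (d := d) l R m ⊆ ⋃ x ∈ (Finset.univ : Finset (Fin d × Fin d × Fin d)),
        {v | (x.1 ≠ x.2.1 ∧ x.1 ≠ x.2.2 ∧ x.2.1 ≠ x.2.2) ∧ (fun r : Fin m => v r) ∈
          smallSet (fun r : Fin m => l r) x.1 x.2.1 x.2.2 R (R + l m)} := by
      rintro v ⟨i, j, k, h1, h2, h3, h4⟩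
      rw [Set.mem_iUnion₂]
      exact ⟨(i, j, k), Finset.mem_univ _, ⟨h1, h2, h3⟩, h4⟩
    refine (measure_mono hsub).trans ((measure_biUnion_finset_le _ _).trans ?_)
    have hterm : ∀ x ∈ (Finset.univ : Finset (Fin d × Fin d × Fin d)),
        Measure.infinitePi (fun _ : ℕ => unif d)
        {v | (x.1 ≠ x.2.1 ∧ x.1 ≠ x.2.2 ∧ x.2.1 ≠ x.2.2) ∧ (fun r : Fin m => v r) ∈
          smallSet (fun r : Fin m => l r) x.1 x.2.1 x.2.2 R (R + l m)} ≤
        ENNReal.ofReal (|C| * b m) := by
      intro x _
      by_cases hx : x.1 ≠ x.2.1 ∧ x.1 ≠ x.2.2 ∧ x.2.1 ≠ x.2.2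
      · have h1 := hC l hl m x.1 x.2.1 x.2.2 hx.1 hx.2.1 hx.2.2
        have h2 := measure_cyl d m (smallSet (fun r : Fin m => l r) x.1 x.2.1 x.2.2 R (R + l m))
        refine (measure_mono (fun v hv => hv.2)).trans (h2.trans ?_)
        have hpow : (0 : ℝ) < (2 * d) ^ m := by positivity
        have e1 : (((2 * d : ℕ) : ENNReal)⁻¹) ^ m = ENNReal.ofReal (((2 * (d : ℝ)) ^ m)⁻¹) := by
          rw [ENNReal.ofReal_inv_of_pos hpow, ENNReal.ofReal_pow (by positivity), ENNReal.inv_pow]
          congr 2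
          rw [show (2 * (d : ℝ)) = ((2 * d : ℕ) : ℝ) by push_cast; ring, ENNReal.ofReal_natCast]
        rw [e1, ← ENNReal.ofReal_natCast, ← ENNReal.ofReal_mul (by positivity)]
        apply ENNReal.ofReal_le_ofReal
        rw [← div_eq_mul_inv, div_le_iff₀ hpow, mul_comm]
        refine h1.trans (mul_le_mul_of_nonneg_left ?_ hpow.le)
        exact mul_le_mul_of_nonneg_right (le_abs_self C) (hb0 m)
      · have : {v : ℕ → Dir d | (x.1 ≠ x.2.1 ∧ x.1 ≠ x.2.2 ∧ x.2.1 ≠ x.2.2) ∧
          (fun r : Fin m => v r) ∈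
          smallSet (fun r : Fin m => l r) x.1 x.2.1 x.2.2 R (R + l m)} = ∅ := by
          ext v; simp only [Set.mem_empty_iff_false, iff_false]
          exact fun h => hx h.1
        rw [this]; simp
    refine (Finset.sum_le_sum hterm).trans ?_
    rw [Finset.sum_const, nsmul_eq_mul, Finset.card_univ, Fintype.card_prod, Fintype.card_prod,
      Fintype.card_fin, ← ENNReal.ofReal_natCast, ← ENNReal.ofReal_mul (Nat.cast_nonneg _)]
    apply le_of_eq
    congr 1
    push_cast; ring
  refine ne_top_of_le_ne_top ?_ (ENNReal.tsum_le_tsum hle)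
  rw [← ENNReal.ofReal_tsum_of_nonneg (fun m => by positivity) hsum]
  exact ENNReal.ofReal_ne_top

/-- the resampling times -/
def Res (p : ℕ → ℝ) (u : ℕ → unitInterval) (n : ℕ) : Prop := n = 0 ∨ ((u n : unitInterval) : ℝ) ≤ p n

open Classical in
lemma step_eq {d : ℕ} (p : ℕ → ℝ) (u : ℕ → unitInterval) (v : ℕ → Dir d) (n : ℕ) :
    step p u v n = v (Nat.nth (Res p u) (Nat.count (Res p u) (n + 1) - 1)) := by
  induction n with
  | zero =>
    have h0 : Res p u 0 := Or.inl rfl
    have : Nat.count (Res p u) (0 + 1) = 1 := by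
      rw [Nat.count_succ, Nat.count_zero, if_pos h0]
    rw [this]
    show v 0 = _
    rw [Nat.sub_self, Nat.nth_zero_of_zero h0]
  | succ n ih =>
    by_cases h : ((u (n + 1) : unitInterval) : ℝ) ≤ p (n + 1)
    · have hR : Res p u (n + 1) := Or.inr h
      have h1 : step p u v (n + 1) = v (n + 1) := by
        show (if _ then _ else _) = _
        rw [if_pos h]
      rw [h1, Nat.count_succ, if_pos hR, Nat.add_sub_cancel, Nat.nth_count hR]
    · have hR : ¬ Res p u (n + 1) := by
        rintro (h' | h')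
        · omega
        · exact h h'
      have h1 : step p u v (n + 1) = step p u v n := by
        show (if _ then _ else _) = _
        rw [if_neg h]
      rw [h1, ih, Nat.count_succ (Res p u) (n + 1), if_neg hR, add_zero]

lemma step_run {d : ℕ} (p : ℕ → ℝ) (u : ℕ → unitInterval) (v : ℕ → Dir d)
    (hinf : (Set.ofPred (Res p u)).Infinite) (m t : ℕ) (h1 : Nat.nth (Res p u) m ≤ t)
    (h2 : t < Nat.nth (Res p u) (m + 1)) : step p u v t = v (Nat.nth (Res p u) m) := by
  classical
  rw [step_eq]
  have e1 : Nat.count (Res p u) (t + 1) ≤ m + 1 := by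
    rw [Nat.count_le_iff_le_nth hinf]; omega
  have e2 : ¬ Nat.count (Res p u) (t + 1) ≤ m := by
    rw [Nat.count_le_iff_le_nth hinf]; omega
  congr 2
  omega

lemma pos_run {d : ℕ} (p : ℕ → ℝ) (u : ℕ → unitInterval) (v : ℕ → Dir d)
    (hinf : (Set.ofPred (Res p u)).Infinite) (m n : ℕ) (h1 : Nat.nth (Res p u) m ≤ n)
    (h2 : n ≤ Nat.nth (Res p u) (m + 1)) (j : Fin d) :
    pos p u v n j = pos p u v (Nat.nth (Res p u) m) j +
      ((n - Nat.nth (Res p u) m : ℕ) : ℤ) * vec (v (Nat.nth (Res p u) m)) j := by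
  unfold pos
  rw [← Finset.sum_range_add_sum_Ico _ h1]
  congr 1
  rw [Finset.sum_congr rfl (g := fun _ => vec (v (Nat.nth (Res p u) m)) j)]
  · rw [Finset.sum_const, Nat.card_Ico, nsmul_eq_mul]
  · intro t ht
    rw [Finset.mem_Ico] at ht
    rw [step_run p u v hinf m t ht.1 (by omega)]

/-- run lengths -/
noncomputable def len (p : ℕ → ℝ) (u : ℕ → unitInterval) (r : ℕ) : ℕ :=
  Nat.nth (Res p u) (r + 1) - Nat.nth (Res p u) r

lemma len_pos (p : ℕ → ℝ) (u : ℕ → unitInterval)
    (hinf : (Set.ofPred (Res p u)).Infinite) (r : ℕ) : 1 ≤ len p u r := by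
  have := Nat.nth_strictMono hinf (show r < r + 1 by omega)
  unfold len; omega

lemma pos_nth {d : ℕ} (p : ℕ → ℝ) (u : ℕ → unitInterval) (v : ℕ → Dir d)
    (hinf : (Set.ofPred (Res p u)).Infinite) (m : ℕ) (j : Fin d) :
    pos p u v (Nat.nth (Res p u) m) j =
      coord (fun r : Fin m => len p u r) (fun r : Fin m => v (Nat.nth (Res p u) r)) j := by
  have hcoord : ∀ m : ℕ, coord (fun r : Fin m => len p u r)
      (fun r : Fin m => v (Nat.nth (Res p u) r)) j =
      ∑ r ∈ Finset.range m, (len p u r : ℤ) * vec (v (Nat.nth (Res p u) r)) j := by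
    intro m
    unfold coord
    rw [Finset.sum_range]
    apply Finset.sum_congr rfl
    intro r _
    unfold vec
    split_ifs <;> simp
  rw [hcoord]
  induction m with
  | zero =>
    have : Nat.nth (Res p u) 0 = 0 := Nat.nth_zero_of_zero (Or.inl rfl)
    rw [this]; simp [pos]
  | succ m ih =>
    rw [Finset.sum_range_succ, ← ih]
    exact pos_run p u v hinf m _ (Nat.nth_strictMono hinf (Nat.lt_succ_self m)).le le_rfl j

/-- In dimension at least three the walk leaves every box, for fixed resampling times. -/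
lemma ae_leaves (d : ℕ) [NeZero d] (hd : 3 ≤ d) (p : ℕ → ℝ) (u : ℕ → unitInterval) :
    ∀ᵐ v ∂(Measure.infinitePi (fun _ : ℕ => unif d)),
      ∀ R : ℕ, ∀ᶠ n in atTop, ∃ j, (R : ℤ) < |pos p u v n j| := by
  classical
  by_cases hinf : (Set.ofPred (Res p u)).Infinite
  · rw [ae_all_iff]
    intro R
    have h1 := ae_badRun d (len p u) (len_pos p u hinf) R
    rw [← map_inj d (Nat.nth (Res p u)) (Nat.nth_injective hinf)] at h1
    have hm : Measurable (fun (v : ℕ → Dir d) (r : ℕ) => v (Nat.nth (Res p u) r)) :=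
      measurable_pi_lambda _ (fun r => measurable_pi_apply _)
    have h2 := ae_of_ae_map hm.aemeasurable h1
    filter_upwards [h2] with v hv
    rw [Filter.eventually_atTop] at hv
    obtain ⟨m₀, hm₀⟩ := hv
    rw [Filter.eventually_atTop]
    refine ⟨Nat.nth (Res p u) m₀, fun n hn => ?_⟩
    by_contra hcon
    push Not at hcon
    -- the run containing `n`
    obtain ⟨m, hm1, hm2⟩ : ∃ m, Nat.nth (Res p u) m ≤ n ∧ n < Nat.nth (Res p u) (m + 1) := by
      refine ⟨Nat.count (Res p u) (n + 1) - 1, ?_, ?_⟩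
      · have h0 : Nat.nth (Res p u) 0 = 0 := Nat.nth_zero_of_zero (Or.inl rfl)
        by_contra hlt
        have h3 : ¬ (n + 1 ≤ Nat.nth (Res p u) (Nat.count (Res p u) (n + 1) - 1)) → False := by
          intro h4; omega
        have h5 : n + 1 ≤ Nat.nth (Res p u) (Nat.count (Res p u) (n + 1) - 1) := by
          by_contra h6; exact h3 h6
        rw [← Nat.count_le_iff_le_nth hinf] at h5
        have h6 : 0 < Nat.count (Res p u) (n + 1) := by
          rw [Nat.pos_iff_ne_zero]
          intro h7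
          have h8 : Nat.count (Res p u) (n + 1) ≤ 0 := by omega
          rw [Nat.count_le_iff_le_nth hinf, h0] at h8
          omega
        omega
      · have h5 : n + 1 ≤ Nat.nth (Res p u) (Nat.count (Res p u) (n + 1) - 1 + 1) := by
          rw [← Nat.count_le_iff_le_nth hinf]; omega
        omega
    have hmm : m₀ ≤ m := by
      by_contra hlt
      push Not at hlt
      have := (Nat.nth_monotone hinf) (show m + 1 ≤ m₀ by omega)
      omega
    apply hm₀ m hmm
    -- the direction of the run
    set k : Fin d := (v (Nat.nth (Res p u) m)).1 with hk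
    have hcard : 2 ≤ ((Finset.univ : Finset (Fin d)).erase k).card := by
      rw [Finset.card_erase_of_mem (Finset.mem_univ _), Finset.card_univ, Fintype.card_fin]
      omega
    obtain ⟨i, hi, j, hj, hij⟩ := Finset.one_lt_card.1
      (show 1 < ((Finset.univ : Finset (Fin d)).erase k).card by omega)
    rw [Finset.mem_erase] at hi hj
    refine ⟨i, j, k, hij, hi.1, hj.1, ?_⟩
    unfold smallSet
    rw [Finset.mem_filter]
    have hvec : ∀ c : Fin d, c ≠ k → vec (v (Nat.nth (Res p u) m)) c = 0 := by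
      intro c hc
      unfold vec
      rw [if_neg (fun h => hc h.symm)]
    have hveck : |vec (v (Nat.nth (Res p u) m)) k| ≤ 1 := by
      unfold vec
      split_ifs <;> simp
    have hrun : ∀ c, pos p u v n c = coord (fun r : Fin m => len p u r)
        (fun r : Fin m => v (Nat.nth (Res p u) r)) c +
      ((n - Nat.nth (Res p u) m : ℕ) : ℤ) * vec (v (Nat.nth (Res p u) m)) c := by
      intro c
      rw [← pos_nth p u v hinf m c]
      exact pos_run p u v hinf m n hm1 hm2.le c
    refine ⟨Finset.mem_univ _, ?_, ?_, ?_⟩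
    · have := hcon i
      rw [hrun i, hvec i hi.1, mul_zero, add_zero] at this
      exact this
    · have := hcon j
      rw [hrun j, hvec j hj.1, mul_zero, add_zero] at this
      exact this
    · have h3 := hcon k
      rw [hrun k] at h3
      have h4 : |((n - Nat.nth (Res p u) m : ℕ) : ℤ) * vec (v (Nat.nth (Res p u) m)) k| ≤
          (len p u m : ℤ) := by
        rw [abs_mul, Nat.abs_cast]
        have h5 : ((n - Nat.nth (Res p u) m : ℕ) : ℤ) ≤ (len p u m : ℤ) := by
          unfold len; omega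
        calc ((n - Nat.nth (Res p u) m : ℕ) : ℤ) * |vec (v (Nat.nth (Res p u) m)) k| ≤
            ((n - Nat.nth (Res p u) m : ℕ) : ℤ) * 1 := by gcongr
          _ ≤ _ := by rw [mul_one]; exact h5
      push_cast
      set x := coord (fun r : Fin m => len p u r)
        (fun r : Fin m => v (Nat.nth (Res p u) r)) k
      set y := ((n - Nat.nth (Res p u) m : ℕ) : ℤ) * vec (v (Nat.nth (Res p u) m)) k
      rw [abs_le] at h3 h4 ⊢
      constructor <;> omega
  · -- finitely many resampling times
    rw [Set.not_infinite] at hinf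
    filter_upwards with v R
    obtain ⟨N, hN⟩ := hinf.bddAbove
    have hN' : ∀ n, N < n → ¬ ((u n : unitInterval) : ℝ) ≤ p n := by
      intro n hn h
      have : n ≤ N := hN (show Res p u n from Or.inr h)
      omega
    have hstep : ∀ k, step p u v (N + k) = step p u v N := by
      intro k
      induction k with
      | zero => rfl
      | succ k ih =>
        rw [← ih]
        show (if ((u (N + k + 1) : unitInterval) : ℝ) ≤ p (N + k + 1) then v (N + k + 1)
          else step p u v (N + k)) = _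
        rw [if_neg (hN' (N + k + 1) (by omega))]
    set e := step p u v N with he
    have hpos : ∀ k, pos p u v (N + k) e.1 = pos p u v N e.1 + (k : ℤ) * vec e e.1 := by
      intro k
      induction k with
      | zero => simp
      | succ k ih =>
        unfold pos at ih ⊢
        rw [← add_assoc, Finset.sum_range_succ, ih, hstep]
        push_cast; ring
    have hve : |vec e e.1| = 1 := by
      unfold vec; rw [if_pos rfl]; split_ifs <;> simp
    rw [Filter.eventually_atTop]
    refine ⟨N + (R + 1 + (pos p u v N e.1).natAbs), fun n hn => ⟨e.1, ?_⟩⟩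
    obtain ⟨k, rfl⟩ := Nat.exists_eq_add_of_le (show N ≤ n by omega)
    rw [hpos]
    have h1 : |(k : ℤ) * vec e e.1| = k := by rw [abs_mul, hve, mul_one, Nat.abs_cast]
    have h2 : |(k : ℤ) * vec e e.1| ≤ |pos p u v N e.1 + (k : ℤ) * vec e e.1| +
        |pos p u v N e.1| := by
      have := abs_sub_abs_le_abs_sub ((k : ℤ) * vec e e.1) (-pos p u v N e.1)
      rw [abs_neg, sub_neg_eq_add, add_comm ((k : ℤ) * vec e e.1)] at this
      linarith
    have h3 : ((pos p u v N e.1).natAbs : ℤ) = |pos p u v N e.1| := Int.natCast_natAbs _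
    omega

lemma measurable_step {d : ℕ} (p : ℕ → ℝ) (n : ℕ) :
    Measurable (fun ω : (ℕ → unitInterval) × (ℕ → Dir d) => step p ω.1 ω.2 n) := by
  classical
  induction n with
  | zero => exact (measurable_pi_apply 0).comp measurable_snd
  | succ n ih =>
    show Measurable (fun ω : (ℕ → unitInterval) × (ℕ → Dir d) =>
      if ((ω.1 (n + 1) : unitInterval) : ℝ) ≤ p (n + 1) then ω.2 (n + 1) else step p ω.1 ω.2 n)
    apply Measurable.ite _ ((measurable_pi_apply (n + 1)).comp measurable_snd) ih
    exact measurableSet_le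
      (measurable_subtype_coe.comp ((measurable_pi_apply (n + 1)).comp measurable_fst))
      measurable_const

lemma measurable_enorm_pos {d : ℕ} (p : ℕ → ℝ) (n : ℕ) :
    Measurable (fun ω : (ℕ → unitInterval) × (ℕ → Dir d) => enorm2 (pos p ω.1 ω.2 n)) := by
  unfold enorm2 pos
  apply Measurable.sqrt
  apply Finset.measurable_sum
  intro j _
  apply Measurable.pow_const
  have : (fun ω : (ℕ → unitInterval) × (ℕ → Dir d) =>
      ((∑ t ∈ Finset.range n, vec (step p ω.1 ω.2 t) j : ℤ) : ℝ)) =
      fun ω => ∑ t ∈ Finset.range n, ((vec (step p ω.1 ω.2 t) j : ℤ) : ℝ) := by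
    funext ω; push_cast; rfl
  rw [this]
  apply Finset.measurable_sum
  intro t _
  exact (measurable_of_countable (fun e : Dir d => ((vec e j : ℤ) : ℝ))).comp (measurable_step p t)

lemma tendsto_of_leaves {d : ℕ} (x : ℕ → Fin d → ℤ)
    (h : ∀ R : ℕ, ∀ᶠ n in atTop, ∃ j, (R : ℤ) < |x n j|) :
    Tendsto (fun n => enorm2 (x n)) atTop atTop := by
  rw [tendsto_atTop]
  intro b
  obtain ⟨R, hR⟩ := exists_nat_ge b
  filter_upwards [h R] with n hn
  obtain ⟨j, hj⟩ := hn
  refine hR.trans ?_
  unfold enorm2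
  apply Real.le_sqrt_of_sq_le
  have h1 : ((R : ℝ)) ^ 2 ≤ ((x n j : ℤ) : ℝ) ^ 2 := by
    rw [← sq_abs ((x n j : ℤ) : ℝ)]
    apply pow_le_pow_left₀ (by positivity)
    have : ((R : ℤ) : ℝ) ≤ ((|x n j| : ℤ) : ℝ) := by exact_mod_cast hj.le
    push_cast at this
    exact this
  exact h1.trans (Finset.single_le_sum (f := fun j => ((x n j : ℤ) : ℝ) ^ 2)
    (fun i _ => sq_nonneg _) (Finset.mem_univ j))

/-- In dimension at least three every conservative random walk is strongly transient. -/
theorem stronglyTransient_of_three_le (d : ℕ) [NeZero d] (hd : 3 ≤ d) (p : ℕ → ℝ) :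
    StronglyTransient d p := by
  unfold StronglyTransient driving
  have hmeas : MeasurableSet {ω : (ℕ → unitInterval) × (ℕ → Dir d) |
      Tendsto (fun n => enorm2 (pos p ω.1 ω.2 n)) atTop atTop} :=
    measurableSet_tendsto _ (fun n => measurable_enorm_pos p n)
  rw [Measure.ae_prod_iff_ae_ae hmeas]
  filter_upwards with u
  filter_upwards [ae_leaves d hd p u] with v hv
  exact tendsto_of_leaves _ hv

end Pool.Agent.H89CRW
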