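import Pool.Agent.Helper89.CRW5

set_option autoImplicit false

open MeasureTheory Filter ProbabilityTheory

namespace Pool.Agent.H89CRW

/-- the walk escapes when there are only finitely many resamplings (any dimension) -/
lemma leaves_of_finite {d : ℕ} (p : ℕ → ℝ) (u : ℕ → unitInterval) (v : ℕ → Dir d)
    (N : ℕ) (hN : ∀ n, N < n → ¬ ((u n : unitInterval) : ℝ) ≤ p n) :
    ∀ R : ℕ, ∀ᶠ n in atTop, ∃ j, (R : ℤ) < |pos p u v n j| := by
  classical
  intro R
  have hstep : ∀ k, step p u v (N + k) = step p u v N := by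
    intro k
    induction k with
    | zero => rfl
    | succ k ih =>
      rw [← ih]
      show (if ((u (N + k + 1) : unitInterval) : ℝ) ≤ p (N + k + 1) then v (N + k + 1)
        else step p u v (N + k)) = _
      rw [if_neg (hN (N + k + 1) (by omega))]
  set e := step p u v N with he
  have hpos : ∀ k, pos p u v (N + k) e.1 = pos p u v N e.1 + (k : ℤ) * vec e e.1 := by
    intro k
    induction k with
    | zero => simp
    | succ k ih =>
      unfold pos at ih ⊢
      rw [← add_assoc, Finset.sum_range_succ, ih, hstep]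
      push_cast; ring
  have hve : |vec e e.1| = 1 := by
    unfold vec; rw [if_pos rfl]; split_ifs <;> simp
  rw [Filter.eventually_atTop]
  refine ⟨N + (R + 1 + (pos p u v N e.1).natAbs), fun n hn => ⟨e.1, ?_⟩⟩
  obtain ⟨k, rfl⟩ := Nat.exists_eq_add_of_le (show N ≤ n by omega)
  rw [hpos]
  have h1 : |(k : ℤ) * vec e e.1| = k := by rw [abs_mul, hve, mul_one, Nat.abs_cast]
  have h2 : |(k : ℤ) * vec e e.1| ≤ |pos p u v N e.1 + (k : ℤ) * vec e e.1| +
      |pos p u v N e.1| := by
    have := abs_sub_abs_le_abs_sub ((k : ℤ) * vec e e.1) (-pos p u v N e.1)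
    rw [abs_neg, sub_neg_eq_add, add_comm ((k : ℤ) * vec e e.1)] at this
    linarith
  have h3 : ((pos p u v N e.1).natAbs : ℤ) = |pos p u v N e.1| := Int.natCast_natAbs _
  omega

/-- the probability of a resampling -/
lemma measure_res (p : ℕ → ℝ) (n : ℕ) (h1 : p n ≤ 1) :
    Measure.infinitePi (fun _ : ℕ => (volume : Measure unitInterval))
      {u | ((u n : unitInterval) : ℝ) ≤ p n} = ENNReal.ofReal (p n) := by
  have hset : {u : ℕ → unitInterval | ((u n : unitInterval) : ℝ) ≤ p n} =
      (fun u : ℕ → unitInterval => u n) ⁻¹' {x | ((x : unitInterval) : ℝ) ≤ p n} := rfl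
  have hm : MeasurableSet {x : unitInterval | ((x : unitInterval) : ℝ) ≤ p n} :=
    measurableSet_le measurable_subtype_coe measurable_const
  rw [hset, ← Measure.map_apply (measurable_pi_apply n) hm, Measure.infinitePi_map_eval]
  by_cases h0 : 0 ≤ p n
  · have : {x : unitInterval | ((x : unitInterval) : ℝ) ≤ p n} = Set.Iic (⟨p n, h0, h1⟩ : unitInterval) := by
      ext x; rfl
    rw [this]
    exact unitInterval.volume_Iic _
  · have : {x : unitInterval | ((x : unitInterval) : ℝ) ≤ p n} = ∅ := by
      ext x
      simp only [Set.mem_ofPred_eq, Set.mem_empty_iff_false, iff_false, not_le]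
      exact lt_of_lt_of_le (not_le.1 h0) x.2.1
    rw [this, measure_empty, ENNReal.ofReal_of_nonpos (not_le.1 h0).le]

/-- summable resampling probabilities: strongly transient in every dimension -/
theorem stronglyTransient_of_summable (d : ℕ) [NeZero d] (p : ℕ → ℝ)
    (hp : ∀ n, 0 ≤ p n ∧ p n ≤ 1) (hs : Summable p) : StronglyTransient d p := by
  unfold StronglyTransient driving
  have hmeas : MeasurableSet {ω : (ℕ → unitInterval) × (ℕ → Dir d) |
      Tendsto (fun n => enorm2 (pos p ω.1 ω.2 n)) atTop atTop} :=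
    measurableSet_tendsto _ (fun n => measurable_enorm_pos p n)
  rw [Measure.ae_prod_iff_ae_ae hmeas]
  have h1 : ∀ᵐ u ∂(Measure.infinitePi (fun _ : ℕ => (volume : Measure unitInterval))),
      ∀ᶠ n in atTop, u ∉ {u : ℕ → unitInterval | ((u n : unitInterval) : ℝ) ≤ p n} := by
    apply ae_eventually_notMem
    have : ∀ n, Measure.infinitePi (fun _ : ℕ => (volume : Measure unitInterval))
      {u | ((u n : unitInterval) : ℝ) ≤ p n} = ENNReal.ofReal (p n) := fun n => measure_res p n (hp n).2
    rw [tsum_congr this, ← ENNReal.ofReal_tsum_of_nonneg (fun n => (hp n).1) hs]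
    exact ENNReal.ofReal_ne_top
  filter_upwards [h1] with u hu
  rw [Filter.eventually_atTop] at hu
  obtain ⟨N, hN⟩ := hu
  exact Eventually.of_forall fun v => tendsto_of_leaves _
    (leaves_of_finite p u v N (fun n hn => hN n hn.le))

/-- divergent resampling probabilities: infinitely many resamplings -/
lemma ae_frequently_res (p : ℕ → ℝ) (hp : ∀ n, 0 ≤ p n ∧ p n ≤ 1) (hs : ¬ Summable p) :
    ∀ᵐ u ∂(Measure.infinitePi (fun _ : ℕ => (volume : Measure unitInterval))),
      ∃ᶠ n in atTop, ((u n : unitInterval) : ℝ) ≤ p n := by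
  set μ := Measure.infinitePi (fun _ : ℕ => (volume : Measure unitInterval)) with hμ
  set s : ℕ → Set (ℕ → unitInterval) := fun n => {u | ((u n : unitInterval) : ℝ) ≤ p n} with hsdef
  have hm : ∀ n, MeasurableSet {x : unitInterval | ((x : unitInterval) : ℝ) ≤ p n} := fun n =>
    measurableSet_le measurable_subtype_coe measurable_const
  have hsm : ∀ n, MeasurableSet (s n) := by
    intro n
    have h : Measurable (fun u : ℕ → unitInterval => u n) := measurable_pi_apply n
    exact h (hm n)
  have hind : iIndepSet s μ := by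
    have h1 : iIndepFun (fun (i : ℕ) (ω : ℕ → unitInterval) => ω i) μ :=
      iIndepFun_infinitePi (P := fun _ : ℕ => (volume : Measure unitInterval))
        (X := fun _ ω => ω) (fun _ => measurable_id)
    rw [iIndepSet_iff_meas_biInter hsm]
    intro S
    have := h1.measure_inter_preimage_eq_mul S
      (sets := fun n => {x : unitInterval | ((x : unitInterval) : ℝ) ≤ p n})
      (fun i _ => hm i)
    exact this
  have hsum : ∑' n, μ (s n) = ⊤ := by
    have h2 : ∀ n, μ (s n) = ENNReal.ofReal (p n) := fun n => measure_res p n (hp n).2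
    rw [tsum_congr h2]
    by_contra hne
    apply hs
    have h3 := ENNReal.summable_toReal hne
    refine h3.congr (fun n => ?_)
    exact ENNReal.toReal_ofReal (hp n).1
  have h4 := measure_limsup_eq_one hsm hind hsum
  have h5 : μ (limsup s atTop)ᶜ = 0 := by
    rw [prob_compl_eq_zero_iff (MeasurableSet.measurableSet_limsup hsm)]
    exact h4
  rw [ae_iff]
  refine measure_mono_null ?_ h5
  intro u hu hmem
  apply hu
  rw [Filter.mem_limsup_iff_frequently_mem] at hmem
  exact hmem

end Pool.Agent.H89CRW
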