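import Pool.Agent.Helper89.CRW6

set_option autoImplicit false

open MeasureTheory Filter ProbabilityTheory

namespace Pool.Agent.H89CRW

/-- steps after a resampling do not depend on the past -/
lemma step_congr {d : ℕ} (p : ℕ → ℝ) (u : ℕ → unitInterval) (v v' : ℕ → Dir d) (N : ℕ)
    (hN : ((u N : unitInterval) : ℝ) ≤ p N) (hv : ∀ n, N ≤ n → v n = v' n) (k : ℕ) :
    step p u v (N + k) = step p u v' (N + k) := by
  classical
  induction k with
  | zero =>
    rw [add_zero]
    rcases Nat.eq_zero_or_pos N with h | h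
    · subst h; exact hv 0 le_rfl
    · obtain ⟨M, rfl⟩ := Nat.exists_eq_succ_of_ne_zero h.ne'
      show (if ((u (M + 1) : unitInterval) : ℝ) ≤ p (M + 1) then v (M + 1) else step p u v M) =
        (if ((u (M + 1) : unitInterval) : ℝ) ≤ p (M + 1) then v' (M + 1) else step p u v' M)
      rw [if_pos hN, if_pos hN, hv _ le_rfl]
  | succ k ih =>
    show (if ((u (N + k + 1) : unitInterval) : ℝ) ≤ p (N + k + 1) then v (N + k + 1)
        else step p u v (N + k)) = (if ((u (N + k + 1) : unitInterval) : ℝ) ≤ p (N + k + 1)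
        then v' (N + k + 1) else step p u v' (N + k))
    rw [ih, hv _ (by omega)]

lemma pos_congr {d : ℕ} (p : ℕ → ℝ) (u : ℕ → unitInterval) (v v' : ℕ → Dir d) (N : ℕ)
    (hN : ((u N : unitInterval) : ℝ) ≤ p N) (hv : ∀ n, N ≤ n → v n = v' n) (j : Fin d) (n : ℕ)
    (hn : N ≤ n) :
    pos p u v n j = pos p u v' n j + (pos p u v N j - pos p u v' N j) := by
  obtain ⟨k, rfl⟩ := Nat.exists_eq_add_of_le hn
  unfold pos
  rw [Finset.sum_range_add, Finset.sum_range_add]
  have : ∀ x ∈ Finset.range k, vec (step p u v (N + x)) j = vec (step p u v' (N + x)) j :=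
    fun x _ => by rw [step_congr p u v v' N hN hv x]
  rw [Finset.sum_congr rfl this]
  ring

/-- the event that the first coordinate tends to `+∞` -/
def upSet (p : ℕ → ℝ) (u : ℕ → unitInterval) : Set (ℕ → Dir 1) :=
  {v | Tendsto (fun n => pos p u v n 0) atTop atTop}

/-- the event that the first coordinate tends to `-∞` -/
def downSet (p : ℕ → ℝ) (u : ℕ → unitInterval) : Set (ℕ → Dir 1) :=
  {v | Tendsto (fun n => -pos p u v n 0) atTop atTop}

lemma measurable_pos_v {d : ℕ} (p : ℕ → ℝ) (u : ℕ → unitInterval) (j : Fin d) (n : ℕ) :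
    Measurable (fun v : ℕ → Dir d => pos p u v n j) := by
  unfold pos
  apply Finset.measurable_sum
  intro t _
  exact (measurable_of_countable (fun e : Dir d => vec e j)).comp
    ((measurable_step p t).comp (measurable_const.prodMk measurable_id))

lemma measurableSet_upSet (p : ℕ → ℝ) (u : ℕ → unitInterval) : MeasurableSet (upSet p u) :=
  measurableSet_tendsto _ (fun n => measurable_pos_v p u 0 n)

lemma upSet_invariant (p : ℕ → ℝ) (u : ℕ → unitInterval)
    (hu : ∃ᶠ n in atTop, ((u n : unitInterval) : ℝ) ≤ p n) (v v' : ℕ → Dir 1) (N : ℕ)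
    (hv : ∀ n, N ≤ n → v n = v' n) (h : v ∈ upSet p u) : v' ∈ upSet p u := by
  rw [Filter.frequently_atTop] at hu
  obtain ⟨M, hM, hM'⟩ := hu N
  have h1 := pos_congr p u v v' M hM' (fun n hn => hv n (hM.trans hn)) 0
  unfold upSet at h ⊢
  rw [Set.mem_ofPred_eq] at h ⊢
  have h2 : Tendsto (fun n => pos p u v n 0 + -(pos p u v M 0 - pos p u v' M 0)) atTop atTop :=
    tendsto_atTop_add_const_right _ _ h
  refine h2.congr' ?_
  filter_upwards [Filter.eventually_ge_atTop M] with n hn
  rw [h1 n hn]; ring

lemma measure_upSet (p : ℕ → ℝ) (u : ℕ → unitInterval)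
    (hu : ∃ᶠ n in atTop, ((u n : unitInterval) : ℝ) ≤ p n) :
    Measure.infinitePi (fun _ : ℕ => unif 1) (upSet p u) = 0 ∨
      Measure.infinitePi (fun _ : ℕ => unif 1) (upSet p u) = 1 := by
  classical
  have hind : iIndepFun (fun (i : ℕ) (ω : ℕ → Dir 1) => ω i)
      (Measure.infinitePi (fun _ : ℕ => unif 1)) :=
    iIndepFun_infinitePi (P := fun _ : ℕ => unif 1)
      (X := fun _ ω => ω) (fun _ => measurable_id)
  have hind' : iIndep (fun i : ℕ => MeasurableSpace.comap (fun ω : ℕ → Dir 1 => ω i) inferInstance)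
      (Measure.infinitePi (fun _ : ℕ => unif 1)) := hind
  refine measure_zero_or_one_of_measurableSet_limsup_atTop
    (s := fun i : ℕ => MeasurableSpace.comap (fun ω : ℕ → Dir 1 => ω i) inferInstance)
    (fun n => (measurable_pi_apply n).comap_le) hind' ?_
  rw [Filter.limsup_eq_iInf_iSup_of_nat]
  rw [MeasurableSpace.measurableSet_iInf]
  intro N
  -- the overwriting map
  set c : Dir 1 := (0, true)
  set ov : (ℕ → Dir 1) → (ℕ → Dir 1) := fun v i => if i < N then c else v i with hov
  have hset : upSet p u = ov ⁻¹' (upSet p u) := by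
    ext v
    constructor
    · intro h
      refine upSet_invariant p u hu v (ov v) N (fun n hn => ?_) h
      simp only [hov]; rw [if_neg (by omega)]
    · intro h
      refine upSet_invariant p u hu (ov v) v N (fun n hn => ?_) h
      simp only [hov]; rw [if_neg (by omega)]
  rw [hset]
  have hmeas : @Measurable _ _ (⨆ i, ⨆ (_ : i ≥ N), MeasurableSpace.comap
      (fun ω : ℕ → Dir 1 => ω i) inferInstance) _ ov := by
    apply @measurable_pi_lambda _ _ _ (⨆ i, ⨆ (_ : i ≥ N), MeasurableSpace.comap
      (fun ω : ℕ → Dir 1 => ω i) inferInstance)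
    intro i
    by_cases hi : i < N
    · have : (fun v => ov v i) = fun _ => c := by funext v; simp only [hov]; rw [if_pos hi]
      rw [this]
      exact @measurable_const _ _ _ (_) _
    · have : (fun v => ov v i) = fun v => v i := by funext v; simp only [hov]; rw [if_neg hi]
      rw [this]
      rw [measurable_iff_comap_le]
      exact le_iSup₂_of_le i (by omega) le_rfl
  exact hmeas (measurableSet_upSet p u)

end Pool.Agent.H89CRW
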