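import Pool.Agent.Helper89.CRW7

set_option autoImplicit false

open MeasureTheory Filter ProbabilityTheory

namespace Pool.Agent.H89CRW

/-- reversing a direction -/
def flipDir {d : ℕ} (e : Dir d) : Dir d := (e.1, !e.2)

lemma vec_flipDir {d : ℕ} (e : Dir d) (j : Fin d) : vec (flipDir e) j = -vec e j := by
  unfold vec flipDir
  rcases e with ⟨i, b⟩
  cases b <;> simp <;> split_ifs <;> simp

lemma flipDir_flipDir {d : ℕ} (e : Dir d) : flipDir (flipDir e) = e := by
  unfold flipDir; simp

lemma step_flip {d : ℕ} (p : ℕ → ℝ) (u : ℕ → unitInterval) (v : ℕ → Dir d) (n : ℕ) :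
    step p u (fun i => flipDir (v i)) n = flipDir (step p u v n) := by
  classical
  induction n with
  | zero => rfl
  | succ n ih =>
    show (if ((u (n + 1) : unitInterval) : ℝ) ≤ p (n + 1) then flipDir (v (n + 1))
        else step p u (fun i => flipDir (v i)) n) =
      flipDir (if ((u (n + 1) : unitInterval) : ℝ) ≤ p (n + 1) then v (n + 1) else step p u v n)
    split_ifs
    · rfl
    · exact ih

lemma pos_flip {d : ℕ} (p : ℕ → ℝ) (u : ℕ → unitInterval) (v : ℕ → Dir d) (n : ℕ) (j : Fin d) :
    pos p u (fun i => flipDir (v i)) n j = -pos p u v n j := by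
  unfold pos
  rw [← Finset.sum_neg_distrib]
  apply Finset.sum_congr rfl
  intro t _
  rw [step_flip, vec_flipDir]

lemma unif_map_flip (d : ℕ) [NeZero d] : (unif d).map flipDir = unif d := by
  apply Measure.ext_of_singleton
  intro e
  rw [Measure.map_apply (measurable_of_countable _) (measurableSet_singleton e)]
  have : (flipDir : Dir d → Dir d) ⁻¹' {e} = {flipDir e} := by
    ext x
    rw [Set.mem_preimage, Set.mem_singleton_iff, Set.mem_singleton_iff]
    constructor
    · rintro rfl; rw [flipDir_flipDir]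
    · rintro rfl; rw [flipDir_flipDir]
  rw [this, unif_singleton, unif_singleton]

lemma measure_downSet (p : ℕ → ℝ) (u : ℕ → unitInterval) :
    Measure.infinitePi (fun _ : ℕ => unif 1) (downSet p u) =
      Measure.infinitePi (fun _ : ℕ => unif 1) (upSet p u) := by
  have hm : Measurable (fun (v : ℕ → Dir 1) (i : ℕ) => flipDir (v i)) :=
    measurable_pi_lambda _ (fun i => (measurable_of_countable (flipDir : Dir 1 → Dir 1)).comp
      (measurable_pi_apply i))
  have h1 : (Measure.infinitePi (fun _ : ℕ => unif 1)).map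
      (fun (v : ℕ → Dir 1) (i : ℕ) => flipDir (v i)) =
      Measure.infinitePi (fun _ : ℕ => unif 1) := by
    have := Measure.infinitePi_map_pi (μ := fun _ : ℕ => unif 1)
      (f := fun _ : ℕ => (flipDir : Dir 1 → Dir 1)) (fun _ => measurable_of_countable _)
    rw [this]
    congr 1
    funext i
    exact unif_map_flip 1
  have h2 : downSet p u = (fun (v : ℕ → Dir 1) (i : ℕ) => flipDir (v i)) ⁻¹' (upSet p u) := by
    ext v
    unfold downSet upSet
    rw [Set.mem_ofPred_eq, Set.mem_preimage, Set.mem_ofPred_eq]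
    simp only [pos_flip]
  rw [h2, ← Measure.map_apply hm (measurableSet_upSet p u), h1]

lemma measure_upSet_zero (p : ℕ → ℝ) (u : ℕ → unitInterval)
    (hu : ∃ᶠ n in atTop, ((u n : unitInterval) : ℝ) ≤ p n) :
    Measure.infinitePi (fun _ : ℕ => unif 1) (upSet p u) = 0 := by
  rcases measure_upSet p u hu with h | h
  · exact h
  · exfalso
    have h' : Measure.infinitePi (fun _ : ℕ => unif 1) (downSet p u) = 1 := by
      rw [measure_downSet, h]
    have hmd : MeasurableSet (downSet p u) :=
      measurableSet_tendsto _ (fun n => (measurable_pos_v p u 0 n).neg)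
    have a1 : ∀ᵐ v ∂(Measure.infinitePi (fun _ : ℕ => unif 1)), v ∈ upSet p u :=
      (mem_ae_iff_prob_eq_one (measurableSet_upSet p u)).2 h
    have a2 : ∀ᵐ v ∂(Measure.infinitePi (fun _ : ℕ => unif 1)), v ∈ downSet p u :=
      (mem_ae_iff_prob_eq_one hmd).2 h'
    obtain ⟨v, hv1, hv2⟩ := (a1.and a2).exists
    unfold upSet at hv1
    unfold downSet at hv2
    rw [Set.mem_ofPred_eq] at hv1 hv2
    obtain ⟨n, hn1, hn2⟩ := ((hv1.eventually_gt_atTop 0).and (hv2.eventually_gt_atTop 0)).exists
    omega

lemma up_or_down (x : ℕ → ℤ) (hstep : ∀ n, x (n + 1) = x n + 1 ∨ x (n + 1) = x n - 1)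
    (h : Tendsto (fun n => |x n|) atTop atTop) :
    Tendsto x atTop atTop ∨ Tendsto (fun n => - x n) atTop atTop := by
  obtain ⟨N, hN⟩ := Filter.eventually_atTop.1 (h.eventually_ge_atTop 1)
  rcases lt_or_ge 0 (x N) with h0 | h0
  · left
    have hpos : ∀ k, 0 < x (N + k) := by
      intro k
      induction k with
      | zero => exact h0
      | succ k ih =>
        have h1 := hN (N + k + 1) (by omega)
        rcases hstep (N + k) with h2 | h2
        · rw [← add_assoc, h2]; omega
        · rw [← add_assoc, h2]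
          rw [h2] at h1
          rcases abs_cases (x (N + k) - 1) with h3 | h3 <;> omega
    refine h.congr' ?_
    filter_upwards [Filter.eventually_ge_atTop N] with n hn
    obtain ⟨k, rfl⟩ := Nat.exists_eq_add_of_le hn
    exact abs_of_pos (hpos k)
  · right
    have hneg : ∀ k, x (N + k) < 0 := by
      intro k
      induction k with
      | zero =>
        have h1 := hN N le_rfl
        rw [add_zero]
        rcases abs_cases (x N) with h3 | h3 <;> omega
      | succ k ih =>
        have h1 := hN (N + k + 1) (by omega)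
        rcases hstep (N + k) with h2 | h2
        · rw [← add_assoc, h2]
          rw [h2] at h1
          rcases abs_cases (x (N + k) + 1) with h3 | h3 <;> omega
        · rw [← add_assoc, h2]; omega
    refine h.congr' ?_
    filter_upwards [Filter.eventually_ge_atTop N] with n hn
    obtain ⟨k, rfl⟩ := Nat.exists_eq_add_of_le hn
    exact abs_of_neg (hneg k)

lemma pos_step_one (p : ℕ → ℝ) (u : ℕ → unitInterval) (v : ℕ → Dir 1) (n : ℕ) :
    pos p u v (n + 1) 0 = pos p u v n 0 + 1 ∨ pos p u v (n + 1) 0 = pos p u v n 0 - 1 := by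
  have h1 : pos p u v (n + 1) 0 = pos p u v n 0 + vec (step p u v n) 0 := by
    unfold pos; rw [Finset.sum_range_succ]
  rw [h1]
  have h2 : vec (step p u v n) 0 = 1 ∨ vec (step p u v n) 0 = -1 := by
    unfold vec
    rw [if_pos (Subsingleton.elim _ _)]
    split_ifs <;> simp
  rcases h2 with h2 | h2 <;> rw [h2] <;> omega

lemma enorm2_one (x : Fin 1 → ℤ) : enorm2 x = ((|x 0| : ℤ) : ℝ) := by
  unfold enorm2
  rw [Fin.sum_univ_one, Real.sqrt_sq_eq_abs]
  push_cast; rfl

/-- In dimension one infinitely many resamplings exclude escape. -/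
theorem ae_not_tendsto (p : ℕ → ℝ) (u : ℕ → unitInterval)
    (hu : ∃ᶠ n in atTop, ((u n : unitInterval) : ℝ) ≤ p n) :
    ∀ᵐ v ∂(Measure.infinitePi (fun _ : ℕ => unif 1)),
      ¬ Tendsto (fun n => enorm2 (pos p u v n)) atTop atTop := by
  have h1 := measure_upSet_zero p u hu
  have h2 : Measure.infinitePi (fun _ : ℕ => unif 1) (downSet p u) = 0 := by
    rw [measure_downSet, h1]
  have a1 : ∀ᵐ v ∂(Measure.infinitePi (fun _ : ℕ => unif 1)), v ∉ upSet p u :=
    measure_eq_zero_iff_ae_notMem.1 h1
  have a2 : ∀ᵐ v ∂(Measure.infinitePi (fun _ : ℕ => unif 1)), v ∉ downSet p u :=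
    measure_eq_zero_iff_ae_notMem.1 h2
  filter_upwards [a1, a2] with v hv1 hv2 hT
  have hT' : Tendsto (fun n => |pos p u v n 0|) atTop atTop := by
    rw [← tendsto_intCast_atTop_iff (R := ℝ)]
    refine hT.congr (fun n => ?_)
    rw [enorm2_one]
  rcases up_or_down (fun n => pos p u v n 0) (fun n => pos_step_one p u v n) hT' with h | h
  · exact hv1 h
  · exact hv2 h

/-- In dimension one the walk is strongly transient exactly when `∑ p_n < ∞`. -/
theorem stronglyTransient_one_iff (p : ℕ → ℝ) (hp : ∀ n, 0 ≤ p n ∧ p n ≤ 1) :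
    StronglyTransient 1 p ↔ Summable p := by
  refine ⟨fun h => ?_, stronglyTransient_of_summable 1 p hp⟩
  by_contra hs
  unfold StronglyTransient driving at h
  have hmeas : MeasurableSet {ω : (ℕ → unitInterval) × (ℕ → Dir 1) |
      Tendsto (fun n => enorm2 (pos p ω.1 ω.2 n)) atTop atTop} :=
    measurableSet_tendsto _ (fun n => measurable_enorm_pos p n)
  rw [Measure.ae_prod_iff_ae_ae hmeas] at h
  obtain ⟨u, hu1, hu2⟩ := (h.and (ae_frequently_res p hp hs)).exists
  obtain ⟨v, hv1, hv2⟩ := (hu1.and (ae_not_tendsto p u hu2)).exists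
  exact hv2 hv1

/-- Monotonicity of strong transience in every dimension other than two. -/
theorem monotone_of_ne_two (d : ℕ) [NeZero d] (hd : d ≠ 2) (p p' : ℕ → ℝ)
    (hp : ∀ n, 0 ≤ p n ∧ p n ≤ 1) (hp' : ∀ n, 0 ≤ p' n ∧ p' n ≤ 1)
    (hle : ∀ n, 1 ≤ n → p' n ≤ p n) (h : StronglyTransient d p) : StronglyTransient d p' := by
  rcases Nat.lt_or_ge d 3 with h3 | h3
  · have h1 : d = 1 := by
      have := NeZero.pos d
      omega
    subst h1
    rw [stronglyTransient_one_iff p hp] at h
    rw [stronglyTransient_one_iff p' hp', ← summable_nat_add_iff 1]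
    refine Summable.of_nonneg_of_le (fun n => (hp' (n + 1)).1) (fun n => hle (n + 1) (by omega)) ?_
    exact (summable_nat_add_iff 1).2 h
  · exact stronglyTransient_of_three_le d h3 p'

end Pool.Agent.H89CRW
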