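import Pool.Agent.Helper89.CRW8

set_option autoImplicit false

open MeasureTheory Filter ProbabilityTheory

namespace Pool.Agent.H89CRW

/-- prepending a value to a sequence -/
def consSeq {α : Type*} (e : α) (v : ℕ → α) : ℕ → α
  | 0 => e
  | n + 1 => v n

/-- the law of an i.i.d. sequence of directions -/
noncomputable abbrev iid (d : ℕ) [NeZero d] : Measure (ℕ → Dir d) :=
  Measure.infinitePi (fun _ : ℕ => unif d)

lemma measurable_consSeq {d : ℕ} :
    Measurable (fun x : Dir d × (ℕ → Dir d) => consSeq x.1 x.2) := by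
  apply measurable_pi_lambda
  intro n
  cases n with
  | zero => exact measurable_fst
  | succ n => exact (measurable_pi_apply n).comp measurable_snd

/-- an i.i.d. sequence is a direction followed by an independent i.i.d. sequence -/
lemma map_consSeq (d : ℕ) [NeZero d] :
    ((unif d).prod (iid d)).map (fun x : Dir d × (ℕ → Dir d) => consSeq x.1 x.2) = iid d := by
  apply Measure.eq_infinitePi
  intro s t' ht'
  change ∀ i : ℕ, MeasurableSet (t' i : Set (Dir d)) at ht'
  obtain ⟨t, rfl⟩ : ∃ t : ℕ → Set (Dir d), t = t' := ⟨t', rfl⟩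
  have ht : ∀ i : ℕ, MeasurableSet (t i) := ht'
  rw [Measure.map_apply measurable_consSeq (MeasurableSet.pi s.countable_toSet (fun i _ => ht i))]
  classical
  -- the two parts of the constraint
  have hset : (fun x : Dir d × (ℕ → Dir d) => consSeq x.1 x.2) ⁻¹' (Set.pi (s : Set ℕ) t) =
      (if 0 ∈ s then t 0 else Set.univ) ×ˢ
        (Set.pi (((s.erase 0).image (fun n => n - 1) : Finset ℕ) : Set ℕ) (fun n => t (n + 1))) := by
    ext x
    obtain ⟨e, v⟩ := x
    simp only [Set.mem_preimage, Set.mem_pi, Finset.mem_coe, Set.mem_prod, Finset.mem_image,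
      Finset.mem_erase, forall_exists_index, and_imp]
    constructor
    · intro H
      refine ⟨?_, ?_⟩
      · split_ifs with h0
        · exact H 0 h0
        · exact Set.mem_univ _
      · intro i n hn0 hns hni
        have := H n hns
        obtain ⟨m, rfl⟩ := Nat.exists_eq_succ_of_ne_zero hn0
        have hmi : m = i := by simpa using hni
        subst hmi
        exact this
    · rintro ⟨H1, H2⟩ n hn
      cases n with
      | zero => rw [if_pos hn] at H1; exact H1
      | succ n => exact H2 n (n + 1) (Nat.succ_ne_zero n) hn (by simp)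
  have hinj : Set.InjOn (fun n : ℕ => n - 1) ((s.erase 0 : Finset ℕ) : Set ℕ) := by
    intro a ha b hb hab
    rw [Finset.mem_coe, Finset.mem_erase] at ha hb
    have h : a - 1 = b - 1 := hab
    omega
  rw [hset, Measure.prod_prod]
  have h2 : iid d (Set.pi (((s.erase 0).image (fun n => n - 1) : Finset ℕ) : Set ℕ)
      (fun n => t (n + 1))) = ∏ n ∈ s.erase 0, unif d (t n) := by
    have := Measure.infinitePi_pi (fun _ : ℕ => unif d) (s := (s.erase 0).image (fun n => n - 1))
      (t := fun n => t (n + 1)) (fun i _ => ht (i + 1))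
    refine this.trans ?_
    rw [Finset.prod_image hinj]
    apply Finset.prod_congr rfl
    intro n hn
    rw [Finset.mem_erase] at hn
    have : n - 1 + 1 = n := by omega
    simp only [this]
  rw [h2]
  by_cases h0 : 0 ∈ s
  · rw [if_pos h0, Finset.mul_prod_erase s (fun n => unif d (t n)) h0]
  · rw [if_neg h0, measure_univ, one_mul, Finset.erase_eq_of_notMem h0]

/-- first-step inequality for arbitrary events -/
lemma measure_le_cons (d : ℕ) [NeZero d] (A : Set (ℕ → Dir d)) :
    iid d A ≤ ∑ e : Dir d, ((2 * d : ℕ) : ENNReal)⁻¹ * iid d {v | consSeq e v ∈ A} := by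
  have hsub : A ⊆ ⋃ e ∈ (Finset.univ : Finset (Dir d)),
      {w : ℕ → Dir d | w 0 = e ∧ (fun n => w (n + 1)) ∈ toMeasurable (iid d) {v | consSeq e v ∈ A}} := by
    intro w hw
    rw [Set.mem_iUnion₂]
    refine ⟨w 0, Finset.mem_univ _, rfl, ?_⟩
    apply subset_toMeasurable
    show consSeq (w 0) (fun n => w (n + 1)) ∈ A
    have : consSeq (w 0) (fun n => w (n + 1)) = w := by
      funext n; cases n <;> rfl
    rw [this]; exact hw
  refine (measure_mono hsub).trans ((measure_biUnion_finset_le _ _).trans ?_)
  apply Finset.sum_le_sum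
  intro e _
  have hH : MeasurableSet (toMeasurable (iid d) {v | consSeq e v ∈ A}) := measurableSet_toMeasurable _ _
  have hval : iid d (toMeasurable (iid d) {v | consSeq e v ∈ A}) = iid d {v | consSeq e v ∈ A} :=
    measure_toMeasurable _
  rw [← hval]
  generalize toMeasurable (iid d) {v | consSeq e v ∈ A} = H at hH
  have hm : MeasurableSet {w : ℕ → Dir d | w 0 = e ∧ (fun n => w (n + 1)) ∈ H} := by
    have h0 : Measurable (fun (w : ℕ → Dir d) => w 0) := measurable_pi_apply 0
    have h : Measurable (fun (w : ℕ → Dir d) (n : ℕ) => w (n + 1)) :=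
      measurable_pi_lambda _ (fun n => measurable_pi_apply _)
    exact (h0 (measurableSet_singleton e)).inter (h hH)
  have hpre : (fun x : Dir d × (ℕ → Dir d) => consSeq x.1 x.2) ⁻¹' {w : ℕ → Dir d | w 0 = e ∧
      (fun n => w (n + 1)) ∈ H} = ({e} : Set (Dir d)) ×ˢ H := by
    ext x
    obtain ⟨e', v⟩ := x
    rfl
  have h3 := Measure.map_apply (μ := (unif d).prod (iid d)) measurable_consSeq hm
  rw [map_consSeq d, hpre, Measure.prod_prod, unif_singleton] at h3
  rw [h3]

/-- shifting does not increase outer measure -/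
lemma measure_shift_le (d : ℕ) [NeZero d] (k : ℕ) (B : Set (ℕ → Dir d)) :
    iid d {v | (fun n => v (k + n)) ∈ B} ≤ iid d B := by
  have hm : Measurable (fun (v : ℕ → Dir d) (n : ℕ) => v (k + n)) :=
    measurable_pi_lambda _ (fun n => measurable_pi_apply _)
  have h1 : {v : ℕ → Dir d | (fun n => v (k + n)) ∈ B} ⊆
      (fun (v : ℕ → Dir d) (n : ℕ) => v (k + n)) ⁻¹' (toMeasurable (iid d) B) := by
    intro v hv
    exact subset_toMeasurable _ _ hv
  refine (measure_mono h1).trans ?_
  rw [← Measure.map_apply hm (measurableSet_toMeasurable _ _),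
    map_inj d (fun n => k + n) (fun a b h => by simpa using h), measure_toMeasurable]

/-- one run of length `l ≥ 1` -/
lemma one_run (d : ℕ) [NeZero d] (l : ℕ) (hl : 1 ≤ l) (A : Set (ℕ → Dir d))
    (B : Dir d → Set (ℕ → Dir d)) (h : ∀ v ∈ A, (fun n => v (l + n)) ∈ B (v 0)) :
    iid d A ≤ ∑ e : Dir d, ((2 * d : ℕ) : ENNReal)⁻¹ * iid d (B e) := by
  refine (measure_le_cons d A).trans (Finset.sum_le_sum fun e _ => ?_)
  refine mul_le_mul' le_rfl ?_
  refine le_trans (measure_mono (t := {v | (fun n => v (l - 1 + n)) ∈ B e}) ?_)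
    (measure_shift_le d (l - 1) (B e))
  intro v hv
  have h1 := h _ hv
  have h2 : (fun n => consSeq e v (l + n)) = fun n => v (l - 1 + n) := by
    funext n
    obtain ⟨m, rfl⟩ := Nat.exists_eq_succ_of_ne_zero (show l ≠ 0 by omega)
    have : m.succ + n = (m + n) + 1 := by omega
    rw [this]
    rfl
  rw [h2] at h1
  exact h1

/-- a bound uniform in the first `s` values is a bound -/
lemma prefix_bound (d : ℕ) [NeZero d] (ε : ENNReal) (s : ℕ) :
    ∀ A : Set (ℕ → Dir d),
      (∀ w : ℕ → Dir d, iid d {v | (fun n => if n < s then w n else v (n - s)) ∈ A} ≤ ε) →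
      iid d A ≤ ε := by
  induction s with
  | zero =>
    intro A h
    have := h (fun _ => (0, true))
    have h2 : {v : ℕ → Dir d | (fun n => if n < 0 then ((0 : Fin d), true) else v (n - 0)) ∈ A} = A := by
      ext v
      have : (fun n => if n < 0 then ((0 : Fin d), true) else v (n - 0)) = v := by
        funext n; simp
      show (fun n => if n < 0 then ((0 : Fin d), true) else v (n - 0)) ∈ A ↔ v ∈ A
      rw [this]
    rw [h2] at this
    exact this
  | succ s ih =>
    intro A h
    refine (measure_le_cons d A).trans ?_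
    have hcard : ∑ _e : Dir d, ((2 * d : ℕ) : ENNReal)⁻¹ * ε = ε := by
      rw [Finset.sum_const, Finset.card_univ, Fintype.card_prod, Fintype.card_fin,
        Fintype.card_bool, nsmul_eq_mul, ← mul_assoc, mul_comm d 2, ENNReal.mul_inv_cancel, one_mul]
      · have := NeZero.pos d
        simp only [ne_eq, Nat.cast_eq_zero]; omega
      · exact ENNReal.natCast_ne_top _
    rw [← hcard]
    apply Finset.sum_le_sum
    intro e _
    gcongr
    apply ih
    intro w
    refine le_trans (measure_mono ?_) (h (consSeq e w))
    intro v hv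
    have h1 : consSeq e (fun n => if n < s then w n else v (n - s)) ∈ A := hv
    show (fun n => if n < s + 1 then consSeq e w n else v (n - (s + 1))) ∈ A
    have : consSeq e (fun n => if n < s then w n else v (n - s)) =
        (fun n => if n < s + 1 then consSeq e w n else v (n - (s + 1))) := by
      funext n
      cases n with
      | zero => simp [consSeq]
      | succ n =>
        by_cases hn : n < s
        · simp [consSeq, hn]
        · simp [consSeq, hn]
    rw [← this]
    exact h1

end Pool.Agent.H89CRW
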