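import Mathlib

/-!
# The conservative random walk on `ℤ^d`

The driving randomness is a pair `(u, v)`: `u = (u_n)` i.i.d. uniform on `[0,1]`, and
`v = (v_n)` i.i.d. uniform on the `2 d` directions `± e_i`, all independent.  The first step is
`v_0`; for `n ≥ 1` the `(n+1)`-st step is drawn afresh (equal to `v_n`) when `u_n ≤ p_n`, which
has probability `p_n`, and otherwise equals the previous step.
-/

set_option autoImplicit false

open MeasureTheory Filter

namespace Pool.Agent.H89CRW

/-- A direction `± e_i` of `ℤ^d`: an axis `i` and a sign. -/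
abbrev Dir (d : ℕ) : Type := Fin d × Bool

/-- The unit vector of a direction. -/
def vec {d : ℕ} (e : Dir d) : Fin d → ℤ := fun j => if e.1 = j then (if e.2 then 1 else -1) else 0

/-- The uniform distribution on directions. -/
noncomputable def unif (d : ℕ) [NeZero d] : Measure (Dir d) :=
  (PMF.uniformOfFintype (Dir d)).toMeasure

/-- The law of the driving randomness. -/
noncomputable def driving (d : ℕ) [NeZero d] : Measure ((ℕ → unitInterval) × (ℕ → Dir d)) :=
  (Measure.infinitePi (fun _ : ℕ => (volume : Measure unitInterval))).prod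
    (Measure.infinitePi (fun _ : ℕ => unif d))

/-- The steps of the walk with resampling probabilities `p` (`step p u v n` is step number
`n + 1`; `p n`, for `n ≥ 1`, is the probability that it is drawn afresh). -/
noncomputable def step {d : ℕ} (p : ℕ → ℝ) (u : ℕ → unitInterval) (v : ℕ → Dir d) : ℕ → Dir d
  | 0 => v 0
  | n + 1 => open Classical in if ((u (n + 1) : unitInterval) : ℝ) ≤ p (n + 1) then v (n + 1) else step p u v n

/-- The position after `n` steps. -/
noncomputable def pos {d : ℕ} (p : ℕ → ℝ) (u : ℕ → unitInterval) (v : ℕ → Dir d) (n : ℕ) :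
    Fin d → ℤ := fun j => ∑ t ∈ Finset.range n, vec (step p u v t) j

/-- The Euclidean norm of a lattice point. -/
noncomputable def enorm2 {d : ℕ} (x : Fin d → ℤ) : ℝ := Real.sqrt (∑ j, ((x j : ℤ) : ℝ) ^ 2)

/-- Strong transience: almost surely `|S_n| → ∞`. -/
def StronglyTransient (d : ℕ) [NeZero d] (p : ℕ → ℝ) : Prop :=
  ∀ᵐ ω ∂(driving d), Tendsto (fun n => enorm2 (pos p ω.1 ω.2 n)) atTop atTop

end Pool.Agent.H89CRW
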