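import Mathlib

set_option autoImplicit false

open Set Topology

namespace Pool.Agent.H89Cont

variable {M : Type*} [TopologicalSpace M]

/-- A preconnected set covered by two disjoint closed sets and meeting the first lies in the first. -/
lemma side {S A B : Set M} (hS : IsPreconnected S) (hA : IsClosed A) (hB : IsClosed B)
    (hAB : Disjoint A B) (hsub : S ⊆ A ∪ B) (hne : (S ∩ A).Nonempty) : S ⊆ A := by
  rcases (isPreconnected_iff_subset_of_disjoint_closed.1 hS) A B hA hB hsub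
    (by rw [hAB.inter_eq, inter_empty]) with h | h
  · exact h
  · obtain ⟨x, hxS, hxA⟩ := hne
    exact absurd (h hxS) (fun hxB => (disjoint_left.1 hAB) hxA hxB)

lemma split {S : Set M} (hS : IsClosed S) (h : ¬ IsPreconnected S) :
    ∃ A B : Set M, IsClosed A ∧ IsClosed B ∧ Disjoint A B ∧ A ∪ B = S ∧
      A.Nonempty ∧ B.Nonempty := by
  rw [isPreconnected_iff_subset_of_disjoint_closed] at h
  push Not at h
  obtain ⟨u, v, hu, hv, huv, hdis, h1, h2⟩ := h
  refine ⟨S ∩ u, S ∩ v, hS.inter hu, hS.inter hv, ?_, ?_, ?_, ?_⟩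
  · rw [disjoint_iff_inter_eq_empty, ← hdis]
    ext x; simp only [mem_inter_iff]; tauto
  · rw [← inter_union_distrib_left, inter_eq_left]; exact huv
  · obtain ⟨x, hxS, hx⟩ := not_subset.1 h2
    exact ⟨x, hxS, (huv hxS).resolve_right hx⟩
  · obtain ⟨x, hxS, hx⟩ := not_subset.1 h1
    exact ⟨x, hxS, (huv hxS).resolve_left hx⟩

lemma lemC_aux [PreconnectedSpace M] {K W u v : Set M} (hKne : K.Nonempty)
    (hW : IsOpen W) (hKW : IsClosed (K ∪ W))
    (hu : IsClosed u) (hv : IsClosed v) (huv : K ∪ W ⊆ u ∪ v) (hdis : (K ∪ W) ∩ (u ∩ v) = ∅)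
    (hKu : K ⊆ u) : K ∪ W ⊆ u := by
  have hB : (K ∪ W) ∩ v = W ∩ uᶜ := by
    ext x
    constructor
    · rintro ⟨hx, hxv⟩
      have hxu : x ∉ u := fun hxu => by
        have : x ∈ (K ∪ W) ∩ (u ∩ v) := ⟨hx, hxu, hxv⟩
        rw [hdis] at this; exact this
      exact ⟨hx.resolve_left (fun h => hxu (hKu h)), hxu⟩
    · rintro ⟨hx, hxu⟩
      exact ⟨Or.inr hx, (huv (Or.inr hx)).resolve_left hxu⟩
  have hcl : IsClopen ((K ∪ W) ∩ v) :=
    ⟨hKW.inter hv, by rw [hB]; exact hW.inter hu.isOpen_compl⟩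
  rcases isClopen_iff.1 hcl with h | h
  · intro x hx
    refine (huv hx).resolve_right (fun hxv => ?_)
    have : x ∈ (K ∪ W) ∩ v := ⟨hx, hxv⟩
    rw [h] at this; exact this
  · exfalso
    obtain ⟨k, hk⟩ := hKne
    have h1 : k ∈ (K ∪ W) ∩ v := by rw [h]; trivial
    have : k ∈ (K ∪ W) ∩ (u ∩ v) := ⟨Or.inl hk, hKu hk, h1.2⟩
    rw [hdis] at this; exact this

/-- Lemma C. -/
lemma lemC [PreconnectedSpace M] {K W : Set M} (hKc : IsConnected K)
    (hW : IsOpen W) (hKW : IsClosed (K ∪ W)) : IsConnected (K ∪ W) := by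
  refine ⟨hKc.nonempty.mono subset_union_left, ?_⟩
  rw [isPreconnected_iff_subset_of_disjoint_closed]
  intro u v hu hv huv hdis
  have hK : K ∩ (u ∩ v) = ∅ := by
    apply subset_empty_iff.1
    rw [← hdis]
    exact inter_subset_inter_left _ subset_union_left
  rcases (isPreconnected_iff_subset_of_disjoint_closed.1 hKc.isPreconnected) u v hu hv
    (subset_union_left.trans huv) hK with h | h
  · left; exact lemC_aux hKc.nonempty hW hKW hu hv huv hdis h
  · right
    exact lemC_aux hKc.nonempty hW hKW hv hu (by rwa [union_comm v u])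
      (by rwa [inter_comm v u]) h

/-- No countable increasing union of proper subcontinua is everything. -/
def NE (M : Type*) [TopologicalSpace M] : Prop :=
  ∀ G : ℕ → Set M, Monotone G → (∀ n, IsClosed (G n) ∧ IsConnected (G n) ∧ G n ≠ univ) →
    ∃ z, ∀ n, z ∉ G n

/-- Complement of the union of a finite subfamily. -/
def Co (V : ℕ → Set M) (F : Finset ℕ) : Set M := {x | ∀ i ∈ F, x ∉ V i}

lemma mem_Co {V : ℕ → Set M} {F : Finset ℕ} {x : M} : x ∈ Co V F ↔ ∀ i ∈ F, x ∉ V i := Iff.rfl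

lemma Co_eq (V : ℕ → Set M) (F : Finset ℕ) : Co V F = (⋃ i ∈ F, V i)ᶜ := by
  ext x; simp [mem_Co]

lemma isClosed_Co {V : ℕ → Set M} (ho : ∀ n, IsOpen (V n)) (F : Finset ℕ) :
    IsClosed (Co V F) := by
  rw [Co_eq]
  exact (isOpen_biUnion (fun i _ => ho i)).isClosed_compl

structure Cut (V : ℕ → Set M) (p z : M) (F : Finset ℕ) (E E' : Set M) : Prop where
  closed : IsClosed E
  closed' : IsClosed E'
  disj : Disjoint E E'
  union : E ∪ E' = Co V F
  mem : p ∈ E
  mem' : z ∈ E'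

lemma isClosed_cc {S : Set M} (hS : IsClosed S) (p : M) :
    IsClosed (connectedComponentIn S p) := by
  by_cases hp : p ∈ S
  · apply isClosed_of_closure_subset
    apply (isPreconnected_connectedComponentIn.closure).subset_connectedComponentIn
      (subset_closure (mem_connectedComponentIn hp))
    exact closure_minimal (connectedComponentIn_subset _ _) hS
  · rw [connectedComponentIn_eq_empty hp]; exact isClosed_empty

/-- component = quasicomponent in a closed subset of a compact Hausdorff space -/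
lemma quasi [CompactSpace M] [T2Space M] {S : Set M} (hS : IsClosed S) {p z : M} (hp : p ∈ S)
    (hz : z ∈ S) (h : z ∉ connectedComponentIn S p) :
    ∃ P Q : Set M, IsClosed P ∧ IsClosed Q ∧ Disjoint P Q ∧ P ∪ Q = S ∧ p ∈ P ∧ z ∈ Q := by
  have : CompactSpace S := isCompact_iff_compactSpace.1 hS.isCompact
  rw [connectedComponentIn_eq_image hp, connectedComponent_eq_iInter_isClopen] at h
  have h2 : (⟨z, hz⟩ : S) ∉ ⋂ s : { s : Set S // IsClopen s ∧ (⟨p, hp⟩ : S) ∈ s }, (s : Set S) := by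
    intro h'
    exact h ⟨⟨z, hz⟩, h', rfl⟩
  simp only [mem_iInter, not_forall] at h2
  obtain ⟨⟨s, hs, hps⟩, hzs⟩ := h2
  have hzs : (⟨z, hz⟩ : S) ∉ s := hzs
  refine ⟨(↑) '' s, (↑) '' sᶜ, ?_, ?_, ?_, ?_, ⟨⟨p, hp⟩, hps, rfl⟩, ⟨⟨z, hz⟩, hzs, rfl⟩⟩
  · exact (hS.isClosedEmbedding_subtypeVal.isClosedMap) _ hs.1
  · exact (hS.isClosedEmbedding_subtypeVal.isClosedMap) _ hs.compl.1
  · rw [disjoint_image_iff Subtype.val_injective]; exact disjoint_compl_right
  · rw [← image_union, union_compl_self, image_univ, Subtype.range_coe]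

lemma lemQ [CompactSpace M] [T2Space M] (V : ℕ → Set M) (ho : ∀ n, IsOpen (V n)) (N : ℕ)
    {p z : M} (hp : ∀ n, N ≤ n → p ∉ V n) (hz : ∀ n, N ≤ n → z ∉ V n)
    (h : z ∉ connectedComponentIn {x | ∀ n, N ≤ n → x ∉ V n} p) :
    ∃ (F : Finset ℕ) (E E' : Set M), (∀ i ∈ F, N ≤ i) ∧ Cut V p z F E E' := by
  set S : Set M := {x | ∀ n, N ≤ n → x ∉ V n} with hSdef
  have hmemS : ∀ x, x ∈ S ↔ ∀ n, N ≤ n → x ∉ V n := fun x => Iff.rfl
  have hSeq : S = (⋃ n : {n : ℕ // N ≤ n}, V n)ᶜ := by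
    ext x; rw [hmemS]; simp
  have hS : IsClosed S := by
    rw [hSeq]; exact (isOpen_iUnion (fun i => ho _)).isClosed_compl
  obtain ⟨P, Q, hP, hQ, hPQ, hPQS, hpP, hzQ⟩ := quasi hS hp hz h
  obtain ⟨P', Q', hP', hQ', hPP', hQQ', hPQ'⟩ := normal_separation hP hQ hPQ
  have hcomp : IsCompact (P' ∪ Q')ᶜ := (hP'.union hQ').isClosed_compl.isCompact
  have hcov : (P' ∪ Q')ᶜ ⊆ ⋃ n : {n : ℕ // N ≤ n}, V n := by
    intro x hx
    by_contra hx'
    have : x ∈ S := by rw [hSeq]; exact hx'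
    rw [← hPQS] at this
    rcases this with h | h
    · exact hx (Or.inl (hPP' h))
    · exact hx (Or.inr (hQQ' h))
  obtain ⟨t, ht⟩ := hcomp.elim_finite_subcover _ (fun i => ho _) hcov
  refine ⟨t.map ⟨Subtype.val, Subtype.val_injective⟩,
    Co V (t.map ⟨Subtype.val, Subtype.val_injective⟩) ∩ Q'ᶜ,
    Co V (t.map ⟨Subtype.val, Subtype.val_injective⟩) ∩ P'ᶜ, ?_, ?_⟩
  · intro i hi
    rw [Finset.mem_map] at hi
    obtain ⟨j, _, rfl⟩ := hi
    exact j.2
  · have hcovx : ∀ x, x ∉ P' → x ∉ Q' →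
        x ∉ Co V (t.map ⟨Subtype.val, Subtype.val_injective⟩) := by
      intro x hxP hxQ hx
      have := ht (show x ∈ (P' ∪ Q')ᶜ from fun h => h.elim hxP hxQ)
      simp only [mem_iUnion] at this
      obtain ⟨i, hi, hxi⟩ := this
      exact hx i (Finset.mem_map.2 ⟨i, hi, rfl⟩) hxi
    have hCoS : ∀ x, x ∈ S → x ∈ Co V (t.map ⟨Subtype.val, Subtype.val_injective⟩) := by
      intro x hx i hi
      rw [Finset.mem_map] at hi
      obtain ⟨j, _, rfl⟩ := hi
      exact hx _ j.2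
    refine ⟨(isClosed_Co ho _).inter hQ'.isClosed_compl,
      (isClosed_Co ho _).inter hP'.isClosed_compl, ?_, ?_, ⟨hCoS p hp, ?_⟩, ⟨hCoS z hz, ?_⟩⟩
    · rw [disjoint_left]
      rintro x ⟨hx, hxQ⟩ ⟨_, hxP⟩
      exact hcovx x hxP hxQ hx
    · ext x
      constructor
      · rintro (⟨h, _⟩ | ⟨h, _⟩) <;> exact h
      · intro hx
        by_cases hxQ : x ∈ Q'
        · right
          exact ⟨hx, fun hxP => (disjoint_left.1 hPQ') hxP hxQ⟩
        · left; exact ⟨hx, hxQ⟩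
    · exact fun h => (disjoint_left.1 hPQ') (hPP' hpP) h
    · exact fun h => (disjoint_left.1 hPQ') h (hQQ' hzQ)

/-- Master lemma. -/
lemma master [CompactSpace M] [T2Space M] (hNE : NE M) (V : ℕ → Set M)
    (ho : ∀ n, IsOpen (V n)) (hne : ∀ n, (V n).Nonempty)
    (hd : ∀ i j, i ≠ j → Disjoint (V i) (V j)) (p : M) (hp : ∀ n, p ∉ V n) :
    ∃ (z : M) (N₀ : ℕ), ∀ N, N₀ ≤ N → ∃ (F : Finset ℕ) (E E' : Set M),
      (∀ i ∈ F, N ≤ i) ∧ Cut V p z F E E' := by
  let S : ℕ → Set M := fun N => {x | ∀ n, N ≤ n → x ∉ V n}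
  have hmemS : ∀ N x, x ∈ S N ↔ ∀ n, N ≤ n → x ∉ V n := fun N x => Iff.rfl
  have hS : ∀ N, IsClosed (S N) := by
    intro N
    have hSeq : S N = (⋃ n : {n : ℕ // N ≤ n}, V n)ᶜ := by
      ext x; rw [hmemS]; simp
    rw [hSeq]; exact (isOpen_iUnion (fun i => ho _)).isClosed_compl
  have hmono : Monotone S := by
    intro N N' h x hx n hn
    exact hx n (h.trans hn)
  have hpS : ∀ N, p ∈ S N := fun N n _ => hp n
  obtain ⟨z, hz⟩ := hNE (fun N => connectedComponentIn (S N) p)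
    (fun N N' h => connectedComponentIn_mono p (hmono h)) (by
      intro N
      refine ⟨?_, isConnected_connectedComponentIn_iff.2 (hpS N), ?_⟩
      · exact isClosed_cc (hS N) p
      · intro hu
        obtain ⟨x, hx⟩ := hne N
        have : x ∈ connectedComponentIn (S N) p := by rw [hu]; trivial
        exact (connectedComponentIn_subset _ _ this) N le_rfl hx)
  have hN0 : ∃ N₀, ∀ n, N₀ ≤ n → z ∉ V n := by
    by_cases h : ∃ m, z ∈ V m
    · obtain ⟨m, hm⟩ := h
      refine ⟨m + 1, fun n hn hzn => ?_⟩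
      exact (disjoint_left.1 (hd m n (by omega))) hm hzn
    · push Not at h
      exact ⟨0, fun n _ => h n⟩
  obtain ⟨N₀, hN₀⟩ := hN0
  refine ⟨z, N₀, fun N hN => ?_⟩
  exact lemQ V ho N (fun n _ => hp n) (fun n hn => hN₀ n (hN.trans hn)) (hz N)

/-- Lemma V. -/
lemma lemV [CompactSpace M] [T2Space M] (hNE : NE M) (V : ℕ → Set M)
    (ho : ∀ n, IsOpen (V n)) (hne : ∀ n, (V n).Nonempty)
    (hd : ∀ i j, i ≠ j → Disjoint (V i) (V j))
    (hc : ∀ F : Finset ℕ, IsConnected (Co V F)) : False := by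
  obtain ⟨p, hp⟩ := hne 0
  obtain ⟨z, N₀, h⟩ := master hNE (fun n => V (n + 1)) (fun n => ho _) (fun n => hne _)
    (fun i j hij => hd _ _ (by omega)) p
    (fun n hn => (disjoint_left.1 (hd 0 (n + 1) (by omega))) hp hn)
  obtain ⟨F, E, E', _, hcut⟩ := h N₀ le_rfl
  have hCo : Co (fun n => V (n + 1)) F = Co V (F.map ⟨fun n => n + 1, add_left_injective 1⟩) := by
    ext x
    simp [mem_Co]
  have h1 := (hc (F.map ⟨fun n => n + 1, add_left_injective 1⟩)).isPreconnected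
  rw [← hCo] at h1
  have h2 := side h1 hcut.closed hcut.closed' hcut.disj hcut.union.ge
    ⟨p, by rw [← hcut.union]; exact Or.inl hcut.mem, hcut.mem⟩
  exact (disjoint_left.1 hcut.disj) (h2 (by rw [← hcut.union]; exact Or.inr hcut.mem')) hcut.mem'

end Pool.Agent.H89Cont
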