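import Pool.Agent.Helper89.Cont1

set_option autoImplicit false

open Set Topology

namespace Pool.Agent.H89Cont

variable {M : Type*} [TopologicalSpace M]

structure Sys (X : ℕ → Set M) (D : Finset ℕ) (T : Set M) (Y A B : ℕ → Set M) : Prop where
  Tc : IsClosed T
  Tcon : IsPreconnected T
  Tcov : ∀ x, x ∉ T → ∃ i ∈ D, x ∈ X i
  XT : ∀ i ∈ D, Disjoint (X i) T
  Xc : ∀ i ∈ D, IsConnected (X i)
  Dne : D.Nonempty
  Yo : ∀ n, IsOpen (Y n)
  Yc : ∀ n, IsConnected (Y n)
  YT : ∀ n, Y n ⊆ T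
  Yd : ∀ i j, i ≠ j → Disjoint (Y i) (Y j)
  Ac : ∀ n, IsClosed (A n)
  Bc : ∀ n, IsClosed (B n)
  ABd : ∀ n, Disjoint (A n) (B n)
  AB : ∀ n, A n ∪ B n = T \ Y n
  Ane : ∀ n, (A n).Nonempty
  Bne : ∀ n, (B n).Nonempty
  touch : ∀ n i, i ∈ D → ∀ Q Q' : Set M, IsClosed Q → IsClosed Q' → Disjoint Q Q' →
    Q ∪ Q' = T \ Y n → Q.Nonempty → (Q ∩ closure (X i)).Nonempty

variable {X : ℕ → Set M} {D : Finset ℕ} {T : Set M} {Y A B : ℕ → Set M}

lemma Sys.swap (S : Sys X D T Y A B) : Sys X D T Y B A where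
  Tc := S.Tc
  Tcon := S.Tcon
  Tcov := S.Tcov
  XT := S.XT
  Xc := S.Xc
  Dne := S.Dne
  Yo := S.Yo
  Yc := S.Yc
  YT := S.YT
  Yd := S.Yd
  Ac := S.Bc
  Bc := S.Ac
  ABd := fun n => (S.ABd n).symm
  AB := fun n => by rw [union_comm]; exact S.AB n
  Ane := S.Bne
  Bne := S.Ane
  touch := S.touch

lemma Sys.sub (S : Sys X D T Y A B) (g : ℕ → ℕ) (hg : Function.Injective g) :
    Sys X D T (fun n => Y (g n)) (fun n => A (g n)) (fun n => B (g n)) where
  Tc := S.Tc
  Tcon := S.Tcon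
  Tcov := S.Tcov
  XT := S.XT
  Xc := S.Xc
  Dne := S.Dne
  Yo := fun n => S.Yo _
  Yc := fun n => S.Yc _
  YT := fun n => S.YT _
  Yd := fun i j hij => S.Yd _ _ (hg.ne hij)
  Ac := fun n => S.Ac _
  Bc := fun n => S.Bc _
  ABd := fun n => S.ABd _
  AB := fun n => S.AB _
  Ane := fun n => S.Ane _
  Bne := fun n => S.Bne _
  touch := fun n => S.touch _

lemma Sys.AT (S : Sys X D T Y A B) (n : ℕ) : A n ⊆ T := fun x hx => by
  have : x ∈ A n ∪ B n := Or.inl hx
  rw [S.AB] at this; exact this.1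

lemma Sys.AY (S : Sys X D T Y A B) (n : ℕ) : Disjoint (A n) (Y n) := by
  rw [disjoint_left]
  intro x hx
  have : x ∈ A n ∪ B n := Or.inl hx
  rw [S.AB] at this; exact this.2

/-- `A n ∪ Y n` is connected. -/
lemma Sys.connA (S : Sys X D T Y A B) (n : ℕ) : IsPreconnected (A n ∪ Y n) := by
  have key : ∀ u v : Set M, IsClosed u → IsClosed v → A n ∪ Y n ⊆ u ∪ v →
      (A n ∪ Y n) ∩ (u ∩ v) = ∅ → Y n ⊆ u → A n ∪ Y n ⊆ u := by
    intro u v hu hv huv hdis hYu
    have hT : T ⊆ (A n ∩ v) ∪ ((A n ∩ u) ∪ closure (Y n) ∪ B n) := by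
      intro x hx
      by_cases hxY : x ∈ Y n
      · right; left; right; exact subset_closure hxY
      · have : x ∈ A n ∪ B n := by rw [S.AB]; exact ⟨hx, hxY⟩
        rcases this with h | h
        · rcases huv (Or.inl h) with h' | h'
          · right; left; left; exact ⟨h, h'⟩
          · left; exact ⟨h, h'⟩
        · right; right; exact h
    have hd : Disjoint (A n ∩ v) ((A n ∩ u) ∪ closure (Y n) ∪ B n) := by
      rw [disjoint_left]
      rintro x ⟨hxA, hxv⟩ ((⟨_, hxu⟩ | hxY) | hxB)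
      · have : x ∈ (A n ∪ Y n) ∩ (u ∩ v) := ⟨Or.inl hxA, hxu, hxv⟩
        rw [hdis] at this; exact this
      · have hxu : x ∈ u := (closure_minimal hYu hu) hxY
        have : x ∈ (A n ∪ Y n) ∩ (u ∩ v) := ⟨Or.inl hxA, hxu, hxv⟩
        rw [hdis] at this; exact this
      · exact (disjoint_left.1 (S.ABd n)) hxA hxB
    intro x hx
    refine (huv hx).resolve_right (fun hxv => ?_)
    rcases hx with hxA | hxY
    · have h1 := side S.Tcon ((S.Ac n).inter hv) (((((S.Ac n).inter hu).union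
        isClosed_closure)).union (S.Bc n)) hd hT ⟨x, S.AT n hxA, hxA, hxv⟩
      obtain ⟨y, hy⟩ := (S.Yc n).nonempty
      exact (disjoint_left.1 (S.AY n)) (h1 (S.YT n hy)).1 hy
    · have : x ∈ (A n ∪ Y n) ∩ (u ∩ v) := ⟨Or.inr hxY, hYu hxY, hxv⟩
      rw [hdis] at this; exact this
  rw [isPreconnected_iff_subset_of_disjoint_closed]
  intro u v hu hv huv hdis
  have hY : Y n ∩ (u ∩ v) = ∅ := by
    apply subset_empty_iff.1
    rw [← hdis]
    exact inter_subset_inter_left _ subset_union_right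
  rcases (isPreconnected_iff_subset_of_disjoint_closed.1 (S.Yc n).isPreconnected) u v hu hv
    (subset_union_right.trans huv) hY with h | h
  · left; exact key u v hu hv huv hdis h
  · right
    exact key v u hv hu (by rwa [union_comm v u]) (by rwa [inter_comm v u]) h

lemma Sys.closX (S : Sys X D T Y A B) {i : ℕ} (hi : i ∈ D) (F : Finset ℕ) :
    closure (X i) ⊆ Co Y F := by
  apply closure_minimal _ (isClosed_Co S.Yo F)
  intro x hx k _ hxk
  exact (disjoint_left.1 (S.XT i hi)) hx (S.YT k hxk)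

lemma Sys.closXE (S : Sys X D T Y A B) {i : ℕ} (hi : i ∈ D) {F : Finset ℕ} {E E' : Set M}
    {p z : M} (hcut : Cut Y p z F E E') (h : (closure (X i) ∩ E).Nonempty) :
    closure (X i) ⊆ E :=
  side (S.Xc i hi).isPreconnected.closure hcut.closed hcut.closed' hcut.disj
    (by rw [hcut.union]; exact S.closX hi F) h

lemma Sys.inE (S : Sys X D T Y A B) {i : ℕ} (hi : i ∈ D) {F : Finset ℕ} {E E' : Set M}
    {p z : M} (hcut : Cut Y p z F E E') (hX : closure (X i) ⊆ E) (n : ℕ)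
    (hn : A n ⊆ Co Y F) : A n ⊆ E := by
  intro x hx
  have hx' : x ∈ E ∪ E' := by rw [hcut.union]; exact hn hx
  refine hx'.resolve_right (fun hxE' => ?_)
  obtain ⟨y, ⟨_, hyE'⟩, hyX⟩ := S.touch n i hi (A n ∩ E') ((A n ∩ E) ∪ B n)
    ((S.Ac n).inter hcut.closed') (((S.Ac n).inter hcut.closed).union (S.Bc n))
    (by
      rw [disjoint_left]
      rintro y ⟨hyA, hyE'⟩ (⟨_, hyE⟩ | hyB)
      · exact (disjoint_left.1 hcut.disj) hyE hyE'
      · exact (disjoint_left.1 (S.ABd n)) hyA hyB)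
    (by
      rw [← S.AB n]
      ext y
      constructor
      · rintro (⟨h, _⟩ | (⟨h, _⟩ | h))
        · exact Or.inl h
        · exact Or.inl h
        · exact Or.inr h
      · rintro (h | h)
        · have : y ∈ E ∪ E' := by rw [hcut.union]; exact hn h
          rcases this with h' | h'
          · exact Or.inr (Or.inl ⟨h, h'⟩)
          · exact Or.inl ⟨h, h'⟩
        · exact Or.inr (Or.inr h))
    ⟨x, hx, hxE'⟩
  exact (disjoint_left.1 hcut.disj) (hX hyX) hyE'

lemma cut_ne [PreconnectedSpace M] {Y : ℕ → Set M} {F : Finset ℕ} {E E' : Set M}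
    {p z : M} (hcut : Cut Y p z F E E') : F.Nonempty := by
  rw [Finset.nonempty_iff_ne_empty]
  rintro rfl
  have hu : E ∪ E' = univ := by
    rw [hcut.union]; ext x; simp [mem_Co]
  have h := side isPreconnected_univ hcut.closed hcut.closed' hcut.disj hu.ge
    ⟨p, trivial, hcut.mem⟩
  exact (disjoint_left.1 hcut.disj) (h trivial) hcut.mem'

/-- Case (L): a linearly ordered family is impossible. -/
lemma caseL [CompactSpace M] [T2Space M] [PreconnectedSpace M] (hNE : NE M)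
    (S : Sys X D T Y A B)
    (hL : ∀ n m, n < m → A n ∪ Y n ⊆ A m ∧ B m ∪ Y m ⊆ B n) : False := by
  obtain ⟨i₀, hi₀⟩ := S.Dne
  obtain ⟨p₀, hp₀⟩ := (S.Xc i₀ hi₀).nonempty
  have hpT : p₀ ∉ T := (disjoint_left.1 (S.XT i₀ hi₀)) hp₀
  obtain ⟨z, N₀, hz⟩ := master hNE Y S.Yo (fun n => (S.Yc n).nonempty) S.Yd p₀
    (fun n hn => hpT (S.YT n hn))
  -- analysis of a single cut
  have key : ∀ (F : Finset ℕ) (E E' : Set M), Cut Y p₀ z F E E' →
      ∃ n m, n ∈ F ∧ m ∈ F ∧ z ∈ B n ∧ z ∈ A m := by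
    intro F E E' hcut
    have hF := cut_ne hcut
    have hXE : closure (X i₀) ⊆ E :=
      S.closXE hi₀ hcut ⟨p₀, subset_closure hp₀, hcut.mem⟩
    have hn := F.min'_mem hF
    have hm := F.max'_mem hF
    have hAE : A (F.min' hF) ⊆ E := by
      apply S.inE hi₀ hcut hXE
      intro x hx k hk hxk
      rcases (F.min'_le k hk).eq_or_lt with h | h
      · rw [← h] at hxk
        exact (disjoint_left.1 (S.AY _)) hx hxk
      · exact (disjoint_left.1 (S.AY k)) ((hL _ _ h).1 (Or.inl hx)) hxk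
    have hBE : B (F.max' hF) ⊆ E := by
      apply S.swap.inE hi₀ hcut hXE
      intro x hx k hk hxk
      rcases (F.le_max' k hk).eq_or_lt with h | h
      · rw [← h] at hx
        exact (disjoint_left.1 (S.swap.AY _)) hx hxk
      · exact (disjoint_left.1 (S.swap.AY k)) ((hL _ _ h).2 (Or.inl hx)) hxk
    have hzE : z ∉ E := fun h => (disjoint_left.1 hcut.disj) h hcut.mem'
    have hzT : z ∈ T := by
      by_contra hzT
      obtain ⟨i, hi, hzi⟩ := S.Tcov z hzT
      obtain ⟨y, hyA, hyX⟩ := S.touch (F.min' hF) i hi (A _) (B _) (S.Ac _) (S.Bc _)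
        (S.ABd _) (S.AB _) (S.Ane _)
      exact hzE (S.closXE hi hcut ⟨y, hyX, hAE hyA⟩ (subset_closure hzi))
    have hzCo : z ∈ Co Y F := by rw [← hcut.union]; exact Or.inr hcut.mem'
    refine ⟨F.min' hF, F.max' hF, hn, hm, ?_, ?_⟩
    · have : z ∈ A (F.min' hF) ∪ B (F.min' hF) := by
        rw [S.AB]; exact ⟨hzT, hzCo _ hn⟩
      exact this.resolve_left (fun h => hzE (hAE h))
    · have : z ∈ A (F.max' hF) ∪ B (F.max' hF) := by
        rw [S.AB]; exact ⟨hzT, hzCo _ hm⟩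
      exact this.resolve_right (fun h => hzE (hBE h))
  obtain ⟨F, E, E', hFN, hcut⟩ := hz N₀ le_rfl
  obtain ⟨n, m, hn, hm, h1, h2⟩ := key F E E' hcut
  obtain ⟨F', E₁, E₁', hFN', hcut'⟩ := hz (max N₀ (m + 1)) (le_max_left _ _)
  obtain ⟨n', m', hn', hm', h1', h2'⟩ := key F' E₁ E₁' hcut'
  have hlt : m < n' := by
    have := hFN' n' hn'
    have h3 : m + 1 ≤ max N₀ (m + 1) := le_max_right _ _
    omega
  exact (disjoint_left.1 (S.ABd n')) ((hL m n' hlt).1 (Or.inl h2)) h1'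

/-- Case (AC): pairwise incomparable family. -/
lemma caseAC [CompactSpace M] [T2Space M] [PreconnectedSpace M] (hNE : NE M)
    (S : Sys X D T Y A B)
    (hL : ∀ n m, n ≠ m → B n ∪ Y n ⊆ A m) : False := by
  obtain ⟨i₀, hi₀⟩ := S.Dne
  obtain ⟨p₀, hp₀⟩ := (S.Xc i₀ hi₀).nonempty
  have hpT : p₀ ∉ T := (disjoint_left.1 (S.XT i₀ hi₀)) hp₀
  obtain ⟨z, N₀, hz⟩ := master hNE Y S.Yo (fun n => (S.Yc n).nonempty) S.Yd p₀
    (fun n hn => hpT (S.YT n hn))
  have key : ∀ (F : Finset ℕ) (E E' : Set M), Cut Y p₀ z F E E' → ∀ n, n ∉ F → Y n ⊆ E := by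
    intro F E E' hcut n hn
    have hXE : closure (X i₀) ⊆ E :=
      S.closXE hi₀ hcut ⟨p₀, subset_closure hp₀, hcut.mem⟩
    obtain ⟨y, hyB, hyX⟩ := S.touch n i₀ hi₀ (B n) (A n) (S.Bc _) (S.Ac _)
        (S.ABd _).symm (S.swap.AB _) (S.Bne _)
    have h := side (S.swap.connA n) hcut.closed hcut.closed' hcut.disj (by
      rw [hcut.union]
      intro x hx k hk hxk
      have hnk : n ≠ k := by rintro rfl; exact hn hk
      exact (disjoint_left.1 (S.AY k)) (hL n k hnk hx) hxk)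
      ⟨y, Or.inl hyB, hXE hyX⟩
    exact subset_union_right.trans h
  obtain ⟨F, E, E', hFN, hcut⟩ := hz N₀ le_rfl
  obtain ⟨F', E₁, E₁', hFN', hcut'⟩ := hz (max N₀ (F.sup id + 1)) (le_max_left _ _)
  have hFF' : ∀ k, k ∈ F → k ∉ F' := by
    intro k hk hk'
    have h1 := hFN' k hk'
    have h2 : k ≤ F.sup id := Finset.le_sup (f := id) hk
    have h3 := le_max_right N₀ (F.sup id + 1)
    omega
  have hcompl : (E' ∩ E₁')ᶜ = E ∪ E₁ := by
    ext x
    constructor
    · intro hx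
      by_contra hcon
      have hxE : x ∉ E := fun h => hcon (Or.inl h)
      have hxE₁ : x ∉ E₁ := fun h => hcon (Or.inr h)
      apply hx
      constructor
      · by_contra hxE'
        have hxCo : x ∉ Co Y F := by
          rw [← hcut.union]; exact fun h => h.elim hxE hxE'
        rw [mem_Co] at hxCo
        push Not at hxCo
        obtain ⟨k, hk, hxk⟩ := hxCo
        exact hxE₁ (key F' E₁ E₁' hcut' k (hFF' k hk) hxk)
      · by_contra hxE'
        have hxCo : x ∉ Co Y F' := by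
          rw [← hcut'.union]; exact fun h => h.elim hxE₁ hxE'
        rw [mem_Co] at hxCo
        push Not at hxCo
        obtain ⟨k, hk, hxk⟩ := hxCo
        exact hxE (key F E E' hcut k (fun h => hFF' k h hk) hxk)
    · rintro (h | h) ⟨h1, h2⟩
      · exact (disjoint_left.1 hcut.disj) h h1
      · exact (disjoint_left.1 hcut'.disj) h h2
  have hclopen : IsClopen (E' ∩ E₁') :=
    ⟨hcut.closed'.inter hcut'.closed', by
      rw [← isClosed_compl_iff, hcompl]; exact hcut.closed.union hcut'.closed⟩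
  rcases isClopen_iff.1 hclopen with h | h
  · have : z ∈ E' ∩ E₁' := ⟨hcut.mem', hcut'.mem'⟩
    rw [h] at this; exact this
  · have : p₀ ∈ E' ∩ E₁' := by rw [h]; trivial
    exact (disjoint_left.1 hcut.disj) hcut.mem this.1

lemma Sys.rel1 (S : Sys X D T Y A B) {R : Set M} (hR : R.Nonempty) (hRA : ∀ n, R ⊆ A n)
    {n m : ℕ} (h : Y m ⊆ B n) : A n ∪ Y n ⊆ A m ∧ B m ∪ Y m ⊆ B n := by
  have hnm : n ≠ m := by
    rintro rfl
    obtain ⟨y, hy⟩ := (S.Yc n).nonempty
    exact (disjoint_left.1 (S.swap.AY n)) (h hy) hy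
  have h1 : A n ∪ Y n ⊆ A m := by
    apply side (S.connA n) (S.Ac m) (S.Bc m) (S.ABd m)
    · rw [S.AB]
      rintro x (hx | hx)
      · exact ⟨S.AT n hx, fun hxm => (disjoint_left.1 (S.ABd n)) hx (h hxm)⟩
      · exact ⟨S.YT n hx, fun hxm => (disjoint_left.1 (S.Yd n m hnm)) hx hxm⟩
    · obtain ⟨r, hr⟩ := hR
      exact ⟨r, Or.inl (hRA n hr), hRA m hr⟩
  refine ⟨h1, ?_⟩
  apply side (S.swap.connA m) (S.Bc n) (S.Ac n) (S.ABd n).symm
  · rw [S.swap.AB]
    rintro x (hx | hx)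
    · exact ⟨S.swap.AT m hx, fun hxn => (disjoint_left.1 (S.ABd m)) (h1 (Or.inr hxn)) hx⟩
    · exact ⟨S.YT m hx, fun hxn => (disjoint_left.1 (S.Yd n m hnm)) hxn hx⟩
  · obtain ⟨y, hy⟩ := (S.Yc m).nonempty
    exact ⟨y, Or.inr hy, h hy⟩

lemma Sys.either (S : Sys X D T Y A B) {n m : ℕ} (hnm : n ≠ m) (h : ¬ Y m ⊆ B n) :
    Y m ⊆ A n := by
  obtain ⟨y, hy⟩ := (S.Yc m).nonempty
  have hsub : Y m ⊆ A n ∪ B n := by
    rw [S.AB]
    intro x hx
    exact ⟨S.YT m hx, fun hxn => (disjoint_left.1 (S.Yd n m hnm)) hxn hx⟩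
  rcases hsub hy with h' | h'
  · exact side (S.Yc m).isPreconnected (S.Ac n) (S.Bc n) (S.ABd n) hsub ⟨y, hy, h'⟩
  · exact absurd (side (S.Yc m).isPreconnected (S.Bc n) (S.Ac n) (S.ABd n).symm
      (by rw [union_comm]; exact hsub) ⟨y, hy, h'⟩) h

lemma Sys.rel2 (S : Sys X D T Y A B) {n m : ℕ} (hnm : n ≠ m) (h1 : ¬ Y m ⊆ B n)
    (h2 : ¬ Y n ⊆ B m) : B n ∪ Y n ⊆ A m := by
  have h1' := S.either hnm h1
  have h2' := S.either hnm.symm h2
  apply side (S.swap.connA n) (S.Ac m) (S.Bc m) (S.ABd m)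
  · rw [S.AB]
    rintro x (hx | hx)
    · exact ⟨S.swap.AT n hx, fun hxm => (disjoint_left.1 (S.ABd n)) (h1' hxm) hx⟩
    · exact ⟨S.YT n hx, fun hxm => (disjoint_left.1 (S.Yd n m hnm)) hx hxm⟩
  · obtain ⟨y, hy⟩ := (S.Yc n).nonempty
    exact ⟨y, Or.inr hy, h2' hy⟩

/-- Rooted systems are impossible. -/
lemma rooted [CompactSpace M] [T2Space M] [PreconnectedSpace M] (hNE : NE M)
    (S : Sys X D T Y A B) {R : Set M} (hR : R.Nonempty) (hRA : ∀ n, R ⊆ A n) : False := by
  have htrans : ∀ a b c : ℕ, Y b ⊆ B a → Y c ⊆ B b → Y c ⊆ B a := by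
    intro a b c hab hbc
    exact hbc.trans (subset_union_left.trans (S.rel1 hR hRA hab).2)
  let r : ℕ → ℕ → Prop := fun n m => Y m ⊆ B n
  haveI : IsTrans ℕ r := ⟨fun a b c hab hbc => htrans a b c hab hbc⟩
  let r' : ℕ → ℕ → Prop := fun n m => Y n ⊆ B m
  haveI : IsTrans ℕ r' := ⟨fun a b c hab hbc => htrans c b a hbc hab⟩
  obtain ⟨g, hg | hg⟩ := exists_increasing_or_nonincreasing_subseq r (fun n => n)
  · apply caseL hNE (S.sub (fun n => g n) g.injective)
    intro n m hnm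
    exact S.rel1 hR hRA (hg n m hnm)
  · obtain ⟨g', hg' | hg'⟩ := exists_increasing_or_nonincreasing_subseq r' (fun n => g n)
    · apply caseL hNE (S.sub (fun n => g (g' n)) (g.injective.comp g'.injective)).swap
      intro n m hnm
      have := S.rel1 hR hRA (hg' n m hnm)
      exact ⟨this.2, this.1⟩
    · apply caseAC hNE (S.sub (fun n => g (g' n)) (g.injective.comp g'.injective))
      intro n m hnm
      have hne : g (g' n) ≠ g (g' m) := fun h => hnm ((g.injective.comp g'.injective) h)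
      rcases lt_or_gt_of_ne hnm with hlt | hlt
      · exact S.rel2 hne (hg _ _ (g'.strictMono hlt)) (hg' _ _ hlt)
      · exact S.rel2 hne (hg' _ _ hlt) (hg _ _ (g'.strictMono hlt))

/-- Systems are impossible. -/
lemma noSys [CompactSpace M] [T2Space M] [PreconnectedSpace M] (hNE : NE M)
    (S : Sys X D T Y A B) : False := by
  classical
  -- swap so that `Y 0` lies in `A n`
  let A' : ℕ → Set M := fun n => if Y 0 ⊆ B n then B n else A n
  let B' : ℕ → Set M := fun n => if Y 0 ⊆ B n then A n else B n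
  have S' : Sys X D T Y A' B' :=
    { Tc := S.Tc
      Tcon := S.Tcon
      Tcov := S.Tcov
      XT := S.XT
      Xc := S.Xc
      Dne := S.Dne
      Yo := S.Yo
      Yc := S.Yc
      YT := S.YT
      Yd := S.Yd
      Ac := fun n => by
        by_cases h : Y 0 ⊆ B n
        · simp only [A', if_pos h]; exact S.Bc n
        · simp only [A', if_neg h]; exact S.Ac n
      Bc := fun n => by
        by_cases h : Y 0 ⊆ B n
        · simp only [B', if_pos h]; exact S.Ac n
        · simp only [B', if_neg h]; exact S.Bc n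
      ABd := fun n => by
        by_cases h : Y 0 ⊆ B n
        · simp only [A', B', if_pos h]; exact (S.ABd n).symm
        · simp only [A', B', if_neg h]; exact S.ABd n
      AB := fun n => by
        by_cases h : Y 0 ⊆ B n
        · simp only [A', B', if_pos h]; exact S.swap.AB n
        · simp only [A', B', if_neg h]; exact S.AB n
      Ane := fun n => by
        by_cases h : Y 0 ⊆ B n
        · simp only [A', if_pos h]; exact S.Bne n
        · simp only [A', if_neg h]; exact S.Ane n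
      Bne := fun n => by
        by_cases h : Y 0 ⊆ B n
        · simp only [B', if_pos h]; exact S.Ane n
        · simp only [B', if_neg h]; exact S.Bne n
      touch := S.touch }
  refine rooted hNE (S'.sub (fun n => n + 1) (add_left_injective 1)) (R := Y 0)
    (S.Yc 0).nonempty (fun n => ?_)
  by_cases h : Y 0 ⊆ B (n + 1)
  · simp only [A', if_pos h]; exact h
  · simp only [A', if_neg h]; exact S.either (by omega) h

end Pool.Agent.H89Cont
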