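import Pool.Agent.Helper89.Cont2

set_option autoImplicit false

open Set Topology

namespace Pool.Agent.H89Cont

variable {M : Type*} [TopologicalSpace M]

lemma ind_subset [PreconnectedSpace M] {X : ℕ → Set M} (ho : ∀ n, IsOpen (X n))
    (hd : ∀ i j, i ≠ j → Disjoint (X i) (X j)) {F G : Finset ℕ} (hFG : F ⊆ G)
    (hG : IsConnected (Co X G)) : IsConnected (Co X F) := by
  have h : Co X F = Co X G ∪ ⋃ i ∈ G \ F, X i := by
    ext x
    constructor
    · intro hx
      by_cases hxG : x ∈ Co X G
      · exact Or.inl hxG
      · right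
        rw [mem_Co] at hxG
        push Not at hxG
        obtain ⟨i, hi, hxi⟩ := hxG
        exact mem_biUnion (Finset.mem_sdiff.2 ⟨hi, fun h => hx i h hxi⟩) hxi
    · rintro (h | h)
      · exact fun i hi => h i (hFG hi)
      · rw [mem_iUnion₂] at h
        obtain ⟨i, hi, hxi⟩ := h
        intro j hj hxj
        rw [Finset.mem_sdiff] at hi
        have hij : i ≠ j := by rintro rfl; exact hi.2 hj
        exact (disjoint_left.1 (hd i j hij)) hxi hxj
  have hW : IsOpen (⋃ i ∈ G \ F, X i) := isOpen_biUnion (fun i _ => ho i)
  have hcl : IsClosed (Co X G ∪ ⋃ i ∈ G \ F, X i) := by rw [← h]; exact isClosed_Co ho F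
  rw [h]
  exact lemC hG hW hcl

lemma exists_F0 [CompactSpace M] [T2Space M] [ConnectedSpace M] (hNE : NE M) {X : ℕ → Set M}
    (ho : ∀ n, IsOpen (X n)) (hne : ∀ n, (X n).Nonempty)
    (hd : ∀ i j, i ≠ j → Disjoint (X i) (X j)) :
    ∃ F₀ : Finset ℕ, IsConnected (Co X F₀) ∧
      ∀ n, n ∉ F₀ → ¬ IsConnected (Co X (insert n F₀)) := by
  classical
  by_contra hcon
  push Not at hcon
  choose f hf1 hf2 using hcon
  have h0 : IsConnected (Co X ∅) := by
    have : Co X ∅ = univ := by ext x; simp [mem_Co]
    rw [this]; exact isConnected_univ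
  let s : ℕ → {F : Finset ℕ // IsConnected (Co X F)} := fun n =>
    Nat.rec ⟨∅, h0⟩ (fun _ F => ⟨insert (f F.1 F.2) F.1, hf2 F.1 F.2⟩) n
  let a : ℕ → ℕ := fun n => f (s n).1 (s n).2
  have hs : ∀ n, (s (n + 1)).1 = insert (a n) (s n).1 := fun n => rfl
  have hmono : ∀ n m, n ≤ m → (s n).1 ⊆ (s m).1 := by
    intro n m h
    induction h with
    | refl => exact Finset.Subset.refl _
    | step _ ih => rw [Nat.succ_eq_add_one, hs]; exact ih.trans (Finset.subset_insert _ _)
  have hnot : ∀ n, a n ∉ (s n).1 := fun n => hf1 _ _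
  have hmem : ∀ n m, n < m → a n ∈ (s m).1 := by
    intro n m h
    apply hmono (n + 1) m h
    rw [hs]; exact Finset.mem_insert_self _ _
  have hinj : ∀ i j, i ≠ j → a i ≠ a j := by
    intro i j hij h
    rcases lt_or_gt_of_ne hij with hlt | hlt
    · exact hnot j (h ▸ hmem i j hlt)
    · exact hnot i (h ▸ hmem j i hlt)
  apply lemV hNE (fun n => X (a n)) (fun n => ho _) (fun n => hne _)
    (fun i j hij => hd _ _ (hinj i j hij))
  intro F
  have hCo : Co (fun n => X (a n)) F = Co X (F.image a) := by
    ext x; simp [mem_Co]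
  rw [hCo]
  have hsub : F.image a ⊆ (s (F.sup id + 1)).1 := by
    intro x hx
    rw [Finset.mem_image] at hx
    obtain ⟨k, hk, rfl⟩ := hx
    have : k ≤ F.sup id := Finset.le_sup (f := id) hk
    exact hmem k (F.sup id + 1) (by omega)
  exact ind_subset ho hd hsub (s (F.sup id + 1)).2

/-- Claim 2: there is no infinite disjoint family of open connected sets with connected
complements missing a point `p`. -/
lemma claim2 [CompactSpace M] [T2Space M] [ConnectedSpace M] (hNE : NE M) {X : ℕ → Set M}
    (ho : ∀ n, IsOpen (X n)) (hc : ∀ n, IsConnected (X n))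
    (hcc : ∀ n, IsConnected (X n)ᶜ)
    (hd : ∀ i j, i ≠ j → Disjoint (X i) (X j)) : False := by
  classical
  obtain ⟨F₀, hF₀, hmax⟩ := exists_F0 hNE ho (fun n => (hc n).nonempty) hd
  -- minimal bad sets
  have hmin : ∀ n : {n : ℕ // n ∉ F₀}, ∃ D : Finset ℕ, D ⊆ F₀ ∧
      ¬ IsConnected (Co X (insert n.1 D)) ∧
      ∀ i ∈ D, IsConnected (Co X (insert n.1 (D.erase i))) := by
    rintro ⟨n, hn⟩
    have hne : (F₀.powerset.filter (fun D => ¬ IsConnected (Co X (insert n D)))).Nonempty :=
      ⟨F₀, Finset.mem_filter.2 ⟨Finset.mem_powerset_self _, hmax n hn⟩⟩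
    obtain ⟨D, hD, hDmin⟩ := Finset.exists_min_image _ Finset.card hne
    rw [Finset.mem_filter, Finset.mem_powerset] at hD
    refine ⟨D, hD.1, hD.2, fun i hi => ?_⟩
    by_contra hcon
    have h1 := hDmin (D.erase i) (Finset.mem_filter.2
      ⟨Finset.mem_powerset.2 ((Finset.erase_subset _ _).trans hD.1), hcon⟩)
    exact absurd (Finset.card_erase_lt_of_mem hi) (not_lt.2 h1)
  choose Dn hDn1 hDn2 hDn3 using hmin
  -- pigeonhole
  let φ : {n : ℕ // n ∉ F₀} → F₀.powerset := fun n => ⟨Dn n, Finset.mem_powerset.2 (hDn1 n)⟩
  have hinf : Infinite {n : ℕ // n ∉ F₀} := by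
    have : Infinite ((F₀ : Set ℕ)ᶜ : Set ℕ) := (F₀.finite_toSet.infinite_compl).to_subtype
    exact this
  obtain ⟨D', hD'⟩ := Finite.exists_infinite_fiber φ
  let e := Infinite.natEmbedding (φ ⁻¹' {D'})
  let h : ℕ → ℕ := fun n => (e n).1.1
  have hinj : Function.Injective h := fun a b hab => e.injective (Subtype.ext (Subtype.ext hab))
  have hφ : ∀ n, Dn (e n).1 = D'.1 := fun n => congrArg Subtype.val (e n).2
  set D : Finset ℕ := D'.1 with hDdef
  have hDF : D ⊆ F₀ := Finset.mem_powerset.1 D'.2
  have hhF : ∀ n, h n ∉ F₀ := fun n => (e n).1.2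
  have hhD : ∀ n, h n ∉ D := fun n hn => hhF n (hDF hn)
  have hbad : ∀ n, ¬ IsConnected (Co X (insert (h n) D)) := by
    intro n
    have := hDn2 (e n).1
    rw [hφ] at this; exact this
  have hgood : ∀ n, ∀ i ∈ D, IsConnected (Co X (insert (h n) (D.erase i))) := by
    intro n i hi
    have := hDn3 (e n).1 i (by rw [hφ]; exact hi)
    rw [hφ] at this; exact this
  have hDind : IsConnected (Co X D) := ind_subset ho hd hDF hF₀
  have hDne : D.Nonempty := by
    rw [Finset.nonempty_iff_ne_empty]
    intro hDe
    apply hbad 0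
    rw [hDe]
    have : Co X (insert (h 0) ∅) = (X (h 0))ᶜ := by ext x; simp [mem_Co]
    rw [this]; exact hcc _
  have hCoins : ∀ n, Co X (insert (h n) D) = Co X D \ X (h n) := by
    intro n
    ext x
    simp only [mem_Co, Finset.mem_insert, forall_eq_or_imp, mem_sdiff]
    tauto
  have hclosed : ∀ n, IsClosed (Co X D \ X (h n)) := by
    intro n; rw [← hCoins]; exact isClosed_Co ho _
  have hDne' : (Co X D).Nonempty := hDind.nonempty
  have hsplit : ∀ n, ∃ A B : Set M, IsClosed A ∧ IsClosed B ∧ Disjoint A B ∧
      A ∪ B = Co X D \ X (h n) ∧ A.Nonempty ∧ B.Nonempty := by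
    intro n
    apply split (hclosed n)
    intro hpre
    apply hbad n
    rw [hCoins]
    refine ⟨?_, hpre⟩
    -- nonempty: otherwise `Co X D ⊆ X (h n)`, a clopen set
    by_contra hemp
    rw [not_nonempty_iff_eq_empty] at hemp
    have hsub : Co X D ⊆ X (h n) := sdiff_eq_empty.1 hemp
    have hsub2 : X (h n) ⊆ Co X D := by
      intro x hx i hi hxi
      have hne : h n ≠ i := by rintro rfl; exact hhD n hi
      exact (disjoint_left.1 (hd _ _ hne)) hx hxi
    have heq : X (h n) = Co X D := hsub2.antisymm hsub
    have hclop : IsClopen (X (h n)) := ⟨by rw [heq]; exact isClosed_Co ho _, ho _⟩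
    rcases isClopen_iff.1 hclop with h' | h'
    · have := (hc (h n)).nonempty
      rw [h'] at this; exact not_nonempty_empty this
    · have := (hcc (h n)).nonempty
      rw [h', compl_univ] at this; exact not_nonempty_empty this
  choose A B hA hB hABd hAB hAne hBne using hsplit
  have S : Sys X D (Co X D) (fun n => X (h n)) A B :=
    { Tc := isClosed_Co ho _
      Tcon := hDind.isPreconnected
      Tcov := by
        intro x hx
        rw [mem_Co] at hx
        push Not at hx
        exact hx
      XT := by
        intro i hi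
        rw [disjoint_left]
        intro x hx hxD
        exact hxD i hi hx
      Xc := fun i _ => hc i
      Dne := hDne
      Yo := fun n => ho _
      Yc := fun n => hc _
      YT := by
        intro n x hx i hi hxi
        have hne : h n ≠ i := by rintro rfl; exact hhD n hi
        exact (disjoint_left.1 (hd _ _ hne)) hx hxi
      Yd := fun i j hij => hd _ _ (hinj.ne hij)
      Ac := hA
      Bc := hB
      ABd := hABd
      AB := hAB
      Ane := hAne
      Bne := hBne
      touch := by
        intro n i hi Q Q' hQ hQ' hQQ' hun hQne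
        by_contra hcon
        rw [not_nonempty_iff_eq_empty] at hcon
        have hg := hgood n i hi
        have hcl : IsClosed (Co X (insert (h n) (D.erase i))) := isClosed_Co ho _
        have hXi : X i ⊆ Co X (insert (h n) (D.erase i)) := by
          intro x hx j hj hxj
          rw [Finset.mem_insert, Finset.mem_erase] at hj
          have hne : i ≠ j := by
            rcases hj with h' | h'
            · rw [h']; rintro rfl; exact hhD n hi
            · exact fun h'' => h'.1 h''.symm
          exact (disjoint_left.1 (hd _ _ hne)) hx hxj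
        have hXicl := closure_minimal hXi hcl
        have hcov : Co X (insert (h n) (D.erase i)) ⊆ Q ∪ (Q' ∪ closure (X i)) := by
          intro x hx
          by_cases hxi : x ∈ X i
          · right; right; exact subset_closure hxi
          · have : x ∈ Q ∪ Q' := by
              rw [hun, ← hCoins]
              intro j hj
              by_cases hji : j = i
              · rw [hji]; exact hxi
              · apply hx j
                rw [Finset.mem_insert] at hj ⊢
                rcases hj with h' | h'
                · exact Or.inl h'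
                · exact Or.inr (Finset.mem_erase.2 ⟨hji, h'⟩)
            rcases this with h' | h'
            · exact Or.inl h'
            · exact Or.inr (Or.inl h')
        obtain ⟨q, hq⟩ := hQne
        have hqCo : q ∈ Co X (insert (h n) (D.erase i)) := by
          have : q ∈ Q ∪ Q' := Or.inl hq
          rw [hun, ← hCoins] at this
          intro j hj
          apply this j
          rw [Finset.mem_insert] at hj ⊢
          rcases hj with h' | h'
          · exact Or.inl h'
          · exact Or.inr (Finset.mem_of_mem_erase h')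
        have hdisj : Disjoint Q (Q' ∪ closure (X i)) := by
          rw [disjoint_left]
          rintro x hx (hx' | hx')
          · exact (disjoint_left.1 hQQ') hx hx'
          · have : x ∈ Q ∩ closure (X i) := ⟨hx, hx'⟩
            rw [hcon] at this; exact this
        have h1 := side hg.isPreconnected hQ (hQ'.union isClosed_closure) hdisj hcov
          ⟨q, hqCo, hq⟩
        obtain ⟨x, hx⟩ := (hc i).nonempty
        exact (disjoint_left.1 hdisj) (h1 (hXi hx)) (Or.inr (subset_closure hx)) }
  exact noSys hNE S

end Pool.Agent.H89Cont
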