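import Pool.Agent.Helper89.Cont3

set_option autoImplicit false

open Set Topology

namespace Pool.Agent.H89Cont

variable {M : Type*} [TopologicalSpace M]

/-- N1. -/
lemma N1 [CompactSpace M] [T2Space M] [ConnectedSpace M] (hNE : NE M) {U : Set M}
    (hU : IsOpen U) (hne : U.Nonempty) (hc : IsConnected Uᶜ) :
    ∃ X, X ⊆ U ∧ IsOpen X ∧ IsConnected X ∧ IsConnected Xᶜ := by
  classical
  by_contra hcon
  push Not at hcon
  -- splitting step
  have step : ∀ W : {W : Set M // IsOpen W ∧ W.Nonempty ∧ IsConnected Wᶜ ∧ W ⊆ U},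
      ∃ (V : Set M) (W' : {W : Set M // IsOpen W ∧ W.Nonempty ∧ IsConnected Wᶜ ∧ W ⊆ U}),
        IsOpen V ∧ V.Nonempty ∧ Disjoint V W'.1 ∧ V ∪ W'.1 = W.1 := by
    rintro ⟨W, hWo, hWne, hWc, hWU⟩
    have hWn : ¬ IsPreconnected W := fun h => hcon W hWU hWo ⟨hWne, h⟩ hWc
    unfold IsPreconnected at hWn
    push Not at hWn
    obtain ⟨u, v, hu, hv, huv, hWu, hWv, hWuv⟩ := hWn
    have hun : W ∩ u ∪ W ∩ v = W := by
      rw [← inter_union_distrib_left, inter_eq_left]; exact huv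
    have hdis : Disjoint (W ∩ u) (W ∩ v) := by
      rw [disjoint_left]
      rintro x ⟨hxW, hxu⟩ ⟨_, hxv⟩
      have : x ∈ W ∩ (u ∩ v) := ⟨hxW, hxu, hxv⟩
      rw [hWuv] at this; exact this
    have hcompl : (W ∩ v)ᶜ = Wᶜ ∪ (W ∩ u) := by
      ext x
      constructor
      · intro hx
        by_cases hxW : x ∈ W
        · right
          exact ⟨hxW, (huv hxW).resolve_right (fun h => hx ⟨hxW, h⟩)⟩
        · exact Or.inl hxW
      · rintro (h | h) h'
        · exact h h'.1
        · exact (disjoint_left.1 hdis) h h'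
    refine ⟨W ∩ u, ⟨W ∩ v, hWo.inter hv, hWv, ?_, inter_subset_left.trans hWU⟩,
      hWo.inter hu, hWu, hdis, hun⟩
    rw [hcompl]
    apply lemC hWc (hWo.inter hu)
    rw [← hcompl]
    exact (hWo.inter hv).isClosed_compl
  choose fV fW h1 h2 h3 h4 using step
  let W : ℕ → {W : Set M // IsOpen W ∧ W.Nonempty ∧ IsConnected Wᶜ ∧ W ⊆ U} := fun n =>
    Nat.rec ⟨U, hU, hne, hc, Subset.refl _⟩ (fun _ W => fW W) n
  let V : ℕ → Set M := fun n => fV (W n)
  have hW1 : ∀ n, W (n + 1) = fW (W n) := fun n => rfl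
  have hVo : ∀ n, IsOpen (V n) := fun n => h1 _
  have hVne : ∀ n, (V n).Nonempty := fun n => h2 _
  have hVW : ∀ n, Disjoint (V n) (W (n + 1)).1 := fun n => h3 _
  have hun : ∀ n, V n ∪ (W (n + 1)).1 = (W n).1 := fun n => h4 _
  have hWmono : ∀ n m, n ≤ m → (W m).1 ⊆ (W n).1 := by
    intro n m h
    induction h with
    | refl => exact Subset.refl _
    | step _ ih => exact (subset_union_right.trans (hun _).subset).trans ih
  have hVsub : ∀ n, V n ⊆ (W n).1 := fun n => subset_union_left.trans (hun n).subset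
  have hVWlt : ∀ n m, n < m → Disjoint (V n) (W m).1 :=
    fun n m h => (hVW n).mono_right (hWmono (n + 1) m h)
  have hVd : ∀ i j, i ≠ j → Disjoint (V i) (V j) := by
    intro i j hij
    rcases lt_or_gt_of_ne hij with h | h
    · exact (hVWlt i j h).mono_right (hVsub j)
    · exact ((hVWlt j i h).mono_right (hVsub i)).symm
  have hCo : ∀ N, Co V (Finset.range N) = Uᶜ ∪ (W N).1 := by
    intro N
    induction N with
    | zero =>
      have : (W 0).1 = U := rfl
      rw [this, compl_union_self]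
      ext x; simp [mem_Co]
    | succ N ih =>
      ext x
      rw [Finset.range_add_one]
      constructor
      · intro hx
        have hx' : x ∈ Co V (Finset.range N) := fun i hi => hx i (Finset.mem_insert_of_mem hi)
        rw [ih] at hx'
        rcases hx' with h | h
        · exact Or.inl h
        · rw [← hun N] at h
          right
          exact h.resolve_left (hx N (Finset.mem_insert_self _ _))
      · rintro (h | h)
        · intro i _ hxi
          exact h ((W i).2.2.2.2 (hVsub i hxi))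
        · intro i hi hxi
          rw [Finset.mem_insert, Finset.mem_range] at hi
          exact (disjoint_left.1 (hVWlt i (N + 1) (by omega))) hxi h
  apply lemV hNE V hVo hVne hVd
  intro F
  obtain ⟨N, hsub⟩ : ∃ N, F ⊆ Finset.range N := by
    refine ⟨F.sup id + 1, ?_⟩
    intro k hk
    have : k ≤ F.sup id := Finset.le_sup (f := id) hk
    rw [Finset.mem_range]; omega
  apply ind_subset hVo hVd hsub
  have hWo : IsOpen (W N).1 := (W N).2.1
  have hcl : IsClosed (Uᶜ ∪ (W N).1) := by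
    rw [← hCo N]
    exact isClosed_Co hVo _
  rw [hCo N]
  exact lemC hc hWo hcl

def Mem (p : M) (X : Set M) : Prop :=
  IsOpen X ∧ IsConnected X ∧ p ∉ X ∧ IsConnected Xᶜ

def Prim (p : M) (X : Set M) : Prop :=
  Mem p X ∧ ∀ Y Z : Set M, Mem p Y → Mem p Z → Y ⊆ X → Z ⊆ X → ¬ Disjoint Y Z

/-- N1 for proper continua through `p`. -/
lemma N1' [CompactSpace M] [T2Space M] [ConnectedSpace M] (hNE : NE M) {p : M} {K : Set M}
    (hK : IsClosed K) (hc : IsConnected K) (hp : p ∈ K) (hne : K ≠ univ) :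
    ∃ X, Mem p X ∧ X ⊆ Kᶜ := by
  obtain ⟨X, hX, hXo, hXc, hXcc⟩ := N1 hNE hK.isOpen_compl (nonempty_compl.2 hne)
    (by rwa [compl_compl])
  exact ⟨X, ⟨hXo, hXc, fun h => hX h hp, hXcc⟩, hX⟩

/-- N2. -/
lemma N2 {p : M} (hfin : ¬ ∃ X : ℕ → Set M, (∀ n, Mem p (X n)) ∧
    ∀ i j, i ≠ j → Disjoint (X i) (X j)) {X : Set M} (hX : Mem p X) :
    ∃ X', X' ⊆ X ∧ Prim p X' := by
  classical
  by_contra hcon
  push Not at hcon
  apply hfin
  have step : ∀ W : {W : Set M // Mem p W ∧ W ⊆ X},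
      ∃ (Z : Set M) (W' : {W : Set M // Mem p W ∧ W ⊆ X}),
        Mem p Z ∧ Z ⊆ W.1 ∧ W'.1 ⊆ W.1 ∧ Disjoint Z W'.1 := by
    rintro ⟨W, hW, hWX⟩
    have h := hcon W hWX
    unfold Prim at h
    push Not at h
    obtain ⟨Y, Z, hY, hZ, hYW, hZW, hd⟩ := h hW
    exact ⟨Y, ⟨Z, hZ, hZW.trans hWX⟩, hY, hYW, hZW, hd⟩
  choose fV fW h1 h2 h3 h4 using step
  let W : ℕ → {W : Set M // Mem p W ∧ W ⊆ X} := fun n =>
    Nat.rec ⟨X, hX, Subset.refl _⟩ (fun _ W => fW W) n
  let V : ℕ → Set M := fun n => fV (W n)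
  have hVW : ∀ n, Disjoint (V n) (W (n + 1)).1 := fun n => h4 _
  have hWmono : ∀ n m, n ≤ m → (W m).1 ⊆ (W n).1 := by
    intro n m h
    induction h with
    | refl => exact Subset.refl _
    | step _ ih => exact Subset.trans (h3 _) ih
  have hVsub : ∀ n, V n ⊆ (W n).1 := fun n => h2 _
  have hVWlt : ∀ n m, n < m → Disjoint (V n) (W m).1 :=
    fun n m h => (hVW n).mono_right (hWmono (n + 1) m h)
  refine ⟨V, fun n => h1 _, ?_⟩
  intro i j hij
  rcases lt_or_gt_of_ne hij with h | h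
  · exact (hVWlt i j h).mono_right (hVsub j)
  · exact ((hVWlt j i h).mono_right (hVsub i)).symm

/-- N3. -/
lemma N3 [CompactSpace M] [T2Space M] [ConnectedSpace M] [SecondCountableTopology M]
    (hNE : NE M) {p : M} {X : Set M} (hX : Prim p X) :
    ∃ y : M, ∀ K : Set M, IsClosed K → IsConnected K → Xᶜ ⊆ K → y ∈ K → K = univ := by
  classical
  obtain ⟨⟨hXo, hXc, hpX, hXcc⟩, hprim⟩ := hX
  have htwo : ∀ K₁ K₂ : Set M, IsClosed K₁ → IsClosed K₂ → IsConnected K₁ → IsConnected K₂ →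
      Xᶜ ⊆ K₁ → Xᶜ ⊆ K₂ → K₁ ≠ univ → K₂ ≠ univ → K₁ ∪ K₂ ≠ univ := by
    intro K₁ K₂ hc₁ hc₂ hk₁ hk₂ hs₁ hs₂ hn₁ hn₂ hun
    obtain ⟨Y, hY, hYK⟩ := N1' hNE hc₁ hk₁ (hs₁ hpX) hn₁
    obtain ⟨Z, hZ, hZK⟩ := N1' hNE hc₂ hk₂ (hs₂ hpX) hn₂
    apply hprim Y Z hY hZ
    · intro x hx
      by_contra hxX
      exact hYK hx (hs₁ hxX)
    · intro x hx
      by_contra hxX
      exact hZK hx (hs₂ hxX)
    · rw [disjoint_left]
      intro x hxY hxZ
      have : x ∈ K₁ ∪ K₂ := by rw [hun]; trivial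
      rcases this with h | h
      · exact hYK hxY h
      · exact hZK hxZ h
  obtain ⟨b, hbc, hbne, hb⟩ := TopologicalSpace.exists_countable_basis M
  have hbnon : b.Nonempty := by
    by_contra hemp
    rw [not_nonempty_iff_eq_empty] at hemp
    obtain ⟨v, hv, _⟩ := hb.exists_subset_of_mem_open (mem_univ p) isOpen_univ
    rw [hemp] at hv; exact hv
  obtain ⟨V, hV⟩ := hbc.exists_eq_range hbnon
  have hVo : ∀ j, IsOpen (V j) := fun j => hb.isOpen (by rw [hV]; exact mem_range_self j)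
  have hVne : ∀ j, (V j).Nonempty := by
    intro j
    rw [nonempty_iff_ne_empty]
    intro h
    apply hbne
    rw [hV, ← h]; exact mem_range_self j
  let Kf : ℕ → Set M := fun j => if Disjoint (V j) Xᶜ then connectedComponentIn (V j)ᶜ p else Xᶜ
  have hKX : ∀ j, Xᶜ ⊆ Kf j := by
    intro j
    by_cases h : Disjoint (V j) Xᶜ
    · simp only [Kf, if_pos h]
      exact hXcc.isPreconnected.subset_connectedComponentIn hpX
        (fun x hx hxV => (disjoint_left.1 h) hxV hx)
    · simp only [Kf, if_neg h]; exact Subset.refl _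
  have hKc : ∀ j, IsClosed (Kf j) := by
    intro j
    by_cases h : Disjoint (V j) Xᶜ
    · simp only [Kf, if_pos h]
      exact isClosed_cc (hVo j).isClosed_compl p
    · simp only [Kf, if_neg h]; exact hXo.isClosed_compl
  have hKcon : ∀ j, IsConnected (Kf j) := by
    intro j
    by_cases h : Disjoint (V j) Xᶜ
    · simp only [Kf, if_pos h]
      exact isConnected_connectedComponentIn_iff.2 (fun hpV => (disjoint_left.1 h) hpV hpX)
    · simp only [Kf, if_neg h]; exact hXcc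
  have hXne : Xᶜ ≠ univ := by
    intro h
    obtain ⟨x, hx⟩ := hXc.nonempty
    have : x ∈ Xᶜ := by rw [h]; trivial
    exact this hx
  have hKne : ∀ j, Kf j ≠ univ := by
    intro j
    by_cases h : Disjoint (V j) Xᶜ
    · simp only [Kf, if_pos h]
      intro hu
      obtain ⟨x, hx⟩ := hVne j
      have : x ∈ connectedComponentIn (V j)ᶜ p := by rw [hu]; trivial
      exact (connectedComponentIn_subset _ _ this) hx
    · simp only [Kf, if_neg h]; exact hXne
  let G : ℕ → Set M := fun n => Nat.rec Xᶜ (fun j S => S ∪ Kf j) n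
  have hG0 : G 0 = Xᶜ := rfl
  have hG1 : ∀ n, G (n + 1) = G n ∪ Kf n := fun n => rfl
  have hGX : ∀ n, Xᶜ ⊆ G n := by
    intro n
    induction n with
    | zero => exact Subset.refl _
    | succ n ih => rw [hG1]; exact ih.trans subset_union_left
  have hG : ∀ n, IsClosed (G n) ∧ IsConnected (G n) ∧ G n ≠ univ := by
    intro n
    induction n with
    | zero => exact ⟨hXo.isClosed_compl, hXcc, hXne⟩
    | succ n ih =>
      rw [hG1]
      refine ⟨ih.1.union (hKc n), IsConnected.union ⟨p, hGX n hpX, hKX n hpX⟩ ih.2.1 (hKcon n), ?_⟩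
      exact htwo _ _ ih.1 (hKc n) ih.2.1 (hKcon n) (hGX n) (hKX n) ih.2.2 (hKne n)
  obtain ⟨y, hy⟩ := hNE G (monotone_nat_of_le_succ (fun n => by
    rw [hG1]; exact subset_union_left)) hG
  refine ⟨y, fun K hK hKcn hXK hyK => ?_⟩
  by_contra hne
  obtain ⟨x, hx⟩ := nonempty_compl.2 hne
  obtain ⟨v, hv, hxv, hvK⟩ := hb.exists_subset_of_mem_open hx hK.isOpen_compl
  rw [hV] at hv
  obtain ⟨j, rfl⟩ := hv
  have hdis : Disjoint (V j) Xᶜ := by
    rw [disjoint_left]
    intro x hxV hxX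
    exact hvK hxV (hXK hxX)
  have hsub : K ⊆ Kf j := by
    simp only [Kf, if_pos hdis]
    exact hKcn.isPreconnected.subset_connectedComponentIn (hXK hpX)
      (fun x hx hxV => hvK hxV hx)
  apply hy (j + 1)
  rw [hG1]
  exact Or.inr (hsub hyK)

/-- N4. -/
lemma N4 [CompactSpace M] [T2Space M] [ConnectedSpace M] [SecondCountableTopology M]
    (hNE : NE M) {p : M} (hfin : ¬ ∃ X : ℕ → Set M, (∀ n, Mem p (X n)) ∧
    ∀ i j, i ≠ j → Disjoint (X i) (X j)) :
    ∃ F : Set M, F.Finite ∧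
      ∀ K : Set M, IsClosed K → IsConnected K → F ⊆ K → K = univ := by
  classical
  -- a finite family of primes meeting every prime
  have hs : ∃ s : Finset (Set M), (∀ x ∈ s, Prim p x) ∧
      ∀ y, Prim p y → ∃ x ∈ s, ¬ Disjoint x y := by
    by_contra hcon
    push Not at hcon
    obtain ⟨f, hf1, hf2⟩ := exists_seq_of_forall_finset_exists (Prim p)
      (fun x y => Disjoint x y) hcon
    apply hfin
    refine ⟨f, fun n => (hf1 n).1, fun i j hij => ?_⟩
    rcases lt_or_gt_of_ne hij with h | h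
    · exact hf2 i j h
    · exact (hf2 j i h).symm
  obtain ⟨s, hs1, hs2⟩ := hs
  have hy : ∀ x : Set M, ∃ y : M, Prim p x →
      ∀ K : Set M, IsClosed K → IsConnected K → xᶜ ⊆ K → y ∈ K → K = univ := by
    intro x
    by_cases h : Prim p x
    · obtain ⟨y, hy⟩ := N3 hNE h
      exact ⟨y, fun _ => hy⟩
    · exact ⟨p, fun h' => absurd h' h⟩
  choose y hy using hy
  refine ⟨insert p (y '' (s : Set (Set M))), (s.finite_toSet.image y).insert p, ?_⟩
  intro K hK hKc hF
  by_contra hne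
  have hpK : p ∈ K := hF (mem_insert _ _)
  obtain ⟨X, hX, hXK⟩ := N1' hNE hK hKc hpK hne
  obtain ⟨X'', hX''X, hX''⟩ := N2 hfin hX
  obtain ⟨X', hX's, hmeet⟩ := hs2 X'' hX''
  have hX' := hs1 X' hX's
  have hK' : X'ᶜ ∪ X''ᶜ = univ := by
    apply hy X' hX' (X'ᶜ ∪ X''ᶜ) (hX'.1.1.isClosed_compl.union hX''.1.1.isClosed_compl)
      (IsConnected.union ⟨p, hX'.1.2.2.1, hX''.1.2.2.1⟩ hX'.1.2.2.2 hX''.1.2.2.2)
      subset_union_left
    right
    intro hyX
    exact hXK (hX''X hyX) (hF (mem_insert_of_mem _ (mem_image_of_mem y hX's)))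
  apply hmeet
  rw [disjoint_left]
  intro x hx hx'
  have : x ∈ X'ᶜ ∪ X''ᶜ := by rw [hK']; trivial
  rcases this with h | h
  · exact h hx
  · exact h hx'

/-- The main theorem. -/
theorem main [CompactSpace M] [T2Space M] [ConnectedSpace M] [SecondCountableTopology M]
    (hNE : NE M) :
    ∃ F : Set M, F.Finite ∧
      ∀ K : Set M, IsClosed K → IsConnected K → F ⊆ K → K = univ := by
  obtain ⟨p⟩ : Nonempty M := inferInstance
  apply N4 hNE (p := p)
  rintro ⟨X, hX, hd⟩
  exact claim2 hNE (fun n => (hX n).1) (fun n => (hX n).2.1) (fun n => (hX n).2.2.2) hd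

end Pool.Agent.H89Cont
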